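import Mathlib

/-! # Vinogradov's mean value theorem (Linnik's p-adic proof) and `∑ n^{it}`: statements.
helper71.  Blueprint in the mail of 10:25Z (Dec 4). -/

set_option autoImplicit false

namespace Pool.Agent.VMV

open Finset

noncomputable section

/-- tuples of length `s` with entries in `{1, .., P}`. -/
def Tup (s P : ℕ) : Finset (Fin s → ℤ) := Fintype.piFinset fun _ => Finset.Icc (1 : ℤ) P

/-- the system `∑ x_i ^ j = ∑ y_i ^ j`, `1 ≤ j ≤ k`. -/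
def Sys (k : ℕ) {s : ℕ} (x y : Fin s → ℤ) : Prop :=
  ∀ j ∈ Finset.Icc 1 k, ∑ i, x i ^ j = ∑ i, y i ^ j

/-- Vinogradov's `J_{s,k}(P)`: number of solutions of the system in `2 s` variables `≤ P`. -/
def J (k s P : ℕ) : ℕ :=
  by classical exact ((Tup s P ×ˢ Tup s P).filter fun z => Sys k z.1 z.2).card

/-- the entries are pairwise incongruent mod `p`. -/
def Dist (p : ℕ) {s : ℕ} (x : Fin s → ℤ) : Prop := ∀ i j, i ≠ j → ¬ (p : ℤ) ∣ x i - x j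

/-- number of `(x, y, u, v)`, `x, y ∈ [1,P]^k` pairwise incongruent mod `p`, `u, v ∈ [1,P]^s`, with
`∑ x^j + ∑ u^j = ∑ y^j + ∑ v^j` for `1 ≤ j ≤ k`. -/
def R (k s P p : ℕ) : ℕ :=
  by classical exact
    (((Tup k P ×ˢ Tup k P) ×ˢ (Tup s P ×ˢ Tup s P)).filter fun z =>
      Dist p z.1.1 ∧ Dist p z.1.2 ∧ ∀ j ∈ Finset.Icc 1 k,
        ∑ i, z.1.1 i ^ j + ∑ i, z.2.1 i ^ j = ∑ i, z.1.2 i ^ j + ∑ i, z.2.2 i ^ j).card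

/-- ROW V1 (Linnik's lemma). -/
def Linnik : Prop := ∀ (k p : ℕ), p.Prime → k < p → ∀ (I : Finset ℤ),
  (∀ a ∈ I, ∀ b ∈ I, (p : ℤ) ^ k ∣ a - b → a = b) → ∀ (lam : ℕ → ℤ) (X : Finset (Fin k → ℤ)),
  (∀ x ∈ X, (∀ i, x i ∈ I) ∧ Dist p x ∧
    ∀ j ∈ Finset.Icc 1 k, (p : ℤ) ^ j ∣ ∑ i, x i ^ j - lam j) →
  X.card ≤ k.factorial * p ^ (k * (k - 1) / 2)

/-- ROW V2 (well conditioned solutions). -/
def WellCond : Prop := ∀ (k s P p : ℕ), p.Prime → k < p → P ≤ p ^ k →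
  R k s P p ≤ k.factorial * p ^ (2 * s + k * (k - 1) / 2) * P ^ k * J k s (P / p + 1)

/-- ROW V3 (recurrence). `Q` with `P ≤ Q ^ k` replaces `P ^ (1/k)`. -/
def Recur : Prop := ∀ (k s P Q : ℕ), 2 ≤ k → 4 * k ^ 4 < P → P ≤ Q ^ k → k ≤ Q →
  J k (k + s) P ≤ 2 * k ^ 3 * k.factorial * (2 ^ (k ^ 3) * Q) ^ (2 * s + k * (k - 1) / 2) *
    P ^ k * J k s (P / Q + 1)

/-- ROW V4 (Vinogradov's mean value theorem, weak constants). -/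
def VMVT : Prop := ∃ C : ℝ, 1 ≤ C ∧ ∀ (k l P : ℕ), 2 ≤ k → 1 ≤ P →
  (J k (k * l) P : ℝ) ≤ Real.exp (C * k ^ 4 * l * (l + k)) *
    (P : ℝ) ^ ((2 * k * l : ℝ) - k * (k + 1) / 2 + k * (k + 1) / 2 * (1 - 1 / (k : ℝ)) ^ l)

/-- `e(x)`. -/
def e (x : ℝ) : ℂ := Complex.exp ((2 * Real.pi * x : ℝ) * Complex.I)

/-- ROW V5 (bilinear form; pure Hölder). `a j` is `α_j`. -/
def Bilinear : Prop := ∀ (k s Y : ℕ) (a : ℕ → ℝ), 1 ≤ s → 1 ≤ Y →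
  ‖∑ x ∈ Finset.Icc 1 Y, ∑ y ∈ Finset.Icc 1 Y,
      e (∑ j ∈ Finset.Icc 1 k, a j * ((x : ℝ) ^ j * (y : ℝ) ^ j))‖ ^ (4 * s ^ 2) ≤
    (Y : ℝ) ^ (8 * s ^ 2 - 4 * s) * (J k s Y : ℝ) ^ 2 *
      ∏ j ∈ Finset.Icc 1 k, ∑ m ∈ Finset.Icc (-(s * Y ^ j : ℤ)) (s * Y ^ j),
        ‖∑ n ∈ Finset.Icc (-(s * Y ^ j : ℤ)) (s * Y ^ j), e (a j * ((m : ℝ) * n))‖

/-- ROW V6 (the sum `∑ n^{it}`): saving `exp(- c (log N)^3 / (log t)^2)` for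
`log N ≥ C (log t)^{4/5}`. -/
def Zsum : Prop := ∃ c C : ℝ, 0 < c ∧ 1 ≤ C ∧ ∀ (N M : ℕ) (t : ℝ), 2 ≤ t → N ≤ M → M ≤ 2 * N →
  (N : ℝ) ≤ t → C * (Real.log t) ^ (4 / 5 : ℝ) ≤ Real.log N →
  ‖∑ n ∈ Finset.Ioc N M, Complex.exp (((t * Real.log n : ℝ)) * Complex.I)‖ ≤
    C * N * Real.exp (-(c * (Real.log N) ^ 3 / (Real.log t) ^ 2))

end

end Pool.Agent.VMV
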