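import Mathlib
import Pool.Agent.Lib.VMV.Defs

/-! # Row ZS: the sum `∑ (n + β)^{it}` with real `0 ≤ β ≤ 1` (for Hurwitz zeta / Dirichlet
`L`-functions of any modulus). -/

set_option autoImplicit false

namespace Pool.Agent.VMV

open Finset

noncomputable section

/-- ROW ZSp (helper24): `WProd` with a real base point `x`. -/
def WProdX : Prop := ∃ C : ℝ, 1 ≤ C ∧ ∀ (N Y k s : ℕ) (x κ t : ℝ) (a : ℕ → ℝ), 1 ≤ κ →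
  t = (N : ℝ) ^ κ → (N : ℝ) ≤ x → x ≤ 2 * N → (Y : ℝ) ≤ (N : ℝ) ^ (1 / 3 : ℝ) →
  (N : ℝ) ^ (1 / 3 : ℝ) ≤ 2 * Y → 3 * κ + 2 ≤ k → k ≤ 3 * κ + 4 → 1 ≤ s →
  (s : ℝ) ≤ 8 * k ^ 2 → (∀ j : ℕ, 1 ≤ j → |a j| = t / (2 * Real.pi * j * x ^ j)) →
  C * κ ^ 4 ≤ Real.log N →
  ∏ j ∈ Finset.Icc 1 k, (∑ m ∈ Finset.Icc (-(s * Y ^ j : ℤ)) (s * Y ^ j),
    ‖∑ n ∈ Finset.Icc (-(s * Y ^ j : ℤ)) (s * Y ^ j), e (a j * ((m : ℝ) * n))‖) ≤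
    (9 * (s : ℝ) ^ 2) ^ k * (Y : ℝ) ^ (k * (k + 1)) * (N : ℝ) ^ (-(κ ^ 2 / 20))

/-- ROW ZS (helper4): `Zsum` with `n` replaced by `n + β`, uniformly in `0 ≤ β ≤ 1`. -/
def ZsumS : Prop := ∃ c C : ℝ, 0 < c ∧ 1 ≤ C ∧ ∀ (N M : ℕ) (t β : ℝ), 0 ≤ β → β ≤ 1 → 2 ≤ t →
  N ≤ M → M ≤ 2 * N → (N : ℝ) ≤ t → C * (Real.log t) ^ (4 / 5 : ℝ) ≤ Real.log N →
  ‖∑ n ∈ Finset.Ioc N M, Complex.exp (((t * Real.log (n + β) : ℝ)) * Complex.I)‖ ≤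
    C * N * Real.exp (-(c * (Real.log N) ^ 3 / (Real.log t) ^ 2))

end

end Pool.Agent.VMV
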