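import Pool.Agent.Lib.VMV.Defs

/-! # Linnik's lemma.  helper71, Dec 4. -/

set_option autoImplicit false

namespace Pool.Agent.VMV

open Finset

/-- Newton: equal power sums of orders `1..k` and `1, .., k` units imply equal elementary symmetric
functions of orders `≤ k`. -/
theorem esymm_eq_of_psum_eq {R : Type*} [CommRing R] {k : ℕ} (x y : Fin k → R)
    (hu : ∀ j : ℕ, 1 ≤ j → j ≤ k → IsUnit (j : R))
    (h : ∀ j : ℕ, 1 ≤ j → j ≤ k → ∑ i, x i ^ j = ∑ i, y i ^ j) :
    ∀ n : ℕ, n ≤ k → MvPolynomial.aeval x (MvPolynomial.esymm (Fin k) R n) =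
      MvPolynomial.aeval y (MvPolynomial.esymm (Fin k) R n) := by
  intro n
  induction n using Nat.strong_induction_on with
  | _ n ih =>
    intro hn
    rcases Nat.eq_zero_or_pos n with h0 | h0
    · subst h0
      simp
    · have e1 := congrArg (MvPolynomial.aeval x) (MvPolynomial.mul_esymm_eq_sum (Fin k) R n)
      have e2 := congrArg (MvPolynomial.aeval y) (MvPolynomial.mul_esymm_eq_sum (Fin k) R n)
      simp only [map_mul, map_sum, map_pow, map_neg, map_one, map_natCast] at e1 e2
      have hs : ∑ a ∈ antidiagonal n with a.1 < n, (-1) ^ a.1 *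
            (MvPolynomial.aeval x) (MvPolynomial.esymm (Fin k) R a.1) *
            (MvPolynomial.aeval x) (MvPolynomial.psum (Fin k) R a.2) =
          ∑ a ∈ antidiagonal n with a.1 < n, (-1) ^ a.1 *
            (MvPolynomial.aeval y) (MvPolynomial.esymm (Fin k) R a.1) *
            (MvPolynomial.aeval y) (MvPolynomial.psum (Fin k) R a.2) := by
        apply Finset.sum_congr rfl
        intro a ha
        rw [Finset.mem_filter, Finset.HasAntidiagonal.mem_antidiagonal] at ha
        rw [ih a.1 ha.2 (by omega)]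
        congr 1
        simp only [MvPolynomial.psum, map_sum, map_pow, MvPolynomial.aeval_X]
        exact h a.2 (by omega) (by omega)
      rw [hs, ← e2] at e1
      exact (hu n h0 hn).mul_left_cancel e1

/-- equal power sums give equal polynomials `∏ (T - x_i)`, evaluated. -/
theorem prod_sub_eq {R : Type*} [CommRing R] {k : ℕ} (x y : Fin k → R)
    (hu : ∀ j : ℕ, 1 ≤ j → j ≤ k → IsUnit (j : R))
    (h : ∀ j : ℕ, 1 ≤ j → j ≤ k → ∑ i, x i ^ j = ∑ i, y i ^ j) (t : R) :
    ∏ i, (t - x i) = ∏ i, (t - y i) := by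
  have key : ∀ z : Fin k → R, ∏ i, (t - z i) = ∑ j ∈ Finset.range (k + 1),
      (-1) ^ j * ((MvPolynomial.aeval z (MvPolynomial.esymm (Fin k) R j)) * t ^ (k - j)) := by
    intro z
    have h1 := congrArg (Polynomial.eval t)
      (Multiset.prod_X_sub_X_eq_sum_esymm (R := R) ((univ : Finset (Fin k)).val.map z))
    simp only [Multiset.map_map, Function.comp_def, Multiset.card_map] at h1
    have h2 : (Multiset.map (fun i => Polynomial.X - Polynomial.C (z i))
        (univ : Finset (Fin k)).val).prod = ∏ i, (Polynomial.X - Polynomial.C (z i)) := rfl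
    rw [h2, Polynomial.eval_prod, Polynomial.eval_finsetSum] at h1
    have h3 : Multiset.card (univ : Finset (Fin k)).val = k := by
      rw [Finset.card_val, Finset.card_univ, Fintype.card_fin]
    rw [h3] at h1
    simp only [Polynomial.eval_sub, Polynomial.eval_X, Polynomial.eval_C, Polynomial.eval_mul,
      Polynomial.eval_pow, Polynomial.eval_neg, Polynomial.eval_one] at h1
    rw [h1]
    apply Finset.sum_congr rfl
    intro j _
    rw [MvPolynomial.aeval_esymm_eq_multiset_esymm]
  rw [key x, key y]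
  apply Finset.sum_congr rfl
  intro j hj
  rw [esymm_eq_of_psum_eq x y hu h j (by rw [Finset.mem_range] at hj; omega)]

/-- equal power sums mod `p^k` imply: permutation. -/
theorem perm_of_psum {k p : ℕ} (hp : p.Prime) (hk : k < p) (x y : Fin k → ℤ)
    (hx : Dist p x) (hy : Dist p y)
    (hI : ∀ i j, (p : ℤ) ^ k ∣ y j - x i → y j = x i)
    (h : ∀ j : ℕ, 1 ≤ j → j ≤ k → (p : ℤ) ^ k ∣ ∑ i, x i ^ j - ∑ i, y i ^ j) :
    ∃ σ : Equiv.Perm (Fin k), y = fun j => x (σ j) := by
  classical
  have hpZ : Prime (p : ℤ) := Nat.prime_iff_prime_int.mp hp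
  -- the product
  have hprod : ∀ j, (p : ℤ) ^ k ∣ ∏ i, (y j - x i) := by
    intro j
    have hcast : ∀ m : ℤ, ((m : ℤ) : ZMod (p ^ k)) = 0 ↔ (p : ℤ) ^ k ∣ m := by
      intro m
      rw [ZMod.intCast_zmod_eq_zero_iff_dvd]
      push_cast
      rfl
    rw [← hcast]
    push_cast
    have h1 := prod_sub_eq (R := ZMod (p ^ k)) (fun i => (x i : ZMod (p ^ k)))
      (fun i => (y i : ZMod (p ^ k))) ?_ ?_ (y j : ZMod (p ^ k))
    · rw [h1]
      exact Finset.prod_eq_zero (Finset.mem_univ j) (sub_self _)
    · intro m hm1 hm2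
      rw [ZMod.isUnit_iff_coprime]
      apply Nat.Coprime.pow_right
      exact (Nat.coprime_of_lt_prime (by omega) (by omega) hp).symm
    · intro m hm1 hm2
      have h2 := (hcast _).mpr (h m hm1 hm2)
      push_cast at h2
      exact sub_eq_zero.mp h2
  have hex : ∀ j, ∃ i, y j = x i := by
    intro j
    rcases Nat.eq_zero_or_pos k with hk0 | hk0
    · subst hk0; exact j.elim0
    · -- some factor divisible by p
      have h1 : (p : ℤ) ∣ ∏ i, (y j - x i) := dvd_trans (dvd_pow_self _ (by omega)) (hprod j)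
      obtain ⟨i0, _, hi0⟩ := (hpZ.dvd_finsetProd_iff _).mp h1
      refine ⟨i0, hI i0 j ?_⟩
      have h2 := hprod j
      rw [← Finset.mul_prod_erase _ _ (Finset.mem_univ i0)] at h2
      refine IsCoprime.dvd_of_dvd_mul_right ?_ h2
      apply IsCoprime.pow_left
      apply IsCoprime.prod_right
      intro i hi
      rw [Finset.mem_erase] at hi
      rw [hpZ.coprime_iff_not_dvd]
      intro h3
      have h4 := dvd_sub hi0 h3
      apply hx i i0 hi.1
      have h5 : x i - x i0 = (y j - x i0) - (y j - x i) := by ring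
      rw [h5]
      exact h4
  choose f hf using hex
  have hinj : Function.Injective f := by
    intro a b hab
    by_contra hne
    apply hy a b hne
    rw [hf a, hf b, hab, sub_self]
    exact dvd_zero _
  exact ⟨Equiv.ofBijective f (Finite.injective_iff_bijective.mp hinj), funext hf⟩

theorem sum_pred (k : ℕ) : ∑ j : Fin k, (k - (j.val + 1)) = k * (k - 1) / 2 := by
  rw [Fin.sum_univ_eq_sum_range (fun j => k - (j + 1)) k]
  have h1 : ∀ j ∈ Finset.range k, k - (j + 1) = k - 1 - j := by
    intro j _
    omega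
  rw [Finset.sum_congr rfl h1, Finset.sum_range_reflect (fun j => j) k, Finset.sum_range_id]

theorem linnik : Linnik := by
  classical
  intro k p hp hk I hI lam X hX
  have hp0 : (0 : ℤ) < (p : ℤ) := by exact_mod_cast hp.pos
  let cl : (Fin k → ℤ) → (Fin k → ℤ) := fun x j =>
    ((∑ i, x i ^ (j.val + 1) - lam (j.val + 1)) / (p : ℤ) ^ (j.val + 1)) % (p : ℤ) ^ (k - (j.val + 1))
  let T : Finset (Fin k → ℤ) := Fintype.piFinset fun j : Fin k =>
    Finset.Ico (0 : ℤ) ((p : ℤ) ^ (k - (j.val + 1)))
  have hT : T.card = p ^ (k * (k - 1) / 2) := by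
    simp only [T, Fintype.card_piFinset, Int.card_Ico, sub_zero]
    rw [← sum_pred k, ← Finset.prod_pow_eq_pow_sum]
    apply Finset.prod_congr rfl
    intro j _
    have : ((p : ℤ) ^ (k - (j.val + 1))) = ((p ^ (k - (j.val + 1)) : ℕ) : ℤ) := by push_cast; rfl
    rw [this, Int.toNat_natCast]
  have hmaps : ∀ x ∈ X, cl x ∈ T := by
    intro x _
    rw [Fintype.mem_piFinset]
    intro j
    rw [Finset.mem_Ico]
    exact ⟨Int.emod_nonneg _ (by positivity), Int.emod_lt_of_pos _ (by positivity)⟩
  have hfib : ∀ b ∈ T, (X.filter fun x => cl x = b).card ≤ k.factorial := by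
    intro b _
    rcases (X.filter fun x => cl x = b).eq_empty_or_nonempty with he | ⟨x, hx⟩
    · rw [he]; simp
    · rw [Finset.mem_filter] at hx
      have hsub : (X.filter fun x => cl x = b) ⊆
          (Finset.univ : Finset (Equiv.Perm (Fin k))).image fun σ => fun j => x (σ j) := by
        intro y hy
        rw [Finset.mem_filter] at hy
        rw [Finset.mem_image]
        obtain ⟨hxI, hxD, hxc⟩ := hX x hx.1
        obtain ⟨hyI, hyD, hyc⟩ := hX y hy.1
        obtain ⟨σ, hσ⟩ := perm_of_psum hp hk x y hxD hyD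
          (fun i j hij => hI _ (hyI j) _ (hxI i) hij) (by
            intro j hj1 hj2
            have hcl : cl x ⟨j - 1, by omega⟩ = cl y ⟨j - 1, by omega⟩ := by rw [hx.2, hy.2]
            simp only [cl] at hcl
            have hjj : j - 1 + 1 = j := by omega
            rw [hjj] at hcl
            obtain ⟨A, hA⟩ := hxc j (Finset.mem_Icc.mpr ⟨hj1, hj2⟩)
            obtain ⟨B, hB⟩ := hyc j (Finset.mem_Icc.mpr ⟨hj1, hj2⟩)
            rw [hA, hB, Int.mul_ediv_cancel_left _ (by positivity),
              Int.mul_ediv_cancel_left _ (by positivity)] at hcl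
            have h1 : (p : ℤ) ^ (k - j) ∣ A - B := (Int.emod_emod_of_dvd _ (dvd_refl _) ▸
              Int.emod_eq_emod_iff_emod_sub_eq_zero.mp hcl |> Int.dvd_of_emod_eq_zero)
            have h2 : ∑ i, x i ^ j - ∑ i, y i ^ j = (p : ℤ) ^ j * (A - B) := by
              rw [mul_sub, ← hA, ← hB]; ring
            rw [h2]
            have h3 : (p : ℤ) ^ k = (p : ℤ) ^ j * (p : ℤ) ^ (k - j) := by
              rw [← pow_add]; congr 1; omega
            rw [h3]
            exact mul_dvd_mul_left _ h1)
        exact ⟨σ, Finset.mem_univ _, hσ.symm⟩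
      calc (X.filter fun x => cl x = b).card
          ≤ ((Finset.univ : Finset (Equiv.Perm (Fin k))).image fun σ => fun j => x (σ j)).card :=
            Finset.card_le_card hsub
        _ ≤ (Finset.univ : Finset (Equiv.Perm (Fin k))).card := Finset.card_image_le
        _ = k.factorial := by rw [Finset.card_univ, Fintype.card_perm, Fintype.card_fin]
  calc X.card ≤ k.factorial * T.card :=
        Finset.card_le_mul_card_image_of_maps_to hmaps _ hfib
    _ = k.factorial * p ^ (k * (k - 1) / 2) := by rw [hT]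

end Pool.Agent.VMV
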