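import Pool.Agent.Lib.VMV.Four
import Mathlib.Algebra.Order.Chebyshev

/-! # Well conditioned solutions.  helper71, Dec 4. -/

set_option autoImplicit false

namespace Pool.Agent.VMV

open Finset ComplexConjugate

noncomputable section

/-- the vector of power sums of orders `1..k`. -/
def ps (k : ℕ) {s : ℕ} (x : Fin s → ℤ) : Fin k → ℤ := fun j => ∑ i, x i ^ (j.val + 1)

theorem ps_eq_iff (k : ℕ) {s : ℕ} (x y : Fin s → ℤ) : ps k x = ps k y ↔ Sys k x y := by
  constructor
  · intro h j hj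
    rw [Finset.mem_Icc] at hj
    have := congrFun h ⟨j - 1, by omega⟩
    simp only [ps] at this
    rwa [show j - 1 + 1 = j by omega] at this
  · intro h
    funext j
    exact h (j.val + 1) (Finset.mem_Icc.mpr ⟨by omega, by omega⟩)

theorem J_eq (k s P : ℕ) : J k s P =
    (by classical exact ((Tup s P ×ˢ Tup s P).filter fun z => ps k z.1 = ps k z.2).card) := by
  classical
  unfold J
  congr 1
  apply Finset.filter_congr
  intro z _
  exact (ps_eq_iff k z.1 z.2).symm

theorem mem_Tup {s P : ℕ} {x : Fin s → ℤ} : x ∈ Tup s P ↔ ∀ i, 1 ≤ x i ∧ x i ≤ P := by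
  unfold Tup
  rw [Fintype.mem_piFinset]
  simp only [Finset.mem_Icc]

theorem card_Tup (s P : ℕ) : (Tup s P).card = P ^ s := by
  unfold Tup
  rw [Fintype.card_piFinset]
  simp

/-- translation: equal power sums of orders `1..k`, equal total lengths, imply equal power sums of
the translates. -/
theorem translate {k n s : ℕ} (x y : Fin n → ℤ) (u v : Fin s → ℤ) (r : ℤ)
    (h : ∀ j ∈ Finset.Icc 1 k, ∑ i, x i ^ j + ∑ i, u i ^ j = ∑ i, y i ^ j + ∑ i, v i ^ j) :
    ∀ j ∈ Finset.Icc 1 k, ∑ i, (x i + r) ^ j + ∑ i, (u i + r) ^ j =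
      ∑ i, (y i + r) ^ j + ∑ i, (v i + r) ^ j := by
  intro j hj
  have key : ∀ (m : ℕ) (z : Fin m → ℤ), ∑ i, (z i + r) ^ j =
      ∑ a ∈ Finset.range (j + 1), (∑ i, z i ^ a) * (r ^ (j - a) * (j.choose a : ℤ)) := by
    intro m z
    simp_rw [add_pow]
    rw [Finset.sum_comm]
    apply Finset.sum_congr rfl
    intro a _
    rw [Finset.sum_mul]
    apply Finset.sum_congr rfl
    intro i _
    ring
  rw [key, key, key, key, ← Finset.sum_add_distrib, ← Finset.sum_add_distrib]
  apply Finset.sum_congr rfl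
  intro a ha
  rw [← add_mul, ← add_mul]
  congr 1
  rw [Finset.mem_range] at ha
  rw [Finset.mem_Icc] at hj
  rcases Nat.eq_zero_or_pos a with h0 | h0
  · subst h0; simp
  · exact h a (Finset.mem_Icc.mpr ⟨h0, by omega⟩)

/-- number of solutions with the `u, v` in one class `- r` mod `p`. -/
def RA (k s P p : ℕ) (r : ℕ) : ℕ :=
  by classical exact
    (((Tup k P ×ˢ Tup k P) ×ˢ (Tup s P ×ˢ Tup s P)).filter fun z =>
      (Dist p z.1.1 ∧ Dist p z.1.2) ∧ ((∀ i, (p : ℤ) ∣ z.2.1 i + r) ∧ (∀ i, (p : ℤ) ∣ z.2.2 i + r)) ∧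
       ∀ j ∈ Finset.Icc 1 k,
        ∑ i, z.1.1 i ^ j + ∑ i, z.2.1 i ^ j = ∑ i, z.1.2 i ^ j + ∑ i, z.2.2 i ^ j).card

theorem RA_le (h1 : Linnik) (k s P p : ℕ) (hp : p.Prime) (hk : k < p) (hP : P ≤ p ^ k) (r : ℕ)
    (hr : r < p) :
    RA k s P p r ≤ k.factorial * p ^ (k * (k - 1) / 2) * P ^ k * J k s (P / p + 1) := by
  classical
  have hp0 : (0 : ℤ) < (p : ℤ) := by exact_mod_cast hp.pos
  -- the (x, y)
  let XY : Finset ((Fin k → ℤ) × (Fin k → ℤ)) := (Tup k P ×ˢ Tup k P).filter fun z =>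
    (Dist p z.1 ∧ Dist p z.2) ∧ ∀ j ∈ Finset.Icc 1 k,
      (p : ℤ) ^ j ∣ ∑ i, (z.1 i + r) ^ j - ∑ i, (z.2 i + r) ^ j
  have hXY : XY.card ≤ k.factorial * p ^ (k * (k - 1) / 2) * P ^ k := by
    have h2 : XY.card ≤ (k.factorial * p ^ (k * (k - 1) / 2)) * (Tup k P).card := by
      apply Finset.card_le_mul_card_image_of_maps_to (f := fun z => z.2)
      · intro z hz
        exact (Finset.mem_product.mp (Finset.mem_filter.mp hz).1).2
      · intro y hy
        -- x ↦ x + r
        have h3 : (XY.filter fun z => z.2 = y).card =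
            ((XY.filter fun z => z.2 = y).image fun z => fun i => z.1 i + (r : ℤ)).card := by
          symm
          apply Finset.card_image_of_injOn
          intro a ha b hb hab
          have ha' := Finset.mem_filter.mp ha
          have hb' := Finset.mem_filter.mp hb
          apply Prod.ext
          · funext i
            have := congrFun hab i
            simpa using this
          · rw [ha'.2, hb'.2]
        rw [h3]
        apply h1 k p hp hk ((Finset.Icc (1 : ℤ) P).image fun a => a + (r : ℤ)) ?_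
          (fun j => ∑ i, (y i + r) ^ j)
        · intro x hx
          obtain ⟨z, hz, rfl⟩ := Finset.mem_image.mp hx
          obtain ⟨hz1, hz2⟩ := Finset.mem_filter.mp hz
          obtain ⟨hz3, hz4, hz5⟩ := Finset.mem_filter.mp hz1
          have hz6 := (Finset.mem_product.mp hz3).1
          refine ⟨?_, ?_, ?_⟩
          · intro i
            apply Finset.mem_image_of_mem
            rw [Finset.mem_Icc]
            exact mem_Tup.mp hz6 i
          · intro i j hij hd
            apply hz4.1 i j hij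
            have : z.1 i + (r : ℤ) - (z.1 j + (r : ℤ)) = z.1 i - z.1 j := by ring
            rwa [this] at hd
          · intro j hj
            have := hz5 j hj
            rw [hz2] at this
            exact this
        · intro a ha b hb hab
          obtain ⟨a', ha', rfl⟩ := Finset.mem_image.mp ha
          obtain ⟨b', hb', rfl⟩ := Finset.mem_image.mp hb
          rw [Finset.mem_Icc] at ha' hb'
          have e1 : a' + (r : ℤ) - (b' + (r : ℤ)) = a' - b' := by ring
          rw [e1] at hab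
          have e2 : a' - b' = 0 := by
            apply Int.eq_zero_of_abs_lt_dvd hab
            rw [abs_lt]
            have hP' : (P : ℤ) ≤ (p : ℤ) ^ k := by exact_mod_cast hP
            constructor <;> linarith [ha'.1, ha'.2, hb'.1, hb'.2]
          show a' + (r : ℤ) = b' + (r : ℤ)
          linarith
    rw [card_Tup] at h2
    exact h2
  -- the fibres
  have hmain : RA k s P p r ≤ J k s (P / p + 1) * XY.card := by
    unfold RA
    apply Finset.card_le_mul_card_image_of_maps_to (f := fun z => z.1)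
    · intro z hz
      obtain ⟨hz1, hz2, hz3, hz4⟩ := Finset.mem_filter.mp hz
      have hz5 := Finset.mem_product.mp hz1
      refine Finset.mem_filter.mpr ⟨hz5.1, hz2, ?_⟩
      intro j hj
      have h5 := translate _ _ _ _ (r : ℤ) hz4 j hj
      have h6 : ∀ w : Fin s → ℤ, (∀ i, (p : ℤ) ∣ w i + r) →
          (p : ℤ) ^ j ∣ ∑ i, (w i + (r : ℤ)) ^ j := by
        intro w hw
        exact Finset.dvd_sum fun i _ => pow_dvd_pow_of_dvd (hw i) j
      have h7 : ∑ i, (z.1.1 i + (r : ℤ)) ^ j - ∑ i, (z.1.2 i + (r : ℤ)) ^ j =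
          ∑ i, (z.2.2 i + (r : ℤ)) ^ j - ∑ i, (z.2.1 i + (r : ℤ)) ^ j := by linarith
      rw [h7]
      exact dvd_sub (h6 _ hz3.2) (h6 _ hz3.1)
    · intro q hq
      obtain ⟨hq1, hq2, hq3⟩ := Finset.mem_filter.mp hq
      -- the constants
      let c : Fin k → ℤ := fun j =>
        (∑ i, (q.2 i + (r : ℤ)) ^ (j.val + 1) - ∑ i, (q.1 i + (r : ℤ)) ^ (j.val + 1)) /
          (p : ℤ) ^ (j.val + 1)
      have hc : ∀ j : Fin k, (p : ℤ) ^ (j.val + 1) * c j =
          ∑ i, (q.2 i + (r : ℤ)) ^ (j.val + 1) - ∑ i, (q.1 i + (r : ℤ)) ^ (j.val + 1) := by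
        intro j
        have := hq3 (j.val + 1) (Finset.mem_Icc.mpr ⟨by omega, by omega⟩)
        rw [← dvd_neg, neg_sub] at this
        exact Int.mul_ediv_cancel' this
      rw [J_eq]
      refine le_trans ?_ (card_shift_le (Tup s (P / p + 1)) (ps k) c)
      let F : ((Fin k → ℤ) × (Fin k → ℤ)) × ((Fin s → ℤ) × (Fin s → ℤ)) →
          (Fin s → ℤ) × (Fin s → ℤ) := fun z =>
        (fun i => (z.2.1 i + r) / p, fun i => (z.2.2 i + r) / p)
      apply Finset.card_le_card_of_injOn F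
      · intro z hz
        rw [Finset.mem_coe] at hz
        obtain ⟨hz0, hzq⟩ := Finset.mem_filter.mp hz
        obtain ⟨hz1, hz2, hz3, hz4⟩ := Finset.mem_filter.mp hz0
        have hz5 := Finset.mem_product.mp (Finset.mem_product.mp hz1).2
        have hrange : ∀ w : Fin s → ℤ, w ∈ Tup s P → (∀ i, (p : ℤ) ∣ w i + r) →
            (fun i => (w i + (r : ℤ)) / p) ∈ Tup s (P / p + 1) := by
          intro w hw hwd
          rw [mem_Tup] at hw ⊢
          intro i
          obtain ⟨m, hm⟩ := hwd i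
          have hm' : (w i + (r : ℤ)) / p = m := by
            rw [hm, Int.mul_ediv_cancel_left _ hp0.ne']
          show 1 ≤ (w i + (r : ℤ)) / p ∧ (w i + (r : ℤ)) / p ≤ ((P / p + 1 : ℕ) : ℤ)
          rw [hm']
          have hr0 : (0 : ℤ) ≤ (r : ℤ) := by positivity
          have hr1 : (r : ℤ) < p := by exact_mod_cast hr
          constructor
          · have : 0 < (p : ℤ) * m := by rw [← hm]; linarith [(hw i).1]
            have := (mul_pos_iff_of_pos_left hp0).mp this
            omega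
          · have h8 : (p : ℤ) * m < p + P := by rw [← hm]; linarith [(hw i).2]
            have h9 : (p : ℤ) * (m - 1) < P := by linarith
            have h9' : (m - 1) ≤ (P : ℤ) / p := by
              rw [Int.le_ediv_iff_mul_le hp0]
              linarith
            push_cast
            linarith
        rw [Finset.mem_coe, Finset.mem_filter, Finset.mem_product]
        refine ⟨⟨hrange _ hz5.1 hz3.1, hrange _ hz5.2 hz3.2⟩, ?_⟩
        funext j
        rw [Pi.add_apply]
        have hpj : (0 : ℤ) < (p : ℤ) ^ (j.val + 1) := by positivity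
        apply mul_left_cancel₀ hpj.ne'
        rw [mul_add, hc j]
        have h10 : ∀ w : Fin s → ℤ, (∀ i, (p : ℤ) ∣ w i + r) →
            (p : ℤ) ^ (j.val + 1) * ps k (fun i => (w i + (r : ℤ)) / p) j =
              ∑ i, (w i + (r : ℤ)) ^ (j.val + 1) := by
          intro w hwd
          simp only [ps]
          rw [Finset.mul_sum]
          apply Finset.sum_congr rfl
          intro i _
          rw [← mul_pow, Int.mul_ediv_cancel' (hwd i)]
        show (p : ℤ) ^ (j.val + 1) * ps k (fun i => (z.2.1 i + (r : ℤ)) / p) j =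
          (p : ℤ) ^ (j.val + 1) * ps k (fun i => (z.2.2 i + (r : ℤ)) / p) j + _
        rw [h10 _ hz3.1, h10 _ hz3.2]
        have h11 := translate _ _ _ _ (r : ℤ) hz4 (j.val + 1)
          (Finset.mem_Icc.mpr ⟨by omega, by omega⟩)
        rw [hzq] at h11
        linarith
      · intro z hz w hw hzw
        rw [Finset.mem_coe] at hz hw
        obtain ⟨hz0, hzq⟩ := Finset.mem_filter.mp hz
        obtain ⟨hz1, hz2, hz3, hz4⟩ := Finset.mem_filter.mp hz0
        obtain ⟨hw0, hwq⟩ := Finset.mem_filter.mp hw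
        obtain ⟨hw1, hw2, hw3, hw4⟩ := Finset.mem_filter.mp hw0
        have h12 : ∀ a b : Fin s → ℤ, (∀ i, (p : ℤ) ∣ a i + r) → (∀ i, (p : ℤ) ∣ b i + r) →
            (fun i => (a i + (r : ℤ)) / p) = (fun i => (b i + (r : ℤ)) / p) → a = b := by
          intro a b ha hb hab
          funext i
          have h13 : (a i + (r : ℤ)) / p = (b i + (r : ℤ)) / p := congrFun hab i
          have h14 : a i + (r : ℤ) = b i + r := by
            rw [← Int.mul_ediv_cancel' (ha i), ← Int.mul_ediv_cancel' (hb i), h13]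
          linarith
        apply Prod.ext
        · rw [hzq, hwq]
        · apply Prod.ext
          · exact h12 _ _ hz3.1 hw3.1 (congrArg Prod.fst hzw)
          · exact h12 _ _ hz3.2 hw3.2 (congrArg Prod.snd hzw)
  calc RA k s P p r ≤ J k s (P / p + 1) * XY.card := hmain
    _ ≤ J k s (P / p + 1) * (k.factorial * p ^ (k * (k - 1) / 2) * P ^ k) :=
        Nat.mul_le_mul_left _ hXY
    _ = _ := by ring

/-- the generic count. -/
def Cnt (k s : ℕ) (D : Finset (Fin k → ℤ)) (A : Finset ℤ) : ℕ :=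
  (((D ×ˢ Fintype.piFinset fun _ : Fin s => A) ×ˢ (D ×ˢ Fintype.piFinset fun _ : Fin s => A)).filter
    fun q => ps k q.1.1 + ps k q.1.2 = ps k q.2.1 + ps k q.2.2).card

/-- the vector of powers. -/
def pw (k : ℕ) (n : ℤ) : Fin k → ℤ := fun j => n ^ (j.val + 1)

theorem ps_eq_sum (k : ℕ) {s : ℕ} (x : Fin s → ℤ) : ps k x = ∑ i, pw k (x i) := by
  funext j
  rw [Finset.sum_apply]
  rfl

theorem sum_tup (k s M : ℕ) [NeZero M] (A : Finset ℤ) (α : Fin k → ZMod M) :
    ∑ u ∈ Fintype.piFinset (fun _ : Fin s => A), ch α (ps k u) =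
      (∑ n ∈ A, ch α (pw k n)) ^ s := by
  have h1 : ∀ u : Fin s → ℤ, ch α (ps k u) = ∏ i, ch α (pw k (u i)) := by
    intro u
    rw [ps_eq_sum, ch_sum]
  simp_rw [h1]
  rw [← Finset.prod_univ_sum (t := fun _ : Fin s => A) (f := fun _ n => ch α (pw k n))]
  rw [Finset.prod_const, Finset.card_univ, Fintype.card_fin]

theorem cnt_eq (k s M : ℕ) [NeZero M] (D : Finset (Fin k → ℤ)) (A : Finset ℤ)
    (hM : ∀ z ∈ D ×ˢ (Fintype.piFinset fun _ : Fin s => A),
      ∀ w ∈ D ×ˢ (Fintype.piFinset fun _ : Fin s => A), ∀ j,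
      |(ps k z.1 + ps k z.2) j - (ps k w.1 + ps k w.2) j| < M) :
    ∑ α : Fin k → ZMod M, ‖∑ x ∈ D, ch α (ps k x)‖ ^ 2 * ‖∑ n ∈ A, ch α (pw k n)‖ ^ (2 * s) =
      (M : ℝ) ^ k * (Cnt k s D A : ℝ) := by
  have h := sum_normSq (M := M) (D ×ˢ (Fintype.piFinset fun _ : Fin s => A))
    (fun z => ps k z.1 + ps k z.2) hM
  rw [Fintype.card_fin] at h
  unfold Cnt
  rw [← h]
  apply Finset.sum_congr rfl
  intro α _
  have h1 : ∑ z ∈ D ×ˢ (Fintype.piFinset fun _ : Fin s => A), ch α (ps k z.1 + ps k z.2) =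
      (∑ x ∈ D, ch α (ps k x)) * (∑ n ∈ A, ch α (pw k n)) ^ s := by
    rw [← sum_tup, Finset.sum_mul_sum, Finset.sum_product]
    apply Finset.sum_congr rfl
    intro x _
    apply Finset.sum_congr rfl
    intro u _
    rw [ch_add]
  rw [h1, norm_mul, norm_pow, mul_pow, ← pow_mul, mul_comm s 2]

theorem R_eq_cnt (k s P p : ℕ) : R k s P p =
    (by classical exact Cnt k s ((Tup k P).filter fun x => Dist p x) (Finset.Icc (1 : ℤ) P)) := by
  classical
  unfold R Cnt
  apply Finset.card_nbij' (fun z => ((z.1.1, z.2.1), (z.1.2, z.2.2)))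
    (fun z => ((z.1.1, z.2.1), (z.1.2, z.2.2)))
  · intro z hz
    simp only [Finset.coe_filter, Finset.mem_product, Set.mem_ofPred_eq, Finset.mem_filter] at hz ⊢
    refine ⟨⟨⟨⟨hz.1.1.1, hz.2.1⟩, hz.1.2.1⟩, ⟨⟨hz.1.1.2, hz.2.2.1⟩, hz.1.2.2⟩⟩, ?_⟩
    funext j
    exact hz.2.2.2 (j.val + 1) (Finset.mem_Icc.mpr ⟨by omega, by omega⟩)
  · intro z hz
    simp only [Finset.coe_filter, Finset.mem_product, Set.mem_ofPred_eq, Finset.mem_filter] at hz ⊢
    refine ⟨⟨⟨hz.1.1.1.1, hz.1.2.1.1⟩, ⟨hz.1.1.2, hz.1.2.2⟩⟩, hz.1.1.1.2, hz.1.2.1.2, ?_⟩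
    intro j hj
    rw [Finset.mem_Icc] at hj
    have := congrFun hz.2 ⟨j - 1, by omega⟩
    simp only [ps, Pi.add_apply] at this
    rwa [show j - 1 + 1 = j by omega] at this
  · intro z _; rfl
  · intro z _; rfl

theorem RA_eq_cnt (k s P p r : ℕ) : RA k s P p r =
    (by classical exact (Cnt k s ((Tup k P).filter fun x => Dist p x)
      ((Finset.Icc (1 : ℤ) P).filter fun n => (p : ℤ) ∣ n + r))) := by
  classical
  unfold RA Cnt
  have hpi : ∀ u : Fin s → ℤ, (u ∈ Fintype.piFinset fun _ : Fin s =>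
      ((Finset.Icc (1 : ℤ) P).filter fun n => (p : ℤ) ∣ n + r)) ↔
      (u ∈ Tup s P ∧ ∀ i, (p : ℤ) ∣ u i + r) := by
    intro u
    unfold Tup
    rw [Fintype.mem_piFinset, Fintype.mem_piFinset]
    simp only [Finset.mem_filter]
    exact forall_and
  apply Finset.card_nbij' (fun z => ((z.1.1, z.2.1), (z.1.2, z.2.2)))
    (fun z => ((z.1.1, z.2.1), (z.1.2, z.2.2)))
  · intro z hz
    simp only [Finset.coe_filter, Finset.mem_product, Set.mem_ofPred_eq, Finset.mem_filter, hpi]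
      at hz ⊢
    refine ⟨⟨⟨⟨hz.1.1.1, hz.2.1.1⟩, hz.1.2.1, hz.2.2.1.1⟩,
      ⟨⟨hz.1.1.2, hz.2.1.2⟩, hz.1.2.2, hz.2.2.1.2⟩⟩, ?_⟩
    funext j
    exact hz.2.2.2 (j.val + 1) (Finset.mem_Icc.mpr ⟨by omega, by omega⟩)
  · intro z hz
    simp only [Finset.coe_filter, Finset.mem_product, Set.mem_ofPred_eq, Finset.mem_filter, hpi]
      at hz ⊢
    refine ⟨⟨⟨hz.1.1.1.1, hz.1.2.1.1⟩, ⟨hz.1.1.2.1, hz.1.2.2.1⟩⟩, ⟨hz.1.1.1.2, hz.1.2.1.2⟩,
      ⟨hz.1.1.2.2, hz.1.2.2.2⟩, ?_⟩
    intro j hj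
    rw [Finset.mem_Icc] at hj
    have := congrFun hz.2 ⟨j - 1, by omega⟩
    simp only [ps, Pi.add_apply] at this
    rwa [show j - 1 + 1 = j by omega] at this
  · intro z _; rfl
  · intro z _; rfl

theorem exists_bound {A : Type} (Z : Finset A) {k : ℕ} (φ : A → Fin k → ℤ) :
    ∃ M : ℕ, 1 ≤ M ∧ ∀ z ∈ Z, ∀ w ∈ Z, ∀ j, |φ z j - φ w j| < M := by
  refine ⟨1 + ∑ z ∈ Z, ∑ w ∈ Z, ∑ j, (φ z j - φ w j).natAbs, by omega, ?_⟩
  intro z hz w hw j
  have h1 : (φ z j - φ w j).natAbs ≤ ∑ j, (φ z j - φ w j).natAbs :=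
    Finset.single_le_sum (f := fun j => (φ z j - φ w j).natAbs) (fun _ _ => Nat.zero_le _)
      (Finset.mem_univ j)
  have h2 : ∑ j, (φ z j - φ w j).natAbs ≤ ∑ w ∈ Z, ∑ j, (φ z j - φ w j).natAbs :=
    Finset.single_le_sum (f := fun w => ∑ j, (φ z j - φ w j).natAbs) (fun _ _ => Nat.zero_le _) hw
  have h3 : ∑ w ∈ Z, ∑ j, (φ z j - φ w j).natAbs ≤
      ∑ z ∈ Z, ∑ w ∈ Z, ∑ j, (φ z j - φ w j).natAbs :=
    Finset.single_le_sum (f := fun z => ∑ w ∈ Z, ∑ j, (φ z j - φ w j).natAbs)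
      (fun _ _ => Nat.zero_le _) hz
  have h4 : (φ z j - φ w j).natAbs < 1 + ∑ z ∈ Z, ∑ w ∈ Z, ∑ j, (φ z j - φ w j).natAbs := by
    omega
  rw [Int.abs_eq_natAbs]
  exact_mod_cast h4

theorem wellCond (h1 : Linnik) : WellCond := by
  classical
  intro k s P p hp hk hP
  set B := k.factorial * p ^ (k * (k - 1) / 2) * P ^ k * J k s (P / p + 1) with hB
  rcases Nat.eq_zero_or_pos s with hs | hs
  · subst hs
    have h2 : R k 0 P p ≤ RA k 0 P p 0 := by
      unfold R RA
      apply Finset.card_le_card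
      intro z hz
      rw [Finset.mem_filter] at hz ⊢
      exact ⟨hz.1, ⟨hz.2.1, hz.2.2.1⟩, ⟨fun i => i.elim0, fun i => i.elim0⟩, hz.2.2.2⟩
    calc R k 0 P p ≤ RA k 0 P p 0 := h2
      _ ≤ B := RA_le h1 k 0 P p hp hk hP 0 hp.pos
      _ = _ := by rw [hB]; simp
  · set D := (Tup k P).filter fun x => Dist p x with hD
    obtain ⟨M, hM1, hM⟩ := exists_bound (D ×ˢ (Fintype.piFinset fun _ : Fin s => Finset.Icc (1 : ℤ) P))
      (fun z => ps k z.1 + ps k z.2)
    have : NeZero M := ⟨by omega⟩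
    have hR := cnt_eq k s M D (Finset.Icc (1 : ℤ) P) hM
    have hRA : ∀ r : ℕ, ∑ α : Fin k → ZMod M, ‖∑ x ∈ D, ch α (ps k x)‖ ^ 2 *
        ‖∑ n ∈ (Finset.Icc (1 : ℤ) P).filter (fun n => (p : ℤ) ∣ n + r), ch α (pw k n)‖ ^ (2 * s) =
        (M : ℝ) ^ k * (RA k s P p r : ℝ) := by
      intro r
      rw [RA_eq_cnt]
      apply cnt_eq
      intro z hz w hw j
      have hsub : ∀ q : (Fin k → ℤ) × (Fin s → ℤ), q ∈ D ×ˢ (Fintype.piFinset fun _ : Fin s =>
          (Finset.Icc (1 : ℤ) P).filter (fun n => (p : ℤ) ∣ n + r)) →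
          q ∈ D ×ˢ (Fintype.piFinset fun _ : Fin s => Finset.Icc (1 : ℤ) P) := by
        intro q hq
        rw [Finset.mem_product] at hq ⊢
        refine ⟨hq.1, ?_⟩
        rw [Fintype.mem_piFinset] at *
        exact fun i => (Finset.mem_filter.mp (hq.2 i)).1
      exact hM z (hsub z hz) w (hsub w hw) j
    have hsplit : ∀ α : Fin k → ZMod M, ∑ n ∈ Finset.Icc (1 : ℤ) P, ch α (pw k n) =
        ∑ r ∈ Finset.range p, ∑ n ∈ (Finset.Icc (1 : ℤ) P).filter (fun n => (p : ℤ) ∣ n + r),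
          ch α (pw k n) := by
      intro α
      have hp0 : (0 : ℤ) < (p : ℤ) := by exact_mod_cast hp.pos
      have hmaps : ∀ n ∈ Finset.Icc (1 : ℤ) P, ((-n) % (p : ℤ)).toNat ∈ Finset.range p := by
        intro n _
        rw [Finset.mem_range]
        have h3 := Int.emod_lt_of_pos (-n) hp0
        have h4 := Int.emod_nonneg (-n) hp0.ne'
        omega
      rw [← Finset.sum_fiberwise_of_maps_to hmaps]
      apply Finset.sum_congr rfl
      intro r hr
      rw [Finset.mem_range] at hr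
      apply Finset.sum_congr ?_ (fun _ _ => rfl)
      apply Finset.filter_congr
      intro n _
      have h3 := Int.emod_lt_of_pos (-n) hp0
      have h4 := Int.emod_nonneg (-n) hp0.ne'
      constructor
      · intro h5
        have h6 : (-n) % (p : ℤ) = r := by omega
        have h7 := Int.emod_add_mul_ediv (-n) (p : ℤ)
        exact ⟨-((-n) / (p : ℤ)), by rw [← h6]; linarith⟩
      · rintro ⟨m, hm⟩
        have h6 : (-n) % (p : ℤ) = r := by
          have h7 : -n = r + (p : ℤ) * (-m) := by linarith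
          rw [h7, Int.add_mul_emod_self_left]
          exact Int.emod_eq_of_lt (by positivity) (by exact_mod_cast hr)
        rw [h6]; simp
    have hpow : ∀ α : Fin k → ZMod M, ‖∑ n ∈ Finset.Icc (1 : ℤ) P, ch α (pw k n)‖ ^ (2 * s) ≤
        (p : ℝ) ^ (2 * s - 1) * ∑ r ∈ Finset.range p,
          ‖∑ n ∈ (Finset.Icc (1 : ℤ) P).filter (fun n => (p : ℤ) ∣ n + r), ch α (pw k n)‖ ^ (2 * s) := by
      intro α
      rw [hsplit]
      have h3 := pow_sum_div_card_le_sum_pow (s := Finset.range p)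
        (f := fun r => ‖∑ n ∈ (Finset.Icc (1 : ℤ) P).filter (fun n => (p : ℤ) ∣ n + r), ch α (pw k n)‖)
        (n := 2 * s - 1) (fun _ _ => norm_nonneg _)
      rw [Finset.card_range, show 2 * s - 1 + 1 = 2 * s by omega, div_le_iff₀ (by
        have : (0 : ℝ) < p := by exact_mod_cast hp.pos
        positivity)] at h3
      calc _ ≤ (∑ r ∈ Finset.range p,
          ‖∑ n ∈ (Finset.Icc (1 : ℤ) P).filter (fun n => (p : ℤ) ∣ n + r), ch α (pw k n)‖) ^ (2 * s) := by
            gcongr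
            exact norm_sum_le _ _
        _ ≤ _ := h3.trans_eq (mul_comm _ _)
    have hfin : (M : ℝ) ^ k * (R k s P p : ℝ) ≤ (M : ℝ) ^ k * ((p : ℝ) ^ (2 * s) * (B : ℝ)) := by
      have h4 : (R k s P p : ℝ) = (Cnt k s D (Finset.Icc (1 : ℤ) P) : ℝ) := by
        rw [R_eq_cnt]
      rw [h4, ← hR]
      calc ∑ α : Fin k → ZMod M, ‖∑ x ∈ D, ch α (ps k x)‖ ^ 2 *
            ‖∑ n ∈ Finset.Icc (1 : ℤ) P, ch α (pw k n)‖ ^ (2 * s)
          ≤ ∑ α : Fin k → ZMod M, ‖∑ x ∈ D, ch α (ps k x)‖ ^ 2 * ((p : ℝ) ^ (2 * s - 1) *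
            ∑ r ∈ Finset.range p, ‖∑ n ∈ (Finset.Icc (1 : ℤ) P).filter
              (fun n => (p : ℤ) ∣ n + r), ch α (pw k n)‖ ^ (2 * s)) := by
            apply Finset.sum_le_sum
            intro α _
            exact mul_le_mul_of_nonneg_left (hpow α) (by positivity)
        _ = (p : ℝ) ^ (2 * s - 1) * ∑ r ∈ Finset.range p, ∑ α : Fin k → ZMod M,
              ‖∑ x ∈ D, ch α (ps k x)‖ ^ 2 * ‖∑ n ∈ (Finset.Icc (1 : ℤ) P).filter
              (fun n => (p : ℤ) ∣ n + r), ch α (pw k n)‖ ^ (2 * s) := by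
            rw [Finset.sum_comm, Finset.mul_sum]
            apply Finset.sum_congr rfl
            intro α _
            rw [Finset.mul_sum, Finset.mul_sum, Finset.mul_sum]
            apply Finset.sum_congr rfl
            intro r _
            ring
        _ = (p : ℝ) ^ (2 * s - 1) * ∑ r ∈ Finset.range p, (M : ℝ) ^ k * (RA k s P p r : ℝ) := by
            congr 1
            exact Finset.sum_congr rfl fun r _ => hRA r
        _ ≤ (p : ℝ) ^ (2 * s - 1) * ∑ r ∈ Finset.range p, (M : ℝ) ^ k * (B : ℝ) := by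
            gcongr with r hr
            exact_mod_cast RA_le h1 k s P p hp hk hP r (Finset.mem_range.mp hr)
        _ = (M : ℝ) ^ k * ((p : ℝ) ^ (2 * s) * (B : ℝ)) := by
            rw [Finset.sum_const, Finset.card_range, nsmul_eq_mul]
            have h5 : (p : ℝ) ^ (2 * s) = (p : ℝ) ^ (2 * s - 1) * p := by
              rw [← pow_succ]; congr 1; omega
            rw [h5]; ring
    have hMpos : (0 : ℝ) < (M : ℝ) ^ k := by positivity
    have h6 : (R k s P p : ℝ) ≤ ((p ^ (2 * s) * B : ℕ) : ℝ) := by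
      push_cast
      exact le_of_mul_le_mul_left hfin hMpos
    have h7 : R k s P p ≤ p ^ (2 * s) * B := by exact_mod_cast h6
    calc R k s P p ≤ p ^ (2 * s) * B := h7
      _ = _ := by rw [hB, pow_add]; ring

end

end Pool.Agent.VMV
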