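import Mathlib
import Pool.Agent.Lib.VMV.Defs

/-! # Row V3: the recurrence for `J` from the well conditioned count.  helper72. -/

set_option autoImplicit false

namespace Pool.Agent.VMV

open Finset

noncomputable section

/-! ## primes above `Q` -/

theorem V3_primes (Q : ℕ) (hQ : 1 ≤ Q) : ∀ n : ℕ, ∃ T : Finset ℕ, T.card = n ∧
    ∀ p ∈ T, p.Prime ∧ Q < p ∧ p ≤ 2 ^ n * Q := by
  intro n
  induction n with
  | zero => exact ⟨∅, rfl, by simp⟩
  | succ n ih =>
    obtain ⟨T, hT, h⟩ := ih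
    obtain ⟨p, hp, hlt, hle⟩ := Nat.exists_prime_lt_and_le_two_mul (2 ^ n * Q) (by positivity)
    refine ⟨insert p T, ?_, ?_⟩
    · rw [Finset.card_insert_of_notMem, hT]
      intro hmem
      have := (h p hmem).2.2
      omega
    · intro q hq
      rcases Finset.mem_insert.1 hq with rfl | hq
      · refine ⟨hp, ?_, ?_⟩
        · have : Q ≤ 2 ^ n * Q := Nat.le_mul_of_pos_left _ (by positivity)
          omega
        · rw [pow_succ]; linarith
      · obtain ⟨h1, h2, h3⟩ := h q hq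
        refine ⟨h1, h2, ?_⟩
        rw [pow_succ]
        nlinarith

/-- the Vandermonde product -/
def vdm {k : ℕ} (x : Fin k → ℤ) : ℤ := ∏ i : Fin k, ∏ j ∈ Finset.Ioi i, (x j - x i)

theorem vdm_ne {k : ℕ} {x : Fin k → ℤ} (h : ∀ i j, i ≠ j → x i ≠ x j) : vdm x ≠ 0 := by
  unfold vdm
  refine Finset.prod_ne_zero_iff.2 fun i _ => Finset.prod_ne_zero_iff.2 fun j hj => ?_
  have : i < j := Finset.mem_Ioi.1 hj
  exact sub_ne_zero.2 (h j i (ne_of_gt this))

theorem sum_card_Ioi (k : ℕ) : 2 * ∑ i : Fin k, (Finset.Ioi i).card = k * (k - 1) := by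
  have h : ∑ i : Fin k, (Finset.Ioi i).card = ∑ i ∈ Finset.range k, (k - 1 - i) := by
    rw [← Fin.sum_univ_eq_sum_range (fun i => k - 1 - i)]
    refine Finset.sum_congr rfl fun i _ => ?_
    rw [Fin.card_Ioi]
  rw [h, Finset.sum_range_reflect (fun i => i) k, mul_comm, Finset.sum_range_id_mul_two]

theorem vdm_le {k P : ℕ} {x : Fin k → ℤ} (h : ∀ i, x i ∈ Finset.Icc (1 : ℤ) P) :
    |vdm x| ≤ (P : ℤ) ^ (∑ i : Fin k, (Finset.Ioi i).card) := by
  unfold vdm
  rw [Finset.abs_prod, ← Finset.prod_pow_eq_pow_sum]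
  refine Finset.prod_le_prod (fun _ _ => abs_nonneg _) fun i _ => ?_
  rw [Finset.abs_prod, ← Finset.prod_const]
  refine Finset.prod_le_prod (fun _ _ => abs_nonneg _) fun j _ => ?_
  have h1 := Finset.mem_Icc.1 (h i)
  have h2 := Finset.mem_Icc.1 (h j)
  rw [abs_le]
  constructor <;> linarith [h1.1, h1.2, h2.1, h2.2]

theorem dvd_vdm_of_not_dist {k p : ℕ} {x : Fin k → ℤ} (h : ¬ Dist p x) : (p : ℤ) ∣ vdm x := by
  unfold Dist at h
  push Not at h
  obtain ⟨i, j, hij, hd⟩ := h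
  unfold vdm
  rcases lt_or_gt_of_ne hij with hlt | hlt
  · refine dvd_trans ?_ (Finset.dvd_prod_of_mem _ (Finset.mem_univ i))
    refine dvd_trans ?_ (Finset.dvd_prod_of_mem _ (Finset.mem_Ioi.2 hlt))
    rw [← neg_sub]; exact (dvd_neg.2 hd)
  · refine dvd_trans ?_ (Finset.dvd_prod_of_mem _ (Finset.mem_univ j))
    exact dvd_trans hd (Finset.dvd_prod_of_mem (fun l => x l - x j) (Finset.mem_Ioi.2 hlt))

/-- one of the primes separates both tuples -/
theorem exists_prime_dist {k P Q : ℕ} (hk : 2 ≤ k) (hQ : k ≤ Q) (hP : P ≤ Q ^ k) {T : Finset ℕ}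
    (hT : T.card = k ^ 3) (hTp : ∀ p ∈ T, p.Prime ∧ Q < p) {x y : Fin k → ℤ}
    (hx : ∀ i, x i ∈ Finset.Icc (1 : ℤ) P) (hy : ∀ i, y i ∈ Finset.Icc (1 : ℤ) P)
    (hx' : ∀ i j, i ≠ j → x i ≠ x j) (hy' : ∀ i j, i ≠ j → y i ≠ y j) :
    ∃ p ∈ T, Dist p x ∧ Dist p y := by
  by_contra hcon
  push Not at hcon
  have hdvd : ∀ p ∈ T, p ∣ (vdm x * vdm y).natAbs := by
    intro p hp
    rw [← Int.natCast_dvd_natCast, Int.dvd_natAbs]
    by_cases h : Dist p x
    · exact Dvd.dvd.mul_left (dvd_vdm_of_not_dist (hcon p hp h)) _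
    · exact Dvd.dvd.mul_right (dvd_vdm_of_not_dist h) _
  have hprod : ∏ p ∈ T, p ∣ (vdm x * vdm y).natAbs :=
    Finset.prod_primes_dvd _ (fun p hp => (hTp p hp).1.prime) hdvd
  have hne : (vdm x * vdm y).natAbs ≠ 0 := Int.natAbs_ne_zero.2 (mul_ne_zero (vdm_ne hx') (vdm_ne hy'))
  have hle := Nat.le_of_dvd (Nat.pos_of_ne_zero hne) hprod
  have h1 : (Q + 1) ^ (k ^ 3) ≤ ∏ p ∈ T, p := by
    rw [← hT, ← Finset.prod_const]
    exact Finset.prod_le_prod' fun p hp => (hTp p hp).2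
  have h2 : ((vdm x * vdm y).natAbs : ℤ) ≤ (P : ℤ) ^ (k * (k - 1)) := by
    rw [Int.natCast_natAbs, abs_mul, ← sum_card_Ioi, two_mul, pow_add]
    exact mul_le_mul (vdm_le hx) (vdm_le hy) (abs_nonneg _) (by positivity)
  have h3 : (vdm x * vdm y).natAbs ≤ P ^ (k * (k - 1)) := by exact_mod_cast h2
  have h4 : P ^ (k * (k - 1)) ≤ Q ^ (k ^ 3) := by
    calc P ^ (k * (k - 1)) ≤ (Q ^ k) ^ (k * (k - 1)) := Nat.pow_le_pow_left hP _
      _ = Q ^ (k * (k * (k - 1))) := by rw [← pow_mul]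
      _ ≤ Q ^ (k ^ 3) := by
        refine Nat.pow_le_pow_right (by omega) ?_
        rw [pow_succ, pow_two, mul_assoc]
        exact Nat.mul_le_mul_left _ (Nat.mul_le_mul_left _ (Nat.sub_le _ _))
  have h5 : Q ^ (k ^ 3) < (Q + 1) ^ (k ^ 3) := Nat.pow_lt_pow_left (by omega) (by positivity)
  omega


/-! ## discrete Fourier analysis -/

theorem ach_sum {A ι : Type*} [AddCommMonoid A] (ψ : AddChar A ℂ) (s : Finset ι) (f : ι → A) :
    ψ (∑ i ∈ s, f i) = ∏ i ∈ s, ψ (f i) := by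
  classical
  induction s using Finset.induction_on with
  | empty => simp
  | insert a s ha ih => rw [Finset.sum_insert ha, Finset.prod_insert ha, AddChar.map_add_eq_mul, ih]

/-- `e_M(α · φ(n))` -/
def ch3 (M k : ℕ) [NeZero M] (α : Fin k → ZMod M) (n : ℤ) : ℂ :=
  ZMod.stdAddChar (∑ j : Fin k, α j * ((n : ZMod M) ^ ((j : ℕ) + 1)))

/-- the exponential sum -/
def ff (M k P : ℕ) [NeZero M] (α : Fin k → ZMod M) : ℂ := ∑ n ∈ Finset.Icc (1 : ℤ) P, ch3 M k α n

theorem ortho3 (M k : ℕ) [NeZero M] (v : Fin k → ZMod M) :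
    ∑ α : Fin k → ZMod M, (ZMod.stdAddChar (∑ j, α j * v j) : ℂ) =
      if v = 0 then (M : ℂ) ^ k else 0 := by
  have h1 : ∀ α : Fin k → ZMod M, (ZMod.stdAddChar (∑ j, α j * v j) : ℂ) =
      ∏ j, (ZMod.stdAddChar (α j * v j) : ℂ) := by
    intro α; exact ach_sum _ _ _
  simp_rw [h1]
  rw [← Fintype.prod_sum fun (j : Fin k) (a : ZMod M) => (ZMod.stdAddChar (a * v j) : ℂ)]
  have h2 : ∀ j, ∑ a : ZMod M, (ZMod.stdAddChar (a * v j) : ℂ) = if v j = 0 then (M : ℂ) else 0 := by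
    intro j
    rw [AddChar.sum_mulShift _ (ZMod.isPrimitive_stdAddChar M), ZMod.card]
    split_ifs <;> simp
  simp_rw [h2]
  by_cases hv : v = 0
  · simp [hv]
  · rw [if_neg hv]
    obtain ⟨j, hj⟩ := Function.ne_iff.1 hv
    exact Finset.prod_eq_zero (Finset.mem_univ j) (if_neg hj)

theorem prod_ch {M k S : ℕ} [NeZero M] (α : Fin k → ZMod M) (x : Fin S → ℤ) :
    ∏ i, ch3 M k α (x i) =
      (ZMod.stdAddChar (∑ j : Fin k, α j * ((∑ i, x i ^ ((j : ℕ) + 1) : ℤ) : ZMod M)) : ℂ) := by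
  unfold ch3
  rw [← ach_sum]
  congr 1
  rw [Finset.sum_comm]
  refine Finset.sum_congr rfl fun j _ => ?_
  push_cast
  rw [Finset.mul_sum]

/-- counting solutions by characters -/
theorem count_ch {M k S P : ℕ} [NeZero M] (hM : S * P ^ k < M) (A B : Finset (Fin S → ℤ))
    (hA : A ⊆ Tup S P) (hB : B ⊆ Tup S P) [DecidablePred fun z : (Fin S → ℤ) × (Fin S → ℤ) => Sys k z.1 z.2] :
    ∑ α : Fin k → ZMod M, (∑ x ∈ A, ∏ i, ch3 M k α (x i)) *
        (starRingEnd ℂ) (∑ y ∈ B, ∏ i, ch3 M k α (y i)) =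
      (M : ℂ) ^ k * (((A ×ˢ B).filter fun z => Sys k z.1 z.2).card : ℂ) := by
  have h1 : ∀ α : Fin k → ZMod M, (∑ x ∈ A, ∏ i, ch3 M k α (x i)) *
        (starRingEnd ℂ) (∑ y ∈ B, ∏ i, ch3 M k α (y i)) =
      ∑ z ∈ A ×ˢ B, (ZMod.stdAddChar (∑ j : Fin k, α j *
        ((((∑ i, z.1 i ^ ((j : ℕ) + 1) : ℤ) - (∑ i, z.2 i ^ ((j : ℕ) + 1) : ℤ) : ℤ)) : ZMod M)) : ℂ) := by
    intro α
    rw [map_sum, Finset.sum_mul_sum, Finset.sum_product]
    refine Finset.sum_congr rfl fun x _ => Finset.sum_congr rfl fun y _ => ?_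
    rw [prod_ch, prod_ch, ← AddChar.map_neg_eq_conj, ← AddChar.map_add_eq_mul]
    congr 1
    rw [← sub_eq_add_neg, ← Finset.sum_sub_distrib]
    refine Finset.sum_congr rfl fun j _ => ?_
    push_cast
    ring
  simp_rw [h1]
  rw [Finset.sum_comm]
  have h2 : ∀ z ∈ A ×ˢ B, ∑ α : Fin k → ZMod M, (ZMod.stdAddChar (∑ j : Fin k, α j *
        ((((∑ i, z.1 i ^ ((j : ℕ) + 1) : ℤ) - (∑ i, z.2 i ^ ((j : ℕ) + 1) : ℤ) : ℤ)) : ZMod M)) : ℂ) =
      if Sys k z.1 z.2 then (M : ℂ) ^ k else 0 := by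
    intro z hz
    have hz1 := hA (Finset.mem_product.1 hz).1
    have hz2 := hB (Finset.mem_product.1 hz).2
    rw [ortho3 M k fun j : Fin k =>
        ((((∑ i, z.1 i ^ ((j : ℕ) + 1) : ℤ) - (∑ i, z.2 i ^ ((j : ℕ) + 1) : ℤ) : ℤ)) : ZMod M)]
    refine if_congr ?_ rfl rfl
    have hbd : ∀ w : Fin S → ℤ, w ∈ Tup S P → ∀ j ∈ Finset.Icc 1 k,
        0 ≤ ∑ i, w i ^ j ∧ ∑ i, w i ^ j ≤ S * (P : ℤ) ^ k := by
      intro w hw j hj
      have hw' : ∀ i, 1 ≤ w i ∧ w i ≤ P := fun i => Finset.mem_Icc.1 (Fintype.mem_piFinset.1 hw i)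
      refine ⟨Finset.sum_nonneg fun i _ => pow_nonneg (by linarith [(hw' i).1]) _, ?_⟩
      have : ∑ i, w i ^ j ≤ ∑ _i : Fin S, (P : ℤ) ^ k := by
        refine Finset.sum_le_sum fun i _ => ?_
        have hP1 : (1 : ℤ) ≤ P := by linarith [(hw' i).1, (hw' i).2]
        calc w i ^ j ≤ (P : ℤ) ^ j := pow_le_pow_left₀ (by linarith [(hw' i).1]) (hw' i).2 _
          _ ≤ (P : ℤ) ^ k := pow_le_pow_right₀ hP1 (Finset.mem_Icc.1 hj).2
      simpa using this
    constructor
    · intro h j hj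
      have hj' := Finset.mem_Icc.1 hj
      have h3 := congrFun h ⟨j - 1, by omega⟩
      simp only [Pi.zero_apply, Nat.sub_add_cancel hj'.1] at h3
      rw [ZMod.intCast_zmod_eq_zero_iff_dvd] at h3
      have hb1 := hbd z.1 hz1 j hj
      have hb2 := hbd z.2 hz2 j hj
      have hMZ : (S : ℤ) * (P : ℤ) ^ k < M := by exact_mod_cast hM
      have : (∑ i, z.1 i ^ j - ∑ i, z.2 i ^ j : ℤ) = 0 := by
        refine Int.eq_zero_of_abs_lt_dvd h3 ?_
        rw [abs_lt]; constructor <;> linarith [hb1.1, hb1.2, hb2.1, hb2.2]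
      linarith
    · intro h
      funext j
      have := h ((j : ℕ) + 1) (Finset.mem_Icc.2 ⟨by omega, by omega⟩)
      simp [this]
  rw [Finset.sum_congr rfl h2, ← Finset.sum_filter, Finset.sum_const, nsmul_eq_mul, mul_comm]


theorem sum_two_mul {M k : ℕ} [NeZero M] (hM : Odd M) (g : (Fin k → ZMod M) → ℝ) :
    ∑ α : Fin k → ZMod M, g (fun j => 2 * α j) = ∑ α : Fin k → ZMod M, g α := by
  have h2 : IsUnit (2 : ZMod M) := by
    have : IsUnit ((2 : ℕ) : ZMod M) := by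
      rw [ZMod.isUnit_iff_coprime]
      exact (Nat.coprime_two_left).2 hM
    simpa using this
  have hinj : Function.Injective (fun (α : Fin k → ZMod M) => (fun j => 2 * α j : Fin k → ZMod M)) := by
    intro α β h
    funext j
    exact h2.mul_left_cancel (congrFun h j)
  exact Fintype.sum_bijective _ (Finite.injective_iff_bijective.1 hinj) _ _ fun α => rfl

theorem ch_two {M k : ℕ} [NeZero M] (α : Fin k → ZMod M) (n : ℤ) :
    ch3 M k (fun j => 2 * α j) n = ch3 M k α n ^ 2 := by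
  unfold ch3
  rw [pow_two, ← AddChar.map_add_eq_mul]
  congr 1
  rw [← Finset.sum_add_distrib]
  exact Finset.sum_congr rfl fun j _ => by ring

theorem sum_tup3 {M k S P : ℕ} [NeZero M] (α : Fin k → ZMod M) :
    ∑ x ∈ Tup S P, ∏ i, ch3 M k α (x i) = ff M k P α ^ S := by
  unfold Tup ff
  rw [← Finset.prod_univ_sum (fun _ : Fin S => Finset.Icc (1 : ℤ) P) (fun _ n => ch3 M k α n),
    Finset.prod_const, Finset.card_univ, Fintype.card_fin]

theorem sum_coin {M k S P : ℕ} [NeZero M] (α : Fin k → ZMod M) {a b : Fin S} (hab : a ≠ b) :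
    ∑ x ∈ (Tup S P).filter (fun x => x a = x b), ∏ i, ch3 M k α (x i) =
      ff M k P (fun j => 2 * α j) * ff M k P α ^ (S - 2) := by
  have hmaps : ∀ x ∈ (Tup S P).filter (fun x => x a = x b), x a ∈ Finset.Icc (1 : ℤ) P := by
    intro x hx
    have h1 : x ∈ Fintype.piFinset fun _ : Fin S => Finset.Icc (1 : ℤ) P := (Finset.mem_filter.1 hx).1
    exact Fintype.mem_piFinset.1 h1 a
  rw [← Finset.sum_fiberwise_of_maps_to hmaps]
  rw [show ff M k P (fun j => 2 * α j) = ∑ n ∈ Finset.Icc (1 : ℤ) P, ch3 M k α n ^ 2 from by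
    unfold ff; exact Finset.sum_congr rfl fun n _ => ch_two α n, Finset.sum_mul]
  refine Finset.sum_congr rfl fun u hu => ?_
  have hset : ((Tup S P).filter (fun x => x a = x b)).filter (fun x => x a = u) =
      Fintype.piFinset fun i : Fin S => if i = a ∨ i = b then ({u} : Finset ℤ) else Finset.Icc (1 : ℤ) P := by
    ext x
    simp only [Finset.mem_filter, Fintype.mem_piFinset, Tup]
    constructor
    · rintro ⟨⟨h1, h2⟩, h3⟩ i
      split_ifs with hi
      · rcases hi with rfl | rfl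
        · simpa using h3
        · rw [← h2]; simpa using h3
      · exact h1 i
    · intro h
      have ha := h a
      have hb := h b
      simp only [true_or, or_true, if_true, Finset.mem_singleton] at ha hb
      refine ⟨⟨fun i => ?_, by rw [ha, hb]⟩, ha⟩
      have hi := h i
      split_ifs at hi with hi'
      · rw [Finset.mem_singleton] at hi; rw [hi]; exact hu
      · exact hi
  rw [hset, ← Finset.prod_univ_sum (fun i : Fin S => if i = a ∨ i = b then ({u} : Finset ℤ)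
    else Finset.Icc (1 : ℤ) P) (fun _ n => ch3 M k α n)]
  have hterm : ∀ i : Fin S, ∑ n ∈ (if i = a ∨ i = b then ({u} : Finset ℤ) else Finset.Icc (1 : ℤ) P),
      ch3 M k α n = if i = a ∨ i = b then ch3 M k α u else ff M k P α := by
    intro i
    split_ifs
    · simp
    · rfl
  simp_rw [hterm]
  rw [Finset.prod_ite, Finset.prod_const, Finset.prod_const]
  have hc : (Finset.univ.filter fun i : Fin S => i = a ∨ i = b) = {a, b} := by
    ext i; simp
  have hc1 : (Finset.univ.filter fun i : Fin S => i = a ∨ i = b).card = 2 := by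
    rw [hc, Finset.card_pair hab]
  have hc2 : (Finset.univ.filter fun i : Fin S => ¬ (i = a ∨ i = b)).card = S - 2 := by
    have := Finset.card_filter_add_card_filter_not (s := (Finset.univ : Finset (Fin S))) (fun i : Fin S => i = a ∨ i = b)
    rw [hc1, Finset.card_univ, Fintype.card_fin] at this
    omega
  rw [hc1, hc2]

theorem amgm3 {S : ℕ} (hS : 1 ≤ S) {u v θ : ℝ} (hu : 0 ≤ u) (hv : 0 ≤ v) (hθ : 0 ≤ θ) :
    (2 * S : ℝ) * (θ * (u * v ^ (2 * S - 2))) ≤
      u ^ (2 * S) + (2 * S - 2 : ℝ) * v ^ (2 * S) + θ ^ (2 * S) := by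
  have hS' : (1 : ℝ) ≤ S := by exact_mod_cast hS
  have hpos : (0 : ℝ) < 2 * S := by linarith
  have h := Real.geom_mean_le_arith_mean3_weighted (w₁ := ((2 * S : ℕ) : ℝ)⁻¹)
    (w₂ := (2 * S - 2) * ((2 * S : ℕ) : ℝ)⁻¹) (w₃ := ((2 * S : ℕ) : ℝ)⁻¹)
    (p₁ := u ^ (2 * S)) (p₂ := v ^ (2 * S)) (p₃ := θ ^ (2 * S)) (by positivity)
    (mul_nonneg (by linarith) (by positivity)) (by positivity) (by positivity) (by positivity)
    (by positivity) (by push_cast; field_simp; ring)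
  have hne : (2 * S : ℕ) ≠ 0 := by omega
  rw [Real.pow_rpow_inv_natCast hu hne, Real.pow_rpow_inv_natCast hθ hne] at h
  have hv2 : (v ^ (2 * S)) ^ ((2 * S - 2 : ℝ) * ((2 * S : ℕ) : ℝ)⁻¹) = v ^ (2 * S - 2) := by
    rw [← Real.rpow_natCast v (2 * S), ← Real.rpow_mul hv, ← Real.rpow_natCast v (2 * S - 2)]
    congr 1
    rw [Nat.cast_sub (by omega)]
    push_cast
    field_simp
  rw [hv2] at h
  have h2 := mul_le_mul_of_nonneg_left h hpos.le
  push_cast at h2
  have h3 : (2 * S : ℝ) * ((2 * S : ℝ)⁻¹ * u ^ (2 * S) + (2 * S - 2) * (2 * S : ℝ)⁻¹ * v ^ (2 * S) +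
      (2 * S : ℝ)⁻¹ * θ ^ (2 * S)) = u ^ (2 * S) + (2 * S - 2 : ℝ) * v ^ (2 * S) + θ ^ (2 * S) := by
    field_simp
  rw [h3] at h2
  calc (2 * S : ℝ) * (θ * (u * v ^ (2 * S - 2))) = 2 * S * (u * v ^ (2 * S - 2) * θ) := by ring
    _ ≤ _ := h2

/-- diagonal solutions -/
theorem diag_le (k S P : ℕ) : P ^ S ≤ J k S P := by
  classical
  unfold J
  have h1 : P ^ S = ((Tup S P).image fun x => (x, x)).card := by
    rw [Finset.card_image_of_injective _ (fun x y h => (Prod.mk.inj h).1)]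
    simp [Tup, Fintype.card_piFinset]
  rw [h1]
  refine Finset.card_le_card ?_
  intro z hz
  obtain ⟨x, hx, rfl⟩ := Finset.mem_image.1 hz
  exact Finset.mem_filter.2 ⟨Finset.mem_product.2 ⟨hx, hx⟩, fun j _ => rfl⟩

/-- Hölder: solutions with a coincidence are rare. -/
theorem coincidence {k S P : ℕ} {a b : Fin S} (hab : a ≠ b) (hP : 4 * k ^ 4 < P) :
    2 * k ^ 2 * (by classical exact (((Tup S P ×ˢ Tup S P).filter fun z => Sys k z.1 z.2).filter
      fun z => z.1 a = z.1 b).card) ≤ J k S P := by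
  classical
  have hS : 2 ≤ S := by
    by_contra h
    have h1 : (a : ℕ) = 0 := by have := a.2; omega
    have h2 : (b : ℕ) = 0 := by have := b.2; omega
    exact hab (Fin.ext (by rw [h1, h2]))
  set M : ℕ := 2 * (S * P ^ k) + 1 with hMdef
  have : NeZero M := ⟨by omega⟩
  have hM : S * P ^ k < M := by omega
  have hodd : Odd M := ⟨S * P ^ k, rfl⟩
  have e1 := count_ch (k := k) hM ((Tup S P).filter fun x => x a = x b) (Tup S P)
    (Finset.filter_subset _ _) (Finset.Subset.refl _)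
  have e2 := count_ch (k := k) hM (Tup S P) (Tup S P) (Finset.Subset.refl _) (Finset.Subset.refl _)
  simp_rw [sum_coin _ hab, sum_tup3] at e1
  simp_rw [sum_tup3] at e2
  set N : ℕ := ((((Tup S P).filter fun x => x a = x b) ×ˢ Tup S P).filter fun z => Sys k z.1 z.2).card
    with hN
  have hNeq : (((Tup S P ×ˢ Tup S P).filter fun z => Sys k z.1 z.2).filter
      fun z => z.1 a = z.1 b).card = N := by
    rw [hN]
    congr 1
    ext z
    simp only [Finset.mem_filter, Finset.mem_product]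
    tauto
  have hJ : ((Tup S P ×ˢ Tup S P).filter fun z => Sys k z.1 z.2).card = J k S P := rfl
  rw [hJ] at e2
  set F : (Fin k → ZMod M) → ℝ := fun α => ‖ff M k P α‖ with hF
  have e2' : ∑ α, F α ^ (2 * S) = (M : ℝ) ^ k * J k S P := by
    have : ((∑ α, F α ^ (2 * S) : ℝ) : ℂ) = (((M : ℝ) ^ k * J k S P : ℝ) : ℂ) := by
      push_cast
      rw [← e2]
      refine Finset.sum_congr rfl fun α _ => ?_
      rw [Complex.mul_conj, Complex.normSq_eq_norm_sq, norm_pow, ← pow_mul, mul_comm S 2]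
      push_cast
      rfl
    exact_mod_cast this
  have e1' : (M : ℝ) ^ k * N ≤ ∑ α, F (fun j => 2 * α j) * F α ^ (2 * S - 2) := by
    have h0 : ((M : ℝ) ^ k * N) = ‖(M : ℂ) ^ k * (N : ℂ)‖ := by
      rw [norm_mul, norm_pow, Complex.norm_natCast, Complex.norm_natCast]
    rw [h0, ← e1]
    refine (norm_sum_le _ _).trans (Finset.sum_le_sum fun α _ => ?_)
    rw [norm_mul, norm_mul, RCLike.norm_conj, norm_pow, norm_pow, mul_assoc, ← pow_add]
    rw [show S - 2 + S = 2 * S - 2 by omega]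
  have hdiag : (P : ℝ) ^ S ≤ J k S P := by exact_mod_cast diag_le k S P
  have hθ : (Real.sqrt P) ^ (2 * S) = (P : ℝ) ^ S := by
    rw [pow_mul, Real.sq_sqrt (by positivity)]
  have hcard : (Fintype.card (Fin k → ZMod M) : ℝ) = (M : ℝ) ^ k := by
    rw [Fintype.card_fun, ZMod.card, Fintype.card_fin]; push_cast; rfl
  have hMk : (0 : ℝ) < (M : ℝ) ^ k := by
    have : (0 : ℝ) < M := by exact_mod_cast (by omega : 0 < M)
    positivity
  have hS' : (2 : ℝ) ≤ S := by exact_mod_cast hS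
  have hmain : (2 * S : ℝ) * (Real.sqrt P * ((M : ℝ) ^ k * N)) ≤ (2 * S) * ((M : ℝ) ^ k * J k S P) := by
    calc (2 * S : ℝ) * (Real.sqrt P * ((M : ℝ) ^ k * N))
        ≤ (2 * S) * (Real.sqrt P * ∑ α, F (fun j => 2 * α j) * F α ^ (2 * S - 2)) := by gcongr
      _ = ∑ α, (2 * S) * (Real.sqrt P * (F (fun j => 2 * α j) * F α ^ (2 * S - 2))) := by
          rw [Finset.mul_sum, Finset.mul_sum]
      _ ≤ ∑ α, (F (fun j => 2 * α j) ^ (2 * S) + (2 * S - 2) * F α ^ (2 * S) +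
            Real.sqrt P ^ (2 * S)) :=
          Finset.sum_le_sum fun α _ => amgm3 (by omega) (norm_nonneg _) (norm_nonneg _)
            (Real.sqrt_nonneg _)
      _ = (M : ℝ) ^ k * J k S P + (2 * S - 2) * ((M : ℝ) ^ k * J k S P) + (M : ℝ) ^ k * (P : ℝ) ^ S := by
          rw [Finset.sum_add_distrib, Finset.sum_add_distrib, ← Finset.mul_sum, e2',
            sum_two_mul hodd (fun α => F α ^ (2 * S)), e2', Finset.sum_const, Finset.card_univ,
            nsmul_eq_mul, hcard, hθ]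
      _ ≤ (M : ℝ) ^ k * J k S P + (2 * S - 2) * ((M : ℝ) ^ k * J k S P) +
            (M : ℝ) ^ k * J k S P := by gcongr
      _ = _ := by ring
  have hfin : Real.sqrt P * N ≤ J k S P := by
    have h3 := le_of_mul_le_mul_left hmain (by linarith)
    have h4 : (M : ℝ) ^ k * (Real.sqrt P * N) ≤ (M : ℝ) ^ k * J k S P := by linarith
    exact le_of_mul_le_mul_left h4 hMk
  have hsq : (2 * k ^ 2 : ℝ) ≤ Real.sqrt P := by
    refine Real.le_sqrt_of_sq_le ?_
    have : (4 * k ^ 4 : ℝ) ≤ P := by exact_mod_cast hP.le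
    linarith [this]
  rw [hNeq]
  have : ((2 * k ^ 2 * N : ℕ) : ℝ) ≤ (J k S P : ℝ) := by
    push_cast
    exact (mul_le_mul_of_nonneg_right hsq (Nat.cast_nonneg _)).trans hfin
  exact_mod_cast this


theorem tup_mono {s P P' : ℕ} (h : P ≤ P') : Tup s P ⊆ Tup s P' := by
  intro x hx
  unfold Tup at *
  rw [Fintype.mem_piFinset] at *
  intro i
  have := Finset.mem_Icc.1 (hx i)
  have h' : (P : ℤ) ≤ P' := by exact_mod_cast h
  exact Finset.mem_Icc.2 ⟨this.1, this.2.trans h'⟩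

theorem J_mono3 {k s P P' : ℕ} (h : P ≤ P') : J k s P ≤ J k s P' := by
  classical
  unfold J
  exact Finset.card_le_card (Finset.filter_subset_filter _
    (Finset.product_subset_product (tup_mono h) (tup_mono h)))

theorem coincidence' {k S P : ℕ} {a b : Fin S} (hab : a ≠ b) (hP : 4 * k ^ 4 < P) :
    2 * k ^ 2 * (by classical exact (((Tup S P ×ˢ Tup S P).filter fun z => Sys k z.1 z.2).filter
      fun z => z.2 a = z.2 b).card) ≤ J k S P := by
  classical
  have h := coincidence (k := k) hab hP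
  have heq : (((Tup S P ×ˢ Tup S P).filter fun z => Sys k z.1 z.2).filter
      fun z => z.2 a = z.2 b).card = (((Tup S P ×ˢ Tup S P).filter fun z => Sys k z.1 z.2).filter
      fun z => z.1 a = z.1 b).card := by
    refine Finset.card_bij (fun z _ => (z.2, z.1)) ?_ ?_ ?_
    · intro z hz
      simp only [Finset.mem_filter, Finset.mem_product] at hz ⊢
      exact ⟨⟨⟨hz.1.1.2, hz.1.1.1⟩, fun j hj => (hz.1.2 j hj).symm⟩, hz.2⟩
    · rintro ⟨a1, a2⟩ _ ⟨b1, b2⟩ _ h
      simp only [Prod.mk.injEq] at h ⊢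
      exact ⟨h.2, h.1⟩
    · intro z hz
      refine ⟨(z.2, z.1), ?_, rfl⟩
      simp only [Finset.mem_filter, Finset.mem_product] at hz ⊢
      exact ⟨⟨⟨hz.1.1.2, hz.1.1.1⟩, fun j hj => (hz.1.2 j hj).symm⟩, hz.2⟩
  rw [heq]
  exact h

/-- well separated solutions -/
def Good (k s : ℕ) (z : (Fin (k + s) → ℤ) × (Fin (k + s) → ℤ)) : Prop :=
  (∀ i j : Fin k, i ≠ j → z.1 (Fin.castAdd s i) ≠ z.1 (Fin.castAdd s j)) ∧
  ∀ i j : Fin k, i ≠ j → z.2 (Fin.castAdd s i) ≠ z.2 (Fin.castAdd s j)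

theorem half_good {k s P : ℕ} (hk : 2 ≤ k) (hP : 4 * k ^ 4 < P) :
    J k (k + s) P ≤ 2 * (by classical exact
      (((Tup (k + s) P ×ˢ Tup (k + s) P).filter fun z => Sys k z.1 z.2).filter
        fun z => Good k s z).card) := by
  classical
  set Sol := (Tup (k + s) P ×ˢ Tup (k + s) P).filter fun z => Sys k z.1 z.2 with hSol
  have hJ : J k (k + s) P = Sol.card := rfl
  have hcast : ∀ i j : Fin k, i < j → Fin.castAdd s j ≠ Fin.castAdd s i := by
    intro i j hij h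
    have := congrArg Fin.val h
    simp only [Fin.val_castAdd] at this
    have h2 : (i : ℕ) < j := hij
    omega
  have hsub : Sol.filter (fun z => ¬ Good k s z) ⊆
      Finset.univ.biUnion fun i : Fin k => (Finset.Ioi i).biUnion fun j =>
        (Sol.filter fun z => z.1 (Fin.castAdd s j) = z.1 (Fin.castAdd s i)) ∪
        (Sol.filter fun z => z.2 (Fin.castAdd s j) = z.2 (Fin.castAdd s i)) := by
    intro z hz
    obtain ⟨hz1, hz2⟩ := Finset.mem_filter.1 hz
    simp only [Finset.mem_biUnion, Finset.mem_univ, true_and, Finset.mem_Ioi, Finset.mem_union,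
      Finset.mem_filter]
    unfold Good at hz2
    rw [not_and_or] at hz2
    rcases hz2 with h | h
    · push Not at h
      obtain ⟨i, j, hij, heq⟩ := h
      rcases lt_or_gt_of_ne hij with hlt | hlt
      · exact ⟨i, j, hlt, Or.inl ⟨hz1, heq.symm⟩⟩
      · exact ⟨j, i, hlt, Or.inl ⟨hz1, heq⟩⟩
    · push Not at h
      obtain ⟨i, j, hij, heq⟩ := h
      rcases lt_or_gt_of_ne hij with hlt | hlt
      · exact ⟨i, j, hlt, Or.inr ⟨hz1, heq.symm⟩⟩
      · exact ⟨j, i, hlt, Or.inr ⟨hz1, heq⟩⟩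
  have hcard : (Sol.filter (fun z => ¬ Good k s z)).card ≤
      ∑ i : Fin k, ∑ j ∈ Finset.Ioi i,
        ((Sol.filter fun z => z.1 (Fin.castAdd s j) = z.1 (Fin.castAdd s i)).card +
        (Sol.filter fun z => z.2 (Fin.castAdd s j) = z.2 (Fin.castAdd s i)).card) := by
    refine (Finset.card_le_card hsub).trans (Finset.card_biUnion_le.trans ?_)
    refine Finset.sum_le_sum fun i _ => Finset.card_biUnion_le.trans ?_
    exact Finset.sum_le_sum fun j _ => Finset.card_union_le _ _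
  have hbad : 2 * k ^ 2 * (Sol.filter (fun z => ¬ Good k s z)).card ≤ k ^ 2 * J k (k + s) P := by
    calc 2 * k ^ 2 * (Sol.filter (fun z => ¬ Good k s z)).card
        ≤ 2 * k ^ 2 * ∑ i : Fin k, ∑ j ∈ Finset.Ioi i,
        ((Sol.filter fun z => z.1 (Fin.castAdd s j) = z.1 (Fin.castAdd s i)).card +
        (Sol.filter fun z => z.2 (Fin.castAdd s j) = z.2 (Fin.castAdd s i)).card) :=
          Nat.mul_le_mul_left _ hcard
      _ = ∑ i : Fin k, ∑ j ∈ Finset.Ioi i, 2 * k ^ 2 *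
        ((Sol.filter fun z => z.1 (Fin.castAdd s j) = z.1 (Fin.castAdd s i)).card +
        (Sol.filter fun z => z.2 (Fin.castAdd s j) = z.2 (Fin.castAdd s i)).card) := by
          rw [Finset.mul_sum]
          exact Finset.sum_congr rfl fun i _ => by rw [Finset.mul_sum]
      _ ≤ ∑ i : Fin k, ∑ _j ∈ Finset.Ioi i, 2 * J k (k + s) P := by
          refine Finset.sum_le_sum fun i _ => Finset.sum_le_sum fun j hj => ?_
          have hne := hcast i j (Finset.mem_Ioi.1 hj)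
          have c1 := coincidence (k := k) hne hP
          have c2 := coincidence' (k := k) hne hP
          have c1' : 2 * k ^ 2 * (Sol.filter fun z => z.1 (Fin.castAdd s j) = z.1 (Fin.castAdd s i)).card ≤
            J k (k + s) P := c1
          have c2' : 2 * k ^ 2 * (Sol.filter fun z => z.2 (Fin.castAdd s j) = z.2 (Fin.castAdd s i)).card ≤
            J k (k + s) P := c2
          rw [Nat.mul_add]
          omega
      _ = J k (k + s) P * (2 * ∑ i : Fin k, (Finset.Ioi i).card) := by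
          simp_rw [Finset.sum_const, smul_eq_mul]
          rw [← Finset.sum_mul]
          ring
      _ ≤ k ^ 2 * J k (k + s) P := by
          rw [sum_card_Ioi, mul_comm]
          refine Nat.mul_le_mul_right _ ?_
          rw [pow_two]
          exact Nat.mul_le_mul_left _ (Nat.sub_le _ _)
  have hk2 : 0 < k ^ 2 := by positivity
  have hbad2 : 2 * (Sol.filter (fun z => ¬ Good k s z)).card ≤ J k (k + s) P := by
    refine Nat.le_of_mul_le_mul_left ?_ hk2
    calc k ^ 2 * (2 * (Sol.filter (fun z => ¬ Good k s z)).card)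
        = 2 * k ^ 2 * (Sol.filter (fun z => ¬ Good k s z)).card := by ring
      _ ≤ _ := hbad
  have hsplit := Finset.card_filter_add_card_filter_not (s := Sol) (fun z => Good k s z)
  rw [← hJ] at hsplit
  omega

theorem good_le {k s P Q : ℕ} (hk : 2 ≤ k) (hQ : k ≤ Q) (hP : P ≤ Q ^ k) {T : Finset ℕ}
    (hT : T.card = k ^ 3) (hTp : ∀ p ∈ T, p.Prime ∧ Q < p) :
    (by classical exact
      (((Tup (k + s) P ×ˢ Tup (k + s) P).filter fun z => Sys k z.1 z.2).filter
        fun z => Good k s z).card) ≤ ∑ p ∈ T, R k s P p := by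
  classical
  set G := ((Tup (k + s) P ×ˢ Tup (k + s) P).filter fun z => Sys k z.1 z.2).filter
        fun z => Good k s z with hG
  set φ : (Fin (k + s) → ℤ) × (Fin (k + s) → ℤ) →
      ((Fin k → ℤ) × (Fin k → ℤ)) × ((Fin s → ℤ) × (Fin s → ℤ)) := fun z =>
    ((fun i => z.1 (Fin.castAdd s i), fun i => z.2 (Fin.castAdd s i)),
      (fun i => z.1 (Fin.natAdd k i), fun i => z.2 (Fin.natAdd k i))) with hφ
  have hinj : Function.Injective φ := by
    rintro ⟨x, y⟩ ⟨x', y'⟩ h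
    simp only [hφ, Prod.mk.injEq] at h
    obtain ⟨⟨h1, h2⟩, h3, h4⟩ := h
    simp only [Prod.mk.injEq]
    constructor
    · funext i
      refine Fin.addCases (fun i => congrFun h1 i) (fun i => congrFun h3 i) i
    · funext i
      refine Fin.addCases (fun i => congrFun h2 i) (fun i => congrFun h4 i) i
  rw [show G.card = (G.image φ).card from (Finset.card_image_of_injective _ hinj).symm]
  set RS : ℕ → Finset (((Fin k → ℤ) × (Fin k → ℤ)) × ((Fin s → ℤ) × (Fin s → ℤ))) := fun p =>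
    ((Tup k P ×ˢ Tup k P) ×ˢ (Tup s P ×ˢ Tup s P)).filter fun z =>
      Dist p z.1.1 ∧ Dist p z.1.2 ∧ ∀ j ∈ Finset.Icc 1 k,
        ∑ i, z.1.1 i ^ j + ∑ i, z.2.1 i ^ j = ∑ i, z.1.2 i ^ j + ∑ i, z.2.2 i ^ j with hRS
  have hR : ∀ p, R k s P p = (RS p).card := by
    intro p
    unfold R
    rw [hRS]
    congr
  simp_rw [hR]
  refine (Finset.card_le_card (?_ : G.image φ ⊆ T.biUnion RS)).trans Finset.card_biUnion_le
  intro w hw
  obtain ⟨z, hz, rfl⟩ := Finset.mem_image.1 hw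
  obtain ⟨hz1, hgood⟩ := Finset.mem_filter.1 hz
  obtain ⟨hz2, hsys⟩ := Finset.mem_filter.1 hz1
  obtain ⟨hx, hy⟩ := Finset.mem_product.1 hz2
  have hx' : ∀ i, z.1 i ∈ Finset.Icc (1 : ℤ) P := Fintype.mem_piFinset.1 hx
  have hy' : ∀ i, z.2 i ∈ Finset.Icc (1 : ℤ) P := Fintype.mem_piFinset.1 hy
  obtain ⟨p, hp, hd1, hd2⟩ := exists_prime_dist hk hQ hP hT hTp
    (x := fun i => z.1 (Fin.castAdd s i)) (y := fun i => z.2 (Fin.castAdd s i))
    (fun i => hx' _) (fun i => hy' _) hgood.1 hgood.2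
  refine Finset.mem_biUnion.2 ⟨p, hp, ?_⟩
  rw [hRS]
  simp only [Finset.mem_filter]
  refine ⟨?_, hd1, hd2, ?_⟩
  · exact Finset.mem_product.2 ⟨Finset.mem_product.2 ⟨Fintype.mem_piFinset.2 fun i => hx' _,
      Fintype.mem_piFinset.2 fun i => hy' _⟩, Finset.mem_product.2
      ⟨Fintype.mem_piFinset.2 fun i => hx' _, Fintype.mem_piFinset.2 fun i => hy' _⟩⟩
  · intro j hj
    have := hsys j hj
    rw [Fin.sum_univ_add, Fin.sum_univ_add] at this
    exact this

/-- ROW V3. -/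
theorem recur (h2 : WellCond) : Recur := by
  intro k s P Q hk hP hPQ hkQ
  obtain ⟨T, hT, hTp⟩ := V3_primes Q (by omega) (k ^ 3)
  have h1 := half_good (s := s) hk hP
  have h3 := good_le (s := s) hk hkQ hPQ hT (fun p hp => ⟨(hTp p hp).1, (hTp p hp).2.1⟩)
  have h4 : ∀ p ∈ T, R k s P p ≤ k.factorial * (2 ^ (k ^ 3) * Q) ^ (2 * s + k * (k - 1) / 2) *
      P ^ k * J k s (P / Q + 1) := by
    intro p hp
    obtain ⟨hpp, hlt, hle⟩ := hTp p hp
    refine (h2 k s P p hpp (by omega) (hPQ.trans (Nat.pow_le_pow_left hlt.le _))).trans ?_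
    have hmono : J k s (P / p + 1) ≤ J k s (P / Q + 1) := by
      refine J_mono3 (Nat.add_le_add_right ?_ 1)
      exact Nat.div_le_div_left hlt.le (by omega)
    gcongr
  calc J k (k + s) P ≤ 2 * ∑ p ∈ T, R k s P p := h1.trans (Nat.mul_le_mul_left _ h3)
    _ ≤ 2 * ∑ _p ∈ T, k.factorial * (2 ^ (k ^ 3) * Q) ^ (2 * s + k * (k - 1) / 2) *
      P ^ k * J k s (P / Q + 1) := Nat.mul_le_mul_left _ (Finset.sum_le_sum h4)
    _ = _ := by
      rw [Finset.sum_const, hT, smul_eq_mul]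
      ring

end

end Pool.Agent.VMV
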