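import Mathlib
import Pool.Agent.Lib.VMV.Defs

/-! # Row V4: Vinogradov's mean value theorem from the recurrence (`Recur → VMVT`). -/

set_option autoImplicit false

namespace Pool.Agent.VMV

open Finset Real

/-- trivial bound -/
theorem J_le (k s P : ℕ) : (J k s P : ℝ) ≤ (P : ℝ) ^ (2 * s) := by
  classical
  have h : J k s P ≤ P ^ (2 * s) := by
    unfold J
    refine (Finset.card_filter_le _ _).trans ?_
    rw [Finset.card_product, Tup, Fintype.card_piFinset]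
    simp only [Int.card_Icc, add_sub_cancel_right, Int.toNat_natCast, Finset.prod_const,
      Finset.card_univ, Fintype.card_fin]
    rw [← pow_add, two_mul]
  exact_mod_cast h

theorem J_zero (k P : ℕ) : (J k 0 P : ℝ) ≤ 1 := by
  simpa using J_le k 0 P

/-- the exponent -/
noncomputable def expo (k l : ℕ) : ℝ :=
  (2 * k * l : ℝ) - k * (k + 1) / 2 + k * (k + 1) / 2 * (1 - 1 / (k : ℝ)) ^ l

theorem expo_zero (k : ℕ) : expo k 0 = 0 := by
  simp [expo]

theorem expo_nonneg {k : ℕ} (hk : 2 ≤ k) (l : ℕ) : 0 ≤ expo k l := by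
  have hk0 : (2 : ℝ) ≤ k := by exact_mod_cast hk
  have h1 : (1 : ℝ) + l * (-(1 / (k : ℝ))) ≤ (1 + -(1 / (k : ℝ))) ^ l := by
    apply one_add_mul_le_pow
    have : 1 / (k : ℝ) ≤ 1 := by
      rw [div_le_one (by linarith)]; linarith
    linarith
  have h2 : (k * (k + 1) / 2 : ℝ) * (1 + l * (-(1 / (k : ℝ)))) ≤
      k * (k + 1) / 2 * (1 - 1 / (k : ℝ)) ^ l := by
    apply mul_le_mul_of_nonneg_left _ (by positivity)
    simpa [sub_eq_add_neg] using h1
  have h3 : (k * (k + 1) / 2 : ℝ) * (1 + l * (-(1 / (k : ℝ)))) =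
      k * (k + 1) / 2 - l * (k + 1) / 2 := by
    field_simp
    ring
  unfold expo
  have h4 : (l : ℝ) * (k + 1) / 2 ≤ 2 * k * l := by
    have : (0 : ℝ) ≤ l := Nat.cast_nonneg l
    nlinarith
  linarith

theorem expo_le {k : ℕ} (hk : 2 ≤ k) (l : ℕ) : expo k l ≤ 2 * k * l := by
  have hk0 : (2 : ℝ) ≤ k := by exact_mod_cast hk
  unfold expo
  have h0 : (0 : ℝ) ≤ 1 - 1 / (k : ℝ) := by
    rw [sub_nonneg, div_le_one (by linarith)]; linarith
  have h1 : (1 - 1 / (k : ℝ)) ^ l ≤ 1 := by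
    apply pow_le_one₀ h0
    have : 0 ≤ 1 / (k : ℝ) := by positivity
    linarith
  have h2 : (k * (k + 1) / 2 : ℝ) * (1 - 1 / (k : ℝ)) ^ l ≤ k * (k + 1) / 2 * 1 :=
    mul_le_mul_of_nonneg_left h1 (by positivity)
  linarith

theorem expo_succ {k : ℕ} (hk : 2 ≤ k) (l : ℕ) :
    expo k (l + 1) = (2 * (k * l : ℕ) + k * (k - 1) / 2 : ℝ) / k + k + (1 - 1 / (k : ℝ)) * expo k l := by
  have hk0 : (2 : ℝ) ≤ k := by exact_mod_cast hk
  have hk1 : (k : ℝ) ≠ 0 := by linarith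
  unfold expo
  rw [pow_succ]
  push_cast
  field_simp
  ring

/-- the choice of `Q` -/
theorem exists_Q (k P : ℕ) (hk : 2 ≤ k) (hP : 1 ≤ P) :
    ∃ Q : ℕ, P ≤ Q ^ k ∧ k ≤ Q ∧ (P : ℝ) ^ (1 / (k : ℝ)) ≤ Q ∧
      (Q : ℝ) ≤ 2 * k * (P : ℝ) ^ (1 / (k : ℝ)) := by
  have hk0 : (2 : ℝ) ≤ k := by exact_mod_cast hk
  have hP0 : (1 : ℝ) ≤ P := by exact_mod_cast hP
  have hx : 1 ≤ (P : ℝ) ^ (1 / (k : ℝ)) := one_le_rpow hP0 (by positivity)
  refine ⟨max k ⌈(P : ℝ) ^ (1 / (k : ℝ))⌉₊, ?_, le_max_left _ _, ?_, ?_⟩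
  · have h1 : (P : ℝ) ≤ ((max k ⌈(P : ℝ) ^ (1 / (k : ℝ))⌉₊ : ℕ) : ℝ) ^ k := by
      calc (P : ℝ) = ((P : ℝ) ^ (1 / (k : ℝ))) ^ (k : ℝ) := by
            rw [← rpow_mul (by linarith), one_div, inv_mul_cancel₀ (by linarith), rpow_one]
        _ = ((P : ℝ) ^ (1 / (k : ℝ))) ^ k := by rw [rpow_natCast]
        _ ≤ _ := by
          apply pow_le_pow_left₀ (by linarith)
          exact (Nat.le_ceil _).trans (by exact_mod_cast le_max_right _ _)
    exact_mod_cast h1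
  · exact (Nat.le_ceil _).trans (by exact_mod_cast le_max_right _ _)
  · rw [Nat.cast_max, max_le_iff]
    constructor
    · nlinarith
    · have := Nat.ceil_lt_add_one (a := (P : ℝ) ^ (1 / (k : ℝ))) (by linarith)
      nlinarith

theorem log_nat_le {k : ℕ} (hk : 1 ≤ k) : Real.log k ≤ k - 1 := by
  have hk0 : (0 : ℝ) < k := by exact_mod_cast hk
  have := Real.log_le_sub_one_of_pos hk0
  linarith

theorem const_step {k : ℕ} (hk : 2 ≤ k) (l : ℕ) :
    (2 * k ^ 3 * k.factorial : ℝ) * (2 ^ (k ^ 3) * (2 * k)) ^ (2 * (k * l) + k * (k - 1) / 2) *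
      2 ^ (2 * k * l) * exp (4 * k ^ 4 * l * (l + k)) ≤
    exp (4 * k ^ 4 * ((l + 1 : ℕ) : ℝ) * (((l + 1 : ℕ) : ℝ) + k)) := by
  have hk0 : (2 : ℝ) ≤ k := by exact_mod_cast hk
  have hl0 : (0 : ℝ) ≤ l := Nat.cast_nonneg l
  have hlk := log_nat_le (k := k) (by omega)
  have hl2 : Real.log 2 ≤ 1 := by
    have := Real.log_le_sub_one_of_pos (show (0 : ℝ) < 2 by norm_num)
    linarith
  have hl20 : 0 ≤ Real.log 2 := Real.log_nonneg (by norm_num)
  have hlk0 : 0 ≤ Real.log k := Real.log_nonneg (by linarith)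
  -- the factorial
  have hf : (k.factorial : ℝ) ≤ (k : ℝ) ^ k := by exact_mod_cast Nat.factorial_le_pow k
  have e2 : (2 : ℝ) = exp (Real.log 2) := (Real.exp_log (by norm_num)).symm
  have ek : (k : ℝ) = exp (Real.log k) := (Real.exp_log (by linarith)).symm
  -- the exponent as a real number
  have hm : ((2 * (k * l) + k * (k - 1) / 2 : ℕ) : ℝ) ≤ 2 * k * l + k * k / 2 := by
    have h1 : ((k * (k - 1) / 2 : ℕ) : ℝ) ≤ k * k / 2 := by
      have h2 : k * (k - 1) / 2 * 2 ≤ k * (k - 1) := Nat.div_mul_le_self _ _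
      have h3 : k * (k - 1) ≤ k * k := Nat.mul_le_mul_left _ (Nat.sub_le _ _)
      have h4 : ((k * (k - 1) / 2 : ℕ) : ℝ) * 2 ≤ (k : ℝ) * k := by exact_mod_cast h2.trans h3
      linarith
    push_cast
    linarith
  have h1 : (2 * k ^ 3 * k.factorial : ℝ) ≤ exp (1 + 3 * k + k * k) := by
    calc (2 * k ^ 3 * k.factorial : ℝ) ≤ 2 * k ^ 3 * (k : ℝ) ^ k := by
          apply mul_le_mul_of_nonneg_left hf (by positivity)
      _ = exp (Real.log 2 + 3 * Real.log k + k * Real.log k) := by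
          rw [Real.exp_add, Real.exp_add, Real.exp_log (by norm_num), ← Real.exp_log (show (0:ℝ) < (k:ℝ) ^ 3 by positivity), Real.log_pow, ← Real.exp_log (show (0:ℝ) < (k:ℝ) ^ k by positivity), Real.log_pow]
          norm_num
      _ ≤ exp (1 + 3 * k + k * k) := by
          apply Real.exp_le_exp.mpr
          nlinarith
  have h2 : ((2 : ℝ) ^ (k ^ 3) * (2 * k)) ^ (2 * (k * l) + k * (k - 1) / 2) ≤
      exp ((2 * k * l + k * k / 2) * (2 * k ^ 3)) := by
    have hb : ((2 : ℝ) ^ (k ^ 3) * (2 * k)) ≤ exp (2 * k ^ 3) := by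
      calc ((2 : ℝ) ^ (k ^ 3) * (2 * k)) = exp (((k ^ 3 : ℕ) : ℝ) * Real.log 2 + (Real.log 2 + Real.log k)) := by
            rw [Real.exp_add, Real.exp_add, Real.exp_log (by norm_num), Real.exp_log (by linarith), ← Real.exp_log (show (0:ℝ) < 2 ^ (k ^ 3) by positivity), Real.log_pow]
        _ ≤ exp (2 * k ^ 3) := by
            apply Real.exp_le_exp.mpr
            push_cast
            have h3 : (k : ℝ) ^ 3 * Real.log 2 ≤ (k : ℝ) ^ 3 * 1 :=
              mul_le_mul_of_nonneg_left hl2 (by positivity)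
            have h4 : (k : ℝ) ≤ (k : ℝ) ^ 3 := by
              nlinarith [mul_nonneg (show (0:ℝ) ≤ k by linarith) (show (0:ℝ) ≤ (k:ℝ) * k - 1 by nlinarith)]
            linarith
    calc ((2 : ℝ) ^ (k ^ 3) * (2 * k)) ^ (2 * (k * l) + k * (k - 1) / 2)
        ≤ (exp (2 * k ^ 3)) ^ (2 * (k * l) + k * (k - 1) / 2) :=
          pow_le_pow_left₀ (by positivity) hb _
      _ = exp (((2 * (k * l) + k * (k - 1) / 2 : ℕ) : ℝ) * (2 * k ^ 3)) := by
          rw [← Real.exp_nat_mul]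
      _ ≤ _ := by
          apply Real.exp_le_exp.mpr
          apply mul_le_mul_of_nonneg_right hm (by positivity)
  have h3 : (2 : ℝ) ^ (2 * k * l) ≤ exp (2 * k * l) := by
    calc (2 : ℝ) ^ (2 * k * l) = exp (((2 * k * l : ℕ) : ℝ) * Real.log 2) := by
          rw [← Real.exp_log (show (0:ℝ) < 2 ^ (2 * k * l) by positivity), Real.log_pow]
      _ ≤ exp (2 * k * l) := by
          apply Real.exp_le_exp.mpr
          push_cast
          have : (0 : ℝ) ≤ 2 * k * l := by positivity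
          nlinarith
  calc (2 * k ^ 3 * k.factorial : ℝ) * (2 ^ (k ^ 3) * (2 * k)) ^ (2 * (k * l) + k * (k - 1) / 2) *
      2 ^ (2 * k * l) * exp (4 * k ^ 4 * l * (l + k))
      ≤ exp (1 + 3 * k + k * k) * exp ((2 * k * l + k * k / 2) * (2 * k ^ 3)) * exp (2 * k * l) *
        exp (4 * k ^ 4 * l * (l + k)) := by
        gcongr
    _ = exp (1 + 3 * k + k * k + (2 * k * l + k * k / 2) * (2 * k ^ 3) + 2 * k * l +
        4 * k ^ 4 * l * (l + k)) := by
        rw [← Real.exp_add, ← Real.exp_add, ← Real.exp_add]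
    _ ≤ _ := by
        apply Real.exp_le_exp.mpr
        push_cast
        have hk4 : (k : ℝ) ≤ (k : ℝ) ^ 4 := by
          have : (1 : ℝ) ≤ (k : ℝ) ^ 3 := one_le_pow₀ (by linarith)
          nlinarith
        have hk24 : (k : ℝ) * k ≤ (k : ℝ) ^ 4 := by
          have : (1 : ℝ) ≤ (k : ℝ) ^ 2 := one_le_pow₀ (by linarith)
          nlinarith [mul_nonneg (show (0:ℝ) ≤ k * k by positivity) (show (0:ℝ) ≤ (k:ℝ)^2 - 1 by linarith)]
        have hk5 : (k : ℝ) ^ 4 ≤ (k : ℝ) ^ 5 := pow_le_pow_right₀ (by linarith) (by norm_num)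
        have hkl : (k : ℝ) * l ≤ (k : ℝ) ^ 4 * l := mul_le_mul_of_nonneg_right hk4 hl0
        have h14 : (1 : ℝ) ≤ (k : ℝ) ^ 4 := one_le_pow₀ (by linarith)
        nlinarith

theorem cast_n (k l : ℕ) : ((2 * (k * l) + k * (k - 1) / 2 : ℕ) : ℝ) =
    2 * (k * l : ℕ) + k * (k - 1) / 2 := by
  have h : k * (k - 1) / 2 * 2 = k * (k - 1) :=
    Nat.div_mul_cancel (Nat.even_mul_pred_self k).two_dvd
  have h2 : ((k * (k - 1) / 2 : ℕ) : ℝ) * 2 = (k : ℝ) * (k - 1) := by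
    rcases Nat.eq_zero_or_pos k with rfl | hk
    · simp
    · have h3 : ((k * (k - 1) / 2 : ℕ) : ℝ) * 2 = ((k * (k - 1) : ℕ) : ℝ) := by exact_mod_cast h
      rw [h3, Nat.cast_mul, Nat.cast_sub hk, Nat.cast_one]
  rw [Nat.cast_add, Nat.cast_mul]
  push_cast
  linarith

theorem small_case {k : ℕ} (hk : 2 ≤ k) (l P : ℕ) (hP : 1 ≤ P) (h : P ≤ 4 * k ^ 4) :
    (J k (k * (l + 1)) P : ℝ) ≤ exp (4 * k ^ 4 * ((l + 1 : ℕ) : ℝ) * (((l + 1 : ℕ) : ℝ) + k)) *
      (P : ℝ) ^ expo k (l + 1) := by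
  have hk0 : (2 : ℝ) ≤ k := by exact_mod_cast hk
  have hl0 : (0 : ℝ) ≤ l := Nat.cast_nonneg l
  have hP0 : (1 : ℝ) ≤ P := by exact_mod_cast hP
  have hP1 : (P : ℝ) ≤ 4 * k ^ 4 := by exact_mod_cast h
  have h1 := J_le k (k * (l + 1)) P
  have hle := expo_le hk (l + 1)
  have hlow : 2 * k * ((l + 1 : ℕ) : ℝ) - expo k (l + 1) ≤ k * k := by
    unfold expo
    have h0 : (0 : ℝ) ≤ 1 - 1 / (k : ℝ) := by
      rw [sub_nonneg, div_le_one (by linarith)]; linarith
    have h2 : (0 : ℝ) ≤ k * (k + 1) / 2 * (1 - 1 / (k : ℝ)) ^ (l + 1) := by positivity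
    nlinarith
  have h2 : (P : ℝ) ^ (2 * (k * (l + 1))) =
      (P : ℝ) ^ (2 * k * ((l + 1 : ℕ) : ℝ) - expo k (l + 1)) * (P : ℝ) ^ expo k (l + 1) := by
    rw [← rpow_add (by linarith), sub_add_cancel, ← rpow_natCast]
    congr 1
    push_cast
    ring
  refine h1.trans ?_
  rw [h2]
  refine mul_le_mul_of_nonneg_right ?_ (by positivity)
  calc (P : ℝ) ^ (2 * k * ((l + 1 : ℕ) : ℝ) - expo k (l + 1)) ≤ (P : ℝ) ^ ((k : ℝ) * k) :=
        rpow_le_rpow_of_exponent_le hP0 hlow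
    _ ≤ (4 * (k : ℝ) ^ 4) ^ ((k : ℝ) * k) := rpow_le_rpow (by linarith) hP1 (by positivity)
    _ = exp (Real.log (4 * (k : ℝ) ^ 4) * (k * k)) := by
        rw [rpow_def_of_pos (by positivity)]
    _ ≤ _ := by
        apply Real.exp_le_exp.mpr
        have hl4 : Real.log (4 * (k : ℝ) ^ 4) ≤ 4 * k := by
          rw [Real.log_mul (by norm_num) (by positivity), Real.log_pow]
          have := log_nat_le (k := k) (by omega)
          have h5 : Real.log 4 ≤ 4 - 1 := Real.log_le_sub_one_of_pos (by norm_num)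
          push_cast
          linarith
        calc Real.log (4 * (k : ℝ) ^ 4) * (k * k) ≤ 4 * k * (k * k) :=
              mul_le_mul_of_nonneg_right hl4 (by positivity)
          _ ≤ 4 * k ^ 4 * 1 * (1 + k) := by
              have h6 : (k : ℝ) * (k * k) ≤ (k : ℝ) ^ 4 := by
                nlinarith [show (0:ℝ) ≤ (k:ℝ) ^ 3 by positivity]
              nlinarith [show (0:ℝ) ≤ (k:ℝ) ^ 4 by positivity]
          _ ≤ _ := by
              push_cast
              gcongr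
              · linarith
              · linarith

theorem vmvt (h3 : Recur) : VMVT := by
  refine ⟨4, by norm_num, ?_⟩
  intro k l P hk hP
  change (J k (k * l) P : ℝ) ≤ exp (4 * k ^ 4 * l * (l + k)) * (P : ℝ) ^ expo k l
  induction l generalizing P with
  | zero =>
    have h := J_zero k P
    rw [expo_zero k, rpow_zero, mul_one]
    simpa using h
  | succ l ih =>
    rcases le_or_gt P (4 * k ^ 4) with hsm | hbig
    · exact small_case hk l P hP hsm
    have hk0 : (2 : ℝ) ≤ k := by exact_mod_cast hk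
    have hP0 : (1 : ℝ) ≤ P := by exact_mod_cast hP
    obtain ⟨Q, hQ1, hQ2, hQ3, hQ4⟩ := exists_Q k P hk hP
    have hrec := h3 k (k * l) P Q hk hbig hQ1 hQ2
    have hrec' : (J k (k * (l + 1)) P : ℝ) ≤ 2 * k ^ 3 * k.factorial *
        (2 ^ (k ^ 3) * Q) ^ (2 * (k * l) + k * (k - 1) / 2) * P ^ k *
          J k (k * l) (P / Q + 1) := by
      rw [show k * (l + 1) = k + k * l by ring]
      exact_mod_cast hrec
    have hih := ih (P / Q + 1) (Nat.le_add_left 1 _)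
    have hx1 : 1 ≤ (P : ℝ) ^ (1 / (k : ℝ)) := one_le_rpow hP0 (by positivity)
    have hk1 : 0 ≤ 1 - 1 / (k : ℝ) := by
      rw [sub_nonneg, div_le_one (by linarith)]; linarith
    have hy1 : 1 ≤ (P : ℝ) ^ (1 - 1 / (k : ℝ)) := one_le_rpow hP0 hk1
    have hdiv : ((P / Q + 1 : ℕ) : ℝ) ≤ 2 * (P : ℝ) ^ (1 - 1 / (k : ℝ)) := by
      have h5 : ((P / Q : ℕ) : ℝ) ≤ (P : ℝ) / Q := Nat.cast_div_le
      have h6 : (P : ℝ) / Q ≤ (P : ℝ) / (P : ℝ) ^ (1 / (k : ℝ)) :=
        div_le_div_of_nonneg_left (by linarith) (by linarith) hQ3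
      have h7 : (P : ℝ) / (P : ℝ) ^ (1 / (k : ℝ)) = (P : ℝ) ^ (1 - 1 / (k : ℝ)) := by
        rw [rpow_sub (by linarith), rpow_one]
      push_cast
      linarith
    have hE0 := expo_nonneg hk l
    have hA : ((P / Q + 1 : ℕ) : ℝ) ^ expo k l ≤
        2 ^ (2 * k * l) * (P : ℝ) ^ ((1 - 1 / (k : ℝ)) * expo k l) := by
      calc ((P / Q + 1 : ℕ) : ℝ) ^ expo k l ≤ (2 * (P : ℝ) ^ (1 - 1 / (k : ℝ))) ^ expo k l :=
            rpow_le_rpow (Nat.cast_nonneg _) hdiv hE0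
        _ = 2 ^ expo k l * (P : ℝ) ^ ((1 - 1 / (k : ℝ)) * expo k l) := by
            rw [mul_rpow (by norm_num) (by positivity), ← rpow_mul (by linarith)]
        _ ≤ _ := by
            apply mul_le_mul_of_nonneg_right _ (by positivity)
            rw [← rpow_natCast]
            apply rpow_le_rpow_of_exponent_le (by norm_num)
            push_cast
            exact expo_le hk l
    have hB : ((2 : ℝ) ^ (k ^ 3) * Q) ^ (2 * (k * l) + k * (k - 1) / 2) ≤
        ((2 : ℝ) ^ (k ^ 3) * (2 * k)) ^ (2 * (k * l) + k * (k - 1) / 2) *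
          (P : ℝ) ^ ((2 * (k * l : ℕ) + k * (k - 1) / 2 : ℝ) / k) := by
      have h8 : (P : ℝ) ^ ((2 * (k * l : ℕ) + k * (k - 1) / 2 : ℝ) / k) =
          ((P : ℝ) ^ (1 / (k : ℝ))) ^ (2 * (k * l) + k * (k - 1) / 2) := by
        rw [← rpow_natCast, cast_n, ← rpow_mul (by linarith)]
        congr 1
        ring
      rw [h8, ← mul_pow]
      apply pow_le_pow_left₀ (by positivity)
      rw [mul_assoc]
      exact mul_le_mul_of_nonneg_left hQ4 (by positivity)
    have hexp : (P : ℝ) ^ ((2 * (k * l : ℕ) + k * (k - 1) / 2 : ℝ) / k) * (P : ℝ) ^ k *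
        (P : ℝ) ^ ((1 - 1 / (k : ℝ)) * expo k l) = (P : ℝ) ^ expo k (l + 1) := by
      rw [expo_succ hk, ← rpow_natCast (P : ℝ) k, ← rpow_add (by linarith),
        ← rpow_add (by linarith)]
    have hc := const_step hk l
    calc (J k (k * (l + 1)) P : ℝ)
        ≤ 2 * k ^ 3 * k.factorial *
          (2 ^ (k ^ 3) * Q) ^ (2 * (k * l) + k * (k - 1) / 2) * P ^ k *
          J k (k * l) (P / Q + 1) := hrec'
      _ ≤ 2 * k ^ 3 * k.factorial *
          (((2 : ℝ) ^ (k ^ 3) * (2 * k)) ^ (2 * (k * l) + k * (k - 1) / 2) *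
          (P : ℝ) ^ ((2 * (k * l : ℕ) + k * (k - 1) / 2 : ℝ) / k)) * P ^ k *
          (exp (4 * k ^ 4 * l * (l + k)) *
            (2 ^ (2 * k * l) * (P : ℝ) ^ ((1 - 1 / (k : ℝ)) * expo k l))) := by
          apply mul_le_mul _ _ (Nat.cast_nonneg _) (by positivity)
          · gcongr
          · exact hih.trans (mul_le_mul_of_nonneg_left hA (by positivity))
      _ = ((2 * k ^ 3 * k.factorial : ℝ) *
            (2 ^ (k ^ 3) * (2 * k)) ^ (2 * (k * l) + k * (k - 1) / 2) *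
            2 ^ (2 * k * l) * exp (4 * k ^ 4 * l * (l + k))) *
          ((P : ℝ) ^ ((2 * (k * l : ℕ) + k * (k - 1) / 2 : ℝ) / k) * (P : ℝ) ^ k *
            (P : ℝ) ^ ((1 - 1 / (k : ℝ)) * expo k l)) := by ring
      _ ≤ _ := by
          rw [hexp]
          exact mul_le_mul_of_nonneg_right hc (by positivity)

end Pool.Agent.VMV
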