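import Mathlib
import Pool.Agent.Lib.VMV.Defs

/-! # VMV, row V6a: the sums `∑_m |∑_n e(a m n)|`.  helper65 -/

set_option autoImplicit false

namespace Pool.Agent.VMV

open Finset

theorem e_norm (x : ℝ) : ‖e x‖ = 1 := by
  unfold e
  exact Complex.norm_exp_ofReal_mul_I _

theorem e_add (x y : ℝ) : e (x + y) = e x * e y := by
  unfold e
  rw [← Complex.exp_add]
  congr 1
  push_cast
  ring

theorem e_zero : e 0 = 1 := by
  simp [e]

theorem V6a_sym {α : Type*} [AddCommMonoid α] (F : ℤ → α) (M : ℕ) :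
    ∑ n ∈ Icc (-(M : ℤ)) M, F n = F 0 + ∑ i ∈ range M, (F ((i : ℤ) + 1) + F (-((i : ℤ) + 1))) := by
  induction M with
  | zero => simp
  | succ M ih =>
    have h1 : Icc (-((M + 1 : ℕ) : ℤ)) ((M + 1 : ℕ) : ℤ) =
        insert ((M : ℤ) + 1) (insert (-((M : ℤ) + 1)) (Icc (-(M : ℤ)) M)) := by
      ext n
      simp only [mem_Icc, mem_insert]
      push_cast
      omega
    rw [h1, sum_insert, sum_insert, ih, sum_range_succ]
    · abel
    · simp only [mem_Icc]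
      omega
    · simp only [mem_insert, mem_Icc]
      omega

theorem V6a_geom (θ : ℝ) (M : ℕ) :
    (e θ - 1) * ∑ n ∈ Icc (-(M : ℤ)) M, e (θ * n) = e (θ * (M + 1)) - e (-(θ * M)) := by
  rw [V6a_sym]
  induction M with
  | zero => simp [e_zero]
  | succ M ih =>
    rw [sum_range_succ, ← add_assoc, mul_add, ih]
    have h1 : e θ * e (θ * (M + 1)) = e (θ * (M + 2)) := by
      rw [← e_add]; congr 1; ring
    have h2 : e θ * e (-(θ * (M + 1))) = e (-(θ * M)) := by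
      rw [← e_add]; congr 1; ring
    push_cast
    have h3 : θ * (-1 + -(M : ℝ)) = -(θ * (M + 1)) := by ring
    have h4 : θ * ((M : ℝ) + 1 + 1) = θ * (M + 2) := by ring
    rw [show θ * (-((M : ℝ) + 1)) = -(θ * (M + 1)) by ring, h4]
    linear_combination h1 + h2

theorem V6a_sin {θ : ℝ} (h : |θ| ≤ 1 / 2) : 4 * |θ| ≤ ‖e θ - 1‖ := by
  have h1 : e θ - 1 = Complex.exp (Complex.I * ((2 * Real.pi * θ : ℝ) : ℂ)) - 1 := by
    unfold e
    rw [mul_comm Complex.I]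
  rw [h1, Complex.norm_exp_I_mul_ofReal_sub_one, Real.norm_eq_abs, abs_mul, abs_two,
    show 2 * Real.pi * θ / 2 = Real.pi * θ by ring]
  have h2 : |Real.sin (Real.pi * θ)| = Real.sin (Real.pi * |θ|) := by
    have hp : 0 ≤ Real.sin (Real.pi * |θ|) := by
      apply Real.sin_nonneg_of_nonneg_of_le_pi
      · positivity
      · nlinarith [Real.pi_pos]
    rcases le_total 0 θ with h0 | h0
    · rw [abs_of_nonneg h0] at hp ⊢
      rw [abs_of_nonneg hp]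
    · rw [abs_of_nonpos h0] at hp ⊢
      rw [show Real.pi * θ = -(Real.pi * -θ) by ring, Real.sin_neg, abs_neg, abs_of_nonneg hp]
  rw [h2]
  have h3 := Real.mul_le_sin (x := Real.pi * |θ|) (by positivity) (by nlinarith [Real.pi_pos])
  have h4 : 2 / Real.pi * (Real.pi * |θ|) = 2 * |θ| := by
    field_simp
  rw [h4] at h3
  linarith

theorem V6a_inner {θ : ℝ} (h0 : θ ≠ 0) (h : |θ| ≤ 1 / 2) (M : ℕ) :
    ‖∑ n ∈ Icc (-(M : ℤ)) M, e (θ * n)‖ ≤ 1 / (2 * |θ|) := by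
  have h1 := congrArg norm (V6a_geom θ M)
  rw [norm_mul] at h1
  have h2 : ‖e (θ * (M + 1)) - e (-(θ * M))‖ ≤ 2 := by
    refine (norm_sub_le _ _).trans ?_
    rw [e_norm, e_norm]
    norm_num
  have h3 := V6a_sin h
  have hθ : 0 < |θ| := abs_pos.2 h0
  have h4 : 4 * |θ| * ‖∑ n ∈ Icc (-(M : ℤ)) M, e (θ * n)‖ ≤ 2 := by
    calc 4 * |θ| * ‖∑ n ∈ Icc (-(M : ℤ)) M, e (θ * n)‖
        ≤ ‖e θ - 1‖ * ‖∑ n ∈ Icc (-(M : ℤ)) M, e (θ * n)‖ := by gcongr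
      _ ≤ 2 := by rw [h1]; exact h2
  rw [le_div_iff₀ (by positivity)]
  nlinarith

theorem V6a_triv (F : ℤ → ℝ) (M : ℕ) :
    ‖∑ n ∈ Icc (-(M : ℤ)) M, e (F n)‖ ≤ 2 * M + 1 := by
  refine (norm_sum_le _ _).trans ?_
  simp only [e_norm, sum_const, Int.card_Icc, nsmul_eq_mul, mul_one]
  have : ((M : ℤ) + 1 - -(M : ℤ)).toNat = 2 * M + 1 := by omega
  rw [this]
  push_cast
  rfl

/-- the trivial bound -/
theorem w_triv (a : ℝ) (M : ℕ) :
    ∑ m ∈ Icc (-(M : ℤ)) M, ‖∑ n ∈ Icc (-(M : ℤ)) M, e (a * ((m : ℝ) * n))‖ ≤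
      (2 * (M : ℝ) + 1) ^ 2 := by
  have h : ∀ m ∈ Icc (-(M : ℤ)) (M : ℤ),
      ‖∑ n ∈ Icc (-(M : ℤ)) M, e (a * ((m : ℝ) * n))‖ ≤ 2 * (M : ℝ) + 1 :=
    fun m _ => V6a_triv (fun n : ℤ => a * ((m : ℝ) * n)) M
  refine (sum_le_sum h).trans ?_
  simp only [sum_const, Int.card_Icc, nsmul_eq_mul]
  have : ((M : ℤ) + 1 - -(M : ℤ)).toNat = 2 * M + 1 := by omega
  rw [this]
  push_cast
  nlinarith

/-- ROW V6a -/
theorem w_le {a : ℝ} (ha : a ≠ 0) (M : ℕ) (h : |a| * M ≤ 1 / 2) :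
    ∑ m ∈ Icc (-(M : ℤ)) M, ‖∑ n ∈ Icc (-(M : ℤ)) M, e (a * ((m : ℝ) * n))‖ ≤
      (2 * (M : ℝ) + 1) + 1 / |a| * (1 + Real.log M) := by
  rw [V6a_sym]
  have ha' : 0 < |a| := abs_pos.2 ha
  have h1 : ‖∑ n ∈ Icc (-(M : ℤ)) M, e (a * (((0 : ℤ) : ℝ) * n))‖ ≤ 2 * M + 1 :=
    V6a_triv (fun n : ℤ => a * (((0 : ℤ) : ℝ) * n)) M
  have h2 : ∀ i ∈ range M,
      ‖∑ n ∈ Icc (-(M : ℤ)) M, e (a * ((((i : ℤ) + 1 : ℤ) : ℝ) * n))‖ +
      ‖∑ n ∈ Icc (-(M : ℤ)) M, e (a * (((-((i : ℤ) + 1) : ℤ) : ℝ) * n))‖ ≤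
        1 / |a| * ((i : ℝ) + 1)⁻¹ := by
    intro i hi
    have hi' : (i : ℝ) + 1 ≤ M := by
      have := mem_range.1 hi
      exact_mod_cast this
    have hb : |a * ((i : ℝ) + 1)| ≤ 1 / 2 := by
      rw [abs_mul, abs_of_nonneg (by positivity : (0 : ℝ) ≤ (i : ℝ) + 1)]
      exact (mul_le_mul_of_nonneg_left hi' ha'.le).trans h
    have hb' : |a * (-((i : ℝ) + 1))| ≤ 1 / 2 := by
      rw [mul_neg, abs_neg]
      exact hb
    have hne : a * ((i : ℝ) + 1) ≠ 0 := mul_ne_zero ha (by positivity)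
    have hne' : a * (-((i : ℝ) + 1)) ≠ 0 := by
      rw [mul_neg]
      exact neg_ne_zero.2 hne
    have e1 := V6a_inner hne hb M
    have e2 := V6a_inner hne' hb' M
    have h3 : (∑ n ∈ Icc (-(M : ℤ)) M, e (a * ((((i : ℤ) + 1 : ℤ) : ℝ) * n))) =
        ∑ n ∈ Icc (-(M : ℤ)) M, e (a * ((i : ℝ) + 1) * n) := by
      refine sum_congr rfl fun n _ => ?_
      congr 1
      push_cast
      ring
    have h4 : (∑ n ∈ Icc (-(M : ℤ)) M, e (a * (((-((i : ℤ) + 1) : ℤ) : ℝ) * n))) =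
        ∑ n ∈ Icc (-(M : ℤ)) M, e (a * (-((i : ℝ) + 1)) * n) := by
      refine sum_congr rfl fun n _ => ?_
      congr 1
      push_cast
      ring
    rw [h3, h4]
    refine (add_le_add e1 e2).trans (le_of_eq ?_)
    rw [mul_neg, abs_neg, abs_mul, abs_of_nonneg (by positivity : (0 : ℝ) ≤ (i : ℝ) + 1)]
    field_simp
    norm_num
  refine add_le_add h1 ((sum_le_sum h2).trans ?_)
  rw [← mul_sum]
  refine mul_le_mul_of_nonneg_left ?_ (by positivity)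
  have h5 := harmonic_le_one_add_log M
  refine le_trans (le_of_eq ?_) h5
  unfold harmonic
  push_cast
  rfl

end Pool.Agent.VMV
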