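import Mathlib
import Pool.Agent.Lib.VMV.V6a

/-! # VMV, row V5: the bilinear form (Hölder).  helper65 -/

set_option autoImplicit false

namespace Pool.Agent.VMV

open Finset

theorem e_neg (x : ℝ) : (starRingEnd ℂ) (e x) = e (-x) := by
  unfold e
  rw [← Complex.exp_conj, map_mul, Complex.conj_I, Complex.conj_ofReal]
  congr 1
  push_cast
  ring

theorem e_sum {ι : Type*} (S : Finset ι) (g : ι → ℝ) : e (∑ i ∈ S, g i) = ∏ i ∈ S, e (g i) := by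
  classical
  induction S using Finset.induction_on with
  | empty => simp [e_zero]
  | insert a S ha ih => rw [sum_insert ha, prod_insert ha, e_add, ih]

theorem V5_pow (h : ℤ → ℝ) (s Y : ℕ) :
    (∑ y ∈ Icc (1 : ℤ) Y, e (h y)) ^ s = ∑ u ∈ Tup s Y, e (∑ i, h (u i)) := by
  have h1 := Finset.prod_univ_sum (fun _ : Fin s => Icc (1 : ℤ) Y) (fun _ y => e (h y))
  rw [prod_const, card_univ, Fintype.card_fin] at h1
  rw [h1]
  refine sum_congr rfl fun u _ => ?_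
  rw [e_sum]

theorem V5_abs (h : ℤ → ℝ) (s Y : ℕ) :
    ((‖∑ y ∈ Icc (1 : ℤ) Y, e (h y)‖ ^ (2 * s) : ℝ) : ℂ) =
      ∑ z ∈ Tup s Y ×ˢ Tup s Y, e (∑ i, h (z.1 i) - ∑ i, h (z.2 i)) := by
  rw [mul_comm 2 s, pow_mul, ← norm_pow, V5_pow]
  push_cast
  rw [← Complex.mul_conj', map_sum, sum_mul_sum, sum_product]
  refine sum_congr rfl fun u _ => sum_congr rfl fun v _ => ?_
  rw [e_neg, ← e_add, sub_eq_add_neg]

/-- the differences of the power sums -/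
noncomputable def V5phi (k : ℕ) {s : ℕ} (z : (Fin s → ℤ) × (Fin s → ℤ)) : Fin k → ℤ :=
  fun i => ∑ t, z.1 t ^ ((i : ℕ) + 1) - ∑ t, z.2 t ^ ((i : ℕ) + 1)

/-- the box of their values -/
noncomputable def V5box (k s Y : ℕ) : Finset (Fin k → ℤ) :=
  Fintype.piFinset fun i => Icc (-(s * Y ^ ((i : ℕ) + 1) : ℤ)) (s * Y ^ ((i : ℕ) + 1))

/-- the number of representations -/
noncomputable def V5r (k s Y : ℕ) (lam : Fin k → ℤ) : ℕ :=
  ((Tup s Y ×ˢ Tup s Y).filter fun z => V5phi k z = lam).card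

theorem V5_mem (k : ℕ) {s Y : ℕ} {z : (Fin s → ℤ) × (Fin s → ℤ)}
    (hz : z ∈ Tup s Y ×ˢ Tup s Y) : V5phi k z ∈ V5box k s Y := by
  have key : ∀ u ∈ Tup s Y, ∀ j : ℕ, 0 ≤ ∑ t, u t ^ j ∧ ∑ t, u t ^ j ≤ (s * Y ^ j : ℤ) := by
    intro u hu j
    have h1 : ∀ t, 1 ≤ u t ∧ u t ≤ Y := fun t => mem_Icc.1 (Fintype.mem_piFinset.1 hu t)
    constructor
    · exact sum_nonneg fun t _ => pow_nonneg (by linarith [(h1 t).1]) _
    · refine (sum_le_card_nsmul _ _ ((Y : ℤ) ^ j) fun t _ =>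
        pow_le_pow_left₀ (by linarith [(h1 t).1]) (h1 t).2 _).trans ?_
      simp
  obtain ⟨h1, h2⟩ := mem_product.1 hz
  rw [V5box, Fintype.mem_piFinset]
  intro i
  have a1 := key _ h1 ((i : ℕ) + 1)
  have a2 := key _ h2 ((i : ℕ) + 1)
  rw [mem_Icc]
  unfold V5phi
  constructor <;> linarith [a1.1, a1.2, a2.1, a2.2]

theorem V5_fib {β : Type*} [Semiring β] (k s Y : ℕ) (F : (Fin k → ℤ) → β) :
    ∑ z ∈ Tup s Y ×ˢ Tup s Y, F (V5phi k z) =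
      ∑ lam ∈ V5box k s Y, (V5r k s Y lam : β) * F lam := by
  rw [← sum_fiberwise_of_maps_to (g := fun z => V5phi k z) (fun z hz => V5_mem k hz)]
  refine sum_congr rfl fun lam _ => ?_
  rw [sum_congr rfl (fun z hz => by rw [(mem_filter.1 hz).2]), sum_const, nsmul_eq_mul]
  rfl

theorem V5_cardTup (s Y : ℕ) : (Tup s Y).card = Y ^ s := by
  rw [Tup, Fintype.card_piFinset]
  simp

/-- the power sums -/
noncomputable def V5psi (k : ℕ) {s : ℕ} (u : Fin s → ℤ) : Fin k → ℤ := fun i => ∑ t, u t ^ ((i : ℕ) + 1)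

/-- the number of representations as power sums -/
noncomputable def V5rho (k s Y : ℕ) (mu : Fin k → ℤ) : ℕ := ((Tup s Y).filter fun u => V5psi k u = mu).card

theorem V5_r_eq (k s Y : ℕ) (lam : Fin k → ℤ) :
    V5r k s Y lam = ∑ mu ∈ (Tup s Y).image (V5psi k), V5rho k s Y mu * V5rho k s Y (mu + lam) := by
  have h1 : V5r k s Y lam = ∑ v ∈ Tup s Y, V5rho k s Y (V5psi k v + lam) := by
    unfold V5r
    rw [card_filter, sum_product_right]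
    refine sum_congr rfl fun v _ => ?_
    unfold V5rho
    rw [card_filter]
    refine sum_congr rfl fun u _ => ?_
    have h : (V5phi k (u, v) = lam) ↔ (V5psi k u = V5psi k v + lam) := by
      have h0 : V5phi k (u, v) = V5psi k u - V5psi k v := rfl
      rw [h0, sub_eq_iff_eq_add']
    simp only [h]
  rw [h1]
  rw [← sum_fiberwise_of_maps_to (g := V5psi k) (t := (Tup s Y).image (V5psi k))
    (fun v hv => mem_image_of_mem _ hv)]
  refine sum_congr rfl fun mu _ => ?_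
  rw [sum_congr rfl (fun z hz => by rw [(mem_filter.1 hz).2]), sum_const, smul_eq_mul]
  rfl

theorem V5_r_zero (k s Y : ℕ) : V5r k s Y 0 = J k s Y := by
  classical
  unfold V5r J
  congr 1
  ext z
  simp only [mem_filter, and_congr_right_iff]
  intro _
  constructor
  · intro h j hj
    obtain ⟨h1, h2⟩ := mem_Icc.1 hj
    have h3 := congrFun h ⟨j - 1, by omega⟩
    unfold V5phi at h3
    simp only [Pi.zero_apply] at h3
    rw [show j - 1 + 1 = j by omega] at h3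
    linarith
  · intro h
    funext i
    have h3 := h ((i : ℕ) + 1) (mem_Icc.2 ⟨by omega, by omega⟩)
    unfold V5phi
    simp only [Pi.zero_apply]
    linarith

theorem V5_r_le (k s Y : ℕ) (lam : Fin k → ℤ) : V5r k s Y lam ≤ J k s Y := by
  rw [← V5_r_zero, V5_r_eq, V5_r_eq]
  set I := (Tup s Y).image (V5psi k) with hI
  have h1 : ∑ mu ∈ I, V5rho k s Y (mu + lam) ^ 2 ≤ ∑ mu ∈ I, V5rho k s Y mu ^ 2 := by
    have h2 : ∑ mu ∈ I, V5rho k s Y (mu + lam) ^ 2 =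
        ∑ mu ∈ I.image (· + lam), V5rho k s Y mu ^ 2 := by
      rw [sum_image (s := I) (g := (· + lam)) (fun x _ y _ hxy => add_right_cancel hxy)]
    rw [h2]
    have h3 : ∑ mu ∈ I.image (· + lam), V5rho k s Y mu ^ 2 =
        ∑ mu ∈ (I.image (· + lam)).filter (· ∈ I), V5rho k s Y mu ^ 2 := by
      rw [sum_filter]
      refine sum_congr rfl fun mu _ => ?_
      split_ifs with h
      · rfl
      · have : V5rho k s Y mu = 0 := by
          unfold V5rho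
          rw [card_eq_zero, filter_eq_empty_iff]
          intro u hu hu2
          exact h (mem_image.2 ⟨u, hu, hu2⟩)
        rw [this]
        rfl
    rw [h3]
    refine sum_le_sum_of_subset fun mu hmu => (mem_filter.1 hmu).2
  have h4 : 2 * ∑ mu ∈ I, V5rho k s Y mu * V5rho k s Y (mu + lam) ≤
      2 * ∑ mu ∈ I, V5rho k s Y mu * V5rho k s Y (mu + 0) := by
    calc 2 * ∑ mu ∈ I, V5rho k s Y mu * V5rho k s Y (mu + lam)
        = ∑ mu ∈ I, 2 * V5rho k s Y mu * V5rho k s Y (mu + lam) := by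
          rw [mul_sum]
          exact sum_congr rfl fun mu _ => by ring
      _ ≤ ∑ mu ∈ I, (V5rho k s Y mu ^ 2 + V5rho k s Y (mu + lam) ^ 2) :=
          sum_le_sum fun mu _ => by
            have := two_mul_le_add_sq (V5rho k s Y mu) (V5rho k s Y (mu + lam))
            exact this
      _ = ∑ mu ∈ I, V5rho k s Y mu ^ 2 + ∑ mu ∈ I, V5rho k s Y (mu + lam) ^ 2 := sum_add_distrib
      _ ≤ ∑ mu ∈ I, V5rho k s Y mu ^ 2 + ∑ mu ∈ I, V5rho k s Y mu ^ 2 := by omega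
      _ = 2 * ∑ mu ∈ I, V5rho k s Y mu * V5rho k s Y (mu + 0) := by
          rw [← two_mul]
          congr 1
          refine sum_congr rfl fun mu _ => ?_
          rw [add_zero, sq]
  omega

theorem V5_prod (k : ℕ) {β : Type*} [CommMonoid β] (F : ℕ → β) :
    ∏ j ∈ Icc 1 k, F j = ∏ i : Fin k, F ((i : ℕ) + 1) := by
  rw [← Finset.prod_range (fun i => F (i + 1)), Finset.range_eq_Ico,
    Finset.prod_Ico_add' F 0 k 1]
  refine prod_congr ?_ fun _ _ => rfl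
  ext j
  simp only [mem_Icc, mem_Ico]
  omega

theorem V5_sum (k : ℕ) {β : Type*} [AddCommMonoid β] (F : ℕ → β) :
    ∑ j ∈ Icc 1 k, F j = ∑ i : Fin k, F ((i : ℕ) + 1) := by
  rw [← Finset.sum_range (fun i => F (i + 1)), Finset.range_eq_Ico,
    Finset.sum_Ico_add' F 0 k 1]
  refine sum_congr ?_ fun _ _ => rfl
  ext j
  simp only [mem_Icc, mem_Ico]
  omega

theorem V5_cast {β : Type*} [AddCommMonoid β] (Y : ℕ) (F : ℤ → β) :
    ∑ y ∈ Icc 1 Y, F (y : ℤ) = ∑ y ∈ Icc (1 : ℤ) Y, F y := by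
  refine sum_bij (fun y _ => (y : ℤ)) ?_ ?_ ?_ ?_
  · intro y hy
    rw [mem_Icc] at hy ⊢
    omega
  · intro a _ b _ h
    exact_mod_cast h
  · intro b hb
    rw [mem_Icc] at hb
    exact ⟨b.toNat, by rw [mem_Icc]; omega, by omega⟩
  · intro y _
    rfl

section main
variable (k s Y : ℕ) (a : ℕ → ℝ)

/-- the sum over `x` -/
noncomputable def V5G (lam : Fin k → ℤ) : ℝ :=
  ‖∑ x ∈ Icc (1 : ℤ) Y, e (∑ i : Fin k, a ((i : ℕ) + 1) * lam i * (x : ℝ) ^ ((i : ℕ) + 1))‖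

theorem V5_stepA :
    ∑ x ∈ Icc (1 : ℤ) Y, ‖∑ y ∈ Icc (1 : ℤ) Y,
      e (∑ j ∈ Icc 1 k, a j * ((x : ℝ) ^ j * (y : ℝ) ^ j))‖ ^ (2 * s) ≤
    ∑ z ∈ Tup s Y ×ˢ Tup s Y, V5G k Y a (V5phi k z) := by
  have h0 : 0 ≤ ∑ x ∈ Icc (1 : ℤ) Y, ‖∑ y ∈ Icc (1 : ℤ) Y,
      e (∑ j ∈ Icc 1 k, a j * ((x : ℝ) ^ j * (y : ℝ) ^ j))‖ ^ (2 * s) :=
    sum_nonneg fun _ _ => by positivity
  have h1 : ((∑ x ∈ Icc (1 : ℤ) Y, ‖∑ y ∈ Icc (1 : ℤ) Y,
      e (∑ j ∈ Icc 1 k, a j * ((x : ℝ) ^ j * (y : ℝ) ^ j))‖ ^ (2 * s) : ℝ) : ℂ) =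
      ∑ z ∈ Tup s Y ×ˢ Tup s Y, ∑ x ∈ Icc (1 : ℤ) Y,
        e (∑ i : Fin k, a ((i : ℕ) + 1) * V5phi k z i * (x : ℝ) ^ ((i : ℕ) + 1)) := by
    rw [sum_comm, Complex.ofReal_sum]
    refine sum_congr rfl fun x _ => ?_
    rw [V5_abs (fun y : ℤ => ∑ j ∈ Icc 1 k, a j * ((x : ℝ) ^ j * (y : ℝ) ^ j))]
    refine sum_congr rfl fun z _ => ?_
    congr 1
    rw [sum_comm, sum_comm (s := univ) (t := Icc 1 k), ← sum_sub_distrib, V5_sum]
    refine sum_congr rfl fun i _ => ?_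
    rw [← mul_sum, ← mul_sum, ← mul_sum, ← mul_sum]
    unfold V5phi
    push_cast
    ring
  have h2 := congrArg norm h1
  rw [Complex.norm_real, Real.norm_eq_abs, abs_of_nonneg h0] at h2
  rw [h2]
  exact norm_sum_le _ _

theorem V5_stepC :
    ∑ lam ∈ V5box k s Y, V5G k Y a lam ^ (2 * s) ≤
    (J k s Y : ℝ) * ∏ j ∈ Icc 1 k, ∑ m ∈ Icc (-(s * Y ^ j : ℤ)) (s * Y ^ j),
        ‖∑ n ∈ Icc (-(s * Y ^ j : ℤ)) (s * Y ^ j), e (a j * ((m : ℝ) * n))‖ := by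
  have h0 : 0 ≤ ∑ lam ∈ V5box k s Y, V5G k Y a lam ^ (2 * s) :=
    sum_nonneg fun _ _ => by unfold V5G; positivity
  have h1 : ((∑ lam ∈ V5box k s Y, V5G k Y a lam ^ (2 * s) : ℝ) : ℂ) =
      ∑ mu ∈ V5box k s Y, (V5r k s Y mu : ℂ) *
        ∏ i : Fin k, ∑ n ∈ Icc (-(s * Y ^ ((i : ℕ) + 1) : ℤ)) (s * Y ^ ((i : ℕ) + 1)),
          e (a ((i : ℕ) + 1) * ((mu i : ℝ) * n)) := by
    rw [Complex.ofReal_sum]
    have h2 : ∀ lam : Fin k → ℤ, ((V5G k Y a lam ^ (2 * s) : ℝ) : ℂ) =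
        ∑ mu ∈ V5box k s Y, (V5r k s Y mu : ℂ) *
          e (∑ i : Fin k, a ((i : ℕ) + 1) * ((mu i : ℝ) * lam i)) := by
      intro lam
      unfold V5G
      rw [V5_abs (fun x : ℤ => ∑ i : Fin k, a ((i : ℕ) + 1) * lam i * (x : ℝ) ^ ((i : ℕ) + 1)),
        ← V5_fib k s Y (fun mu => e (∑ i : Fin k, a ((i : ℕ) + 1) * ((mu i : ℝ) * lam i)))]
      refine sum_congr rfl fun z _ => ?_
      congr 1
      rw [sum_comm, sum_comm (s := univ) (t := (univ : Finset (Fin k))), ← sum_sub_distrib]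
      refine sum_congr rfl fun i _ => ?_
      rw [← mul_sum, ← mul_sum]
      unfold V5phi
      push_cast
      ring
    rw [sum_congr rfl fun lam _ => h2 lam, sum_comm]
    refine sum_congr rfl fun mu _ => ?_
    rw [← mul_sum]
    congr 1
    rw [Finset.prod_univ_sum]
    refine sum_congr rfl fun lam _ => ?_
    rw [e_sum]
  have h3 := congrArg norm h1
  rw [Complex.norm_real, Real.norm_eq_abs, abs_of_nonneg h0] at h3
  rw [h3]
  refine (norm_sum_le _ _).trans ?_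
  rw [V5_prod k (fun j => ∑ m ∈ Icc (-(s * Y ^ j : ℤ)) (s * Y ^ j),
        ‖∑ n ∈ Icc (-(s * Y ^ j : ℤ)) (s * Y ^ j), e (a j * ((m : ℝ) * n))‖),
    Finset.prod_univ_sum, mul_sum]
  refine sum_le_sum fun mu _ => ?_
  rw [norm_mul, norm_prod, Complex.norm_natCast]
  have := V5_r_le k s Y mu
  gcongr

theorem V5_stepB (hs : 1 ≤ s) :
    (∑ z ∈ Tup s Y ×ˢ Tup s Y, V5G k Y a (V5phi k z)) ^ (2 * s) ≤
      (Y : ℝ) ^ (2 * s * (2 * s - 1)) * (J k s Y : ℝ) *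
        ∑ lam ∈ V5box k s Y, V5G k Y a lam ^ (2 * s) := by
  obtain ⟨s, rfl⟩ : ∃ s', s = s' + 1 := ⟨s - 1, by omega⟩
  set Z := Tup (s + 1) Y ×ˢ Tup (s + 1) Y with hZ
  have hG : ∀ lam, 0 ≤ V5G k Y a lam := fun lam => norm_nonneg _
  have hcard : (Z.card : ℝ) = (Y : ℝ) ^ (2 * (s + 1)) := by
    rw [hZ, card_product, V5_cardTup]
    push_cast
    rw [← pow_add]
    congr 1
    ring
  rcases Nat.eq_zero_or_pos Z.card with h0 | h0
  · have : Z = ∅ := card_eq_zero.1 h0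
    rw [this, sum_empty, zero_pow (by omega)]
    have := fun lam (_ : lam ∈ V5box k (s + 1) Y) =>
      pow_nonneg (hG lam) (2 * (s + 1))
    have := sum_nonneg this
    positivity
  have hc : (0 : ℝ) < Z.card := by exact_mod_cast h0
  have h1 : (∑ z ∈ Z, V5G k Y a (V5phi k z)) ^ (s + 1) ≤
      (Z.card : ℝ) ^ s * ∑ z ∈ Z, V5G k Y a (V5phi k z) ^ (s + 1) := by
    have h := pow_sum_div_card_le_sum_pow (s := Z) (f := fun z => V5G k Y a (V5phi k z))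
      (fun z _ => hG _) s
    rw [div_le_iff₀ (by positivity)] at h
    linarith
  have h2 : (∑ z ∈ Z, V5G k Y a (V5phi k z) ^ (s + 1)) ^ 2 ≤
      ((J k (s + 1) Y : ℝ) * Z.card) *
        ∑ lam ∈ V5box k (s + 1) Y, V5G k Y a lam ^ (2 * (s + 1)) := by
    rw [V5_fib k (s + 1) Y (fun lam => V5G k Y a lam ^ (s + 1))]
    refine (sum_mul_sq_le_sq_mul_sq _ _ _).trans ?_
    have h3 : ∑ lam ∈ V5box k (s + 1) Y, (V5r k (s + 1) Y lam : ℝ) ^ 2 ≤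
        (J k (s + 1) Y : ℝ) * Z.card := by
      have h4 : (Z.card : ℝ) = ∑ lam ∈ V5box k (s + 1) Y, (V5r k (s + 1) Y lam : ℝ) := by
        have := V5_fib (β := ℝ) k (s + 1) Y (fun _ => 1)
        simp only [sum_const, nsmul_eq_mul, mul_one] at this
        exact this
      rw [h4, mul_sum]
      refine sum_le_sum fun lam _ => ?_
      rw [sq]
      have := V5_r_le k (s + 1) Y lam
      gcongr
    have h5 : ∑ lam ∈ V5box k (s + 1) Y, (V5G k Y a lam ^ (s + 1)) ^ 2 =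
        ∑ lam ∈ V5box k (s + 1) Y, V5G k Y a lam ^ (2 * (s + 1)) :=
      sum_congr rfl fun lam _ => by rw [← pow_mul, mul_comm]
    rw [h5]
    have := fun lam (_ : lam ∈ V5box k (s + 1) Y) =>
      pow_nonneg (hG lam) (2 * (s + 1))
    have := sum_nonneg this
    gcongr
  have hS : 0 ≤ ∑ z ∈ Z, V5G k Y a (V5phi k z) := sum_nonneg fun z _ => hG _
  calc (∑ z ∈ Z, V5G k Y a (V5phi k z)) ^ (2 * (s + 1))
      = ((∑ z ∈ Z, V5G k Y a (V5phi k z)) ^ (s + 1)) ^ 2 := by rw [← pow_mul, mul_comm]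
    _ ≤ ((Z.card : ℝ) ^ s * ∑ z ∈ Z, V5G k Y a (V5phi k z) ^ (s + 1)) ^ 2 := by gcongr
    _ = ((Z.card : ℝ) ^ s) ^ 2 * (∑ z ∈ Z, V5G k Y a (V5phi k z) ^ (s + 1)) ^ 2 := mul_pow _ _ _
    _ ≤ ((Z.card : ℝ) ^ s) ^ 2 * (((J k (s + 1) Y : ℝ) * Z.card) *
        ∑ lam ∈ V5box k (s + 1) Y, V5G k Y a lam ^ (2 * (s + 1))) := by gcongr
    _ = (Z.card : ℝ) ^ (2 * s + 1) * (J k (s + 1) Y : ℝ) *
        ∑ lam ∈ V5box k (s + 1) Y, V5G k Y a lam ^ (2 * (s + 1)) := by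
      rw [← pow_mul, mul_comm s 2, pow_succ]
      ring
    _ = (Y : ℝ) ^ (2 * (s + 1) * (2 * (s + 1) - 1)) * (J k (s + 1) Y : ℝ) *
        ∑ lam ∈ V5box k (s + 1) Y, V5G k Y a lam ^ (2 * (s + 1)) := by
      rw [hcard, ← pow_mul]
      congr 3

end main

/-- ROW V5 -/
theorem bilinear : Bilinear := by
  intro k s Y a hs hY
  have hY' : (0 : ℝ) < Y := by exact_mod_cast hY
  set T := ∑ x ∈ Icc 1 Y, ∑ y ∈ Icc 1 Y, e (∑ j ∈ Icc 1 k, a j * ((x : ℝ) ^ j * (y : ℝ) ^ j))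
    with hT
  set f : ℤ → ℝ := fun x => ‖∑ y ∈ Icc (1 : ℤ) Y,
    e (∑ j ∈ Icc 1 k, a j * ((x : ℝ) ^ j * (y : ℝ) ^ j))‖ with hf
  have h1 : ‖T‖ ≤ ∑ x ∈ Icc (1 : ℤ) Y, f x := by
    have h2 : T = ∑ x ∈ Icc (1 : ℤ) Y, ∑ y ∈ Icc (1 : ℤ) Y,
        e (∑ j ∈ Icc 1 k, a j * ((x : ℝ) ^ j * (y : ℝ) ^ j)) := by
      rw [hT, ← V5_cast Y (fun x : ℤ => ∑ y ∈ Icc (1 : ℤ) Y,
        e (∑ j ∈ Icc 1 k, a j * ((x : ℝ) ^ j * (y : ℝ) ^ j)))]
      refine sum_congr rfl fun x _ => ?_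
      rw [← V5_cast Y (fun y : ℤ => e (∑ j ∈ Icc 1 k, a j * ((((x : ℕ) : ℤ) : ℝ) ^ j * (y : ℝ) ^ j)))]
      refine sum_congr rfl fun y _ => ?_
      push_cast
      rfl
    rw [h2]
    exact norm_sum_le _ _
  have hf0 : ∀ x, 0 ≤ f x := fun x => norm_nonneg _
  have h3 : (∑ x ∈ Icc (1 : ℤ) Y, f x) ^ (2 * s) ≤
      (Y : ℝ) ^ (2 * s - 1) * ∑ x ∈ Icc (1 : ℤ) Y, f x ^ (2 * s) := by
    have h := pow_sum_div_card_le_sum_pow (s := Icc (1 : ℤ) Y) (f := f)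
      (fun x _ => hf0 x) (2 * s - 1)
    have hc : (Icc (1 : ℤ) (Y : ℤ)).card = Y := by simp
    rw [hc, div_le_iff₀ (by positivity), show 2 * s - 1 + 1 = 2 * s by omega] at h
    linarith
  have h4 := V5_stepA k s Y a
  have h5 := V5_stepB k s Y a hs
  have h6 := V5_stepC k s Y a
  set S := ∑ z ∈ Tup s Y ×ˢ Tup s Y, V5G k Y a (V5phi k z) with hS
  have hS0 : 0 ≤ S := sum_nonneg fun z _ => norm_nonneg _
  set W := ∏ j ∈ Icc 1 k, ∑ m ∈ Icc (-(s * Y ^ j : ℤ)) (s * Y ^ j),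
        ‖∑ n ∈ Icc (-(s * Y ^ j : ℤ)) (s * Y ^ j), e (a j * ((m : ℝ) * n))‖ with hW
  have h7 : ‖T‖ ^ (2 * s) ≤ (Y : ℝ) ^ (2 * s - 1) * S := by
    calc ‖T‖ ^ (2 * s) ≤ (∑ x ∈ Icc (1 : ℤ) Y, f x) ^ (2 * s) := by gcongr
      _ ≤ (Y : ℝ) ^ (2 * s - 1) * ∑ x ∈ Icc (1 : ℤ) Y, f x ^ (2 * s) := h3
      _ ≤ (Y : ℝ) ^ (2 * s - 1) * S := by gcongr
  calc ‖T‖ ^ (4 * s ^ 2) = (‖T‖ ^ (2 * s)) ^ (2 * s) := by
        rw [← pow_mul]
        congr 1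
        ring
    _ ≤ ((Y : ℝ) ^ (2 * s - 1) * S) ^ (2 * s) := by gcongr
    _ = (Y : ℝ) ^ ((2 * s - 1) * (2 * s)) * S ^ (2 * s) := by rw [mul_pow, ← pow_mul]
    _ ≤ (Y : ℝ) ^ ((2 * s - 1) * (2 * s)) * ((Y : ℝ) ^ (2 * s * (2 * s - 1)) * (J k s Y : ℝ) *
        ((J k s Y : ℝ) * W)) := by gcongr; exact h5.trans (by gcongr)
    _ = (Y : ℝ) ^ ((2 * s - 1) * (2 * s) + 2 * s * (2 * s - 1)) * (J k s Y : ℝ) ^ 2 * W := by
        rw [pow_add]
        ring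
    _ = (Y : ℝ) ^ (8 * s ^ 2 - 4 * s) * (J k s Y : ℝ) ^ 2 * W := by
        congr 3
        obtain ⟨s, rfl⟩ : ∃ s', s = s' + 1 := ⟨s - 1, by omega⟩
        have h8 : 2 * (s + 1) - 1 = 2 * s + 1 := by omega
        rw [h8]
        have h9 : 8 * (s + 1) ^ 2 = ((2 * s + 1) * (2 * (s + 1)) + 2 * (s + 1) * (2 * s + 1)) +
          4 * (s + 1) := by ring
        omega

end Pool.Agent.VMV
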