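import Mathlib
import Pool.Agent.Lib.VMV.Defs

/-! # Row V6: interface between V6p (the product, helper24) and V6b (helper4). -/

set_option autoImplicit false

namespace Pool.Agent.VMV

open Finset

noncomputable section

/-- ROW V6p (saving in the product of the factors of `Bilinear`), helper24's form. -/
def WProd : Prop := ∃ C : ℝ, 1 ≤ C ∧ ∀ (N n Y k s : ℕ) (κ t : ℝ) (a : ℕ → ℝ), 1 ≤ κ →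
  t = (N : ℝ) ^ κ → N ≤ n → n ≤ 2 * N → (Y : ℝ) ≤ (N : ℝ) ^ (1 / 3 : ℝ) →
  (N : ℝ) ^ (1 / 3 : ℝ) ≤ 2 * Y → 3 * κ + 2 ≤ k → k ≤ 3 * κ + 4 → 1 ≤ s →
  (s : ℝ) ≤ 8 * k ^ 2 → (∀ j : ℕ, 1 ≤ j → |a j| = t / (2 * Real.pi * j * (n : ℝ) ^ j)) →
  C * κ ^ 4 ≤ Real.log N →
  ∏ j ∈ Finset.Icc 1 k, (∑ m ∈ Finset.Icc (-(s * Y ^ j : ℤ)) (s * Y ^ j),
    ‖∑ n ∈ Finset.Icc (-(s * Y ^ j : ℤ)) (s * Y ^ j), e (a j * ((m : ℝ) * n))‖) ≤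
    (9 * (s : ℝ) ^ 2) ^ k * (Y : ℝ) ^ (k * (k + 1)) * (N : ℝ) ^ (-(κ ^ 2 / 20))

end

end Pool.Agent.VMV
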