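import Mathlib
import Pool.Agent.Lib.VMV.Defs
import Pool.Agent.Lib.VMV.V6Defs

/-! # Row V6b: the sum `∑ n^{it}` from the mean value theorem.  helper4. -/

set_option autoImplicit false

namespace Pool.Agent.VMV

open Finset

noncomputable section

/-! ## Shifts -/

theorem shift_tel (g : ℕ → ℂ) (N M : ℕ) (h : N ≤ M) :
    ∑ n ∈ Finset.Ioc N M, (g (n + 1) - g n) = g (M + 1) - g (N + 1) := by
  induction M, h using Nat.le_induction with
  | base => simp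
  | succ M hM ih =>
    rw [Finset.sum_Ioc_succ_top (by omega), ih]
    ring

theorem shift_le (f : ℕ → ℂ) (hf : ∀ n, ‖f n‖ ≤ 1) (N M r : ℕ) (h : N ≤ M) :
    ‖∑ n ∈ Finset.Ioc N M, f n - ∑ n ∈ Finset.Ioc N M, f (n + r)‖ ≤ 2 * r := by
  induction r with
  | zero => simp
  | succ r ih =>
    have h1 : ∑ n ∈ Finset.Ioc N M, f n - ∑ n ∈ Finset.Ioc N M, f (n + (r + 1)) =
        (∑ n ∈ Finset.Ioc N M, f n - ∑ n ∈ Finset.Ioc N M, f (n + r)) -
          (f (M + 1 + r) - f (N + 1 + r)) := by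
      have h2 := shift_tel (fun n => f (n + r)) N M h
      simp only [Finset.sum_sub_distrib] at h2
      have h3 : ∀ n, f (n + (r + 1)) = f (n + 1 + r) := fun n => by congr 1; omega
      simp only [h3]
      rw [← h2]
      ring
    rw [h1]
    have h4 := norm_sub_le (∑ n ∈ Finset.Ioc N M, f n - ∑ n ∈ Finset.Ioc N M, f (n + r))
      (f (M + 1 + r) - f (N + 1 + r))
    have h5 := norm_sub_le (f (M + 1 + r)) (f (N + 1 + r))
    have h6 := hf (M + 1 + r)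
    have h7 := hf (N + 1 + r)
    push_cast
    linarith

theorem avg_le (f : ℕ → ℂ) (hf : ∀ n, ‖f n‖ ≤ 1) (N M Y : ℕ) (h : N ≤ M) :
    (Y : ℝ) ^ 2 * ‖∑ n ∈ Finset.Ioc N M, f n‖ ≤
      ∑ n ∈ Finset.Ioc N M, ‖∑ x ∈ Finset.Icc 1 Y, ∑ y ∈ Finset.Icc 1 Y, f (n + x * y)‖ +
        2 * (Y : ℝ) ^ 4 := by
  have h1 : ((Y : ℂ) ^ 2) * ∑ n ∈ Finset.Ioc N M, f n =
      ∑ n ∈ Finset.Ioc N M, (∑ x ∈ Finset.Icc 1 Y, ∑ y ∈ Finset.Icc 1 Y, f (n + x * y)) +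
      ∑ x ∈ Finset.Icc 1 Y, ∑ y ∈ Finset.Icc 1 Y,
        (∑ n ∈ Finset.Ioc N M, f n - ∑ n ∈ Finset.Ioc N M, f (n + x * y)) := by
    have h2 : ∑ n ∈ Finset.Ioc N M, (∑ x ∈ Finset.Icc 1 Y, ∑ y ∈ Finset.Icc 1 Y, f (n + x * y)) =
        ∑ x ∈ Finset.Icc 1 Y, ∑ y ∈ Finset.Icc 1 Y, ∑ n ∈ Finset.Ioc N M, f (n + x * y) := by
      rw [Finset.sum_comm]
      refine Finset.sum_congr rfl fun x _ => ?_
      rw [Finset.sum_comm]
    rw [h2, ← Finset.sum_add_distrib]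
    have h3 : ∀ x ∈ Finset.Icc 1 Y, (∑ y ∈ Finset.Icc 1 Y, ∑ n ∈ Finset.Ioc N M, f (n + x * y)) +
        (∑ y ∈ Finset.Icc 1 Y,
          (∑ n ∈ Finset.Ioc N M, f n - ∑ n ∈ Finset.Ioc N M, f (n + x * y))) =
        (Y : ℂ) * ∑ n ∈ Finset.Ioc N M, f n := by
      intro x _
      rw [← Finset.sum_add_distrib]
      simp
    rw [Finset.sum_congr rfl h3]
    simp
    ring
  have h4 : (Y : ℝ) ^ 2 * ‖∑ n ∈ Finset.Ioc N M, f n‖ =
      ‖((Y : ℂ) ^ 2) * ∑ n ∈ Finset.Ioc N M, f n‖ := by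
    rw [norm_mul]; simp
  rw [h4, h1]
  refine (norm_add_le _ _).trans (add_le_add (norm_sum_le _ _) ?_)
  refine (norm_sum_le _ _).trans ?_
  calc ∑ x ∈ Finset.Icc 1 Y, ‖∑ y ∈ Finset.Icc 1 Y,
        (∑ n ∈ Finset.Ioc N M, f n - ∑ n ∈ Finset.Ioc N M, f (n + x * y))‖
      ≤ ∑ x ∈ Finset.Icc 1 Y, ∑ y ∈ Finset.Icc 1 Y, (2 * (Y : ℝ) ^ 2) := by
        refine Finset.sum_le_sum fun x hx => (norm_sum_le _ _).trans
          (Finset.sum_le_sum fun y hy => (shift_le f hf N M (x * y) h).trans ?_)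
        have hx' := (Finset.mem_Icc.1 hx).2
        have hy' := (Finset.mem_Icc.1 hy).2
        have : ((x * y : ℕ) : ℝ) ≤ (Y : ℝ) ^ 2 := by
          have : x * y ≤ Y * Y := Nat.mul_le_mul hx' hy'
          calc ((x * y : ℕ) : ℝ) ≤ ((Y * Y : ℕ) : ℝ) := by exact_mod_cast this
            _ = (Y : ℝ) ^ 2 := by push_cast; ring
        linarith
    _ = 2 * (Y : ℝ) ^ 4 := by
        simp
        ring

/-! ## Taylor -/

theorem norm_exp_sub (u v : ℝ) :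
    ‖Complex.exp ((u : ℂ) * Complex.I) - Complex.exp ((v : ℂ) * Complex.I)‖ ≤ |u - v| := by
  have h1 : Complex.exp ((u : ℂ) * Complex.I) - Complex.exp ((v : ℂ) * Complex.I) =
      Complex.exp ((v : ℂ) * Complex.I) * (Complex.exp (Complex.I * ((u - v : ℝ) : ℂ)) - 1) := by
    rw [mul_sub, mul_one, ← Complex.exp_add]
    congr 2
    push_cast
    ring
  rw [h1, norm_mul, Complex.norm_exp_ofReal_mul_I, one_mul]
  exact Real.norm_exp_I_mul_ofReal_sub_one_le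

/-- the coefficients of the Taylor polynomial. -/
def al (t : ℝ) (n j : ℕ) : ℝ := (-1) ^ (j + 1) * (t / (2 * Real.pi * j * (n : ℝ) ^ j))

theorem abs_al (t : ℝ) (ht : 0 ≤ t) (n j : ℕ) : |al t n j| = t / (2 * Real.pi * j * (n : ℝ) ^ j) := by
  unfold al
  rw [abs_mul, abs_pow, abs_neg, abs_one, one_pow, one_mul, abs_of_nonneg]
  have := Real.pi_pos
  positivity

theorem taylor (t : ℝ) (ht : 0 ≤ t) (n x y k : ℕ) (hn : 1 ≤ n)
    (hz : (x * y : ℝ) / n ≤ 1 / 2) :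
    ‖Complex.exp (((t * Real.log ((n + x * y : ℕ) : ℝ) : ℝ)) * Complex.I) -
      Complex.exp (((t * Real.log (n : ℝ) : ℝ)) * Complex.I) *
        e (∑ j ∈ Finset.Icc 1 k, al t n j * ((x : ℝ) ^ j * (y : ℝ) ^ j))‖ ≤
      2 * t * ((x * y : ℝ) / n) ^ (k + 1) := by
  have hn0 : (0 : ℝ) < n := by exact_mod_cast hn
  set z : ℝ := (x * y : ℝ) / n with hzd
  have hz0 : 0 ≤ z := by positivity
  have h1 : Real.log ((n + x * y : ℕ) : ℝ) = Real.log (n : ℝ) + Real.log (1 + z) := by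
    rw [← Real.log_mul hn0.ne' (by positivity)]
    congr 1
    rw [hzd]
    push_cast
    field_simp
  have h2 : 2 * Real.pi * ∑ j ∈ Finset.Icc 1 k, al t n j * ((x : ℝ) ^ j * (y : ℝ) ^ j) =
      - t * ∑ i ∈ Finset.range k, (-z) ^ (i + 1) / ((i : ℝ) + 1) := by
    rw [Finset.mul_sum, Finset.mul_sum]
    rw [show Finset.Icc 1 k = Finset.image (fun i => i + 1) (Finset.range k) by
      ext j
      simp only [Finset.mem_Icc, Finset.mem_image, Finset.mem_range]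
      constructor
      · rintro ⟨h1, h2⟩; exact ⟨j - 1, by omega, by omega⟩
      · rintro ⟨i, hi, rfl⟩; omega]
    rw [Finset.sum_image (by intro a _ b _ h; simpa using h)]
    refine Finset.sum_congr rfl fun i _ => ?_
    unfold al
    rw [hzd]
    have hpi := Real.pi_pos.ne'
    have hi : ((i : ℝ) + 1) ≠ 0 := by positivity
    push_cast
    have hneg : (-((x : ℝ) * y / n)) ^ (i + 1) = (-1) ^ (i + 1) * ((x : ℝ) ^ (i + 1) *
        (y : ℝ) ^ (i + 1) / (n : ℝ) ^ (i + 1)) := by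
      rw [show (-((x : ℝ) * y / n)) = (-1) * ((x : ℝ) * y / n) by ring, mul_pow, div_pow, mul_pow]
    rw [hneg, pow_succ (-1 : ℝ) (i + 1)]
    field_simp
  have h3 : Complex.exp (((t * Real.log (n : ℝ) : ℝ)) * Complex.I) *
        e (∑ j ∈ Finset.Icc 1 k, al t n j * ((x : ℝ) ^ j * (y : ℝ) ^ j)) =
      Complex.exp (((t * Real.log (n : ℝ) -
        t * ∑ i ∈ Finset.range k, (-z) ^ (i + 1) / ((i : ℝ) + 1) : ℝ)) * Complex.I) := by
    unfold e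
    rw [h2, ← Complex.exp_add]
    congr 1
    push_cast
    ring
  rw [h3]
  refine (norm_exp_sub _ _).trans ?_
  rw [h1]
  have h4 := Real.abs_log_sub_add_sum_range_le (x := -z) (by rw [abs_neg, abs_of_nonneg hz0]; linarith) k
  rw [abs_neg, abs_of_nonneg hz0, sub_neg_eq_add] at h4
  have h5 : t * (Real.log (n : ℝ) + Real.log (1 + z)) - (t * Real.log (n : ℝ) -
      t * ∑ i ∈ Finset.range k, (-z) ^ (i + 1) / ((i : ℝ) + 1)) =
      t * ((∑ i ∈ Finset.range k, (-z) ^ (i + 1) / ((i : ℝ) + 1)) + Real.log (1 + z)) := by ring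
  rw [h5, abs_mul, abs_of_nonneg ht]
  have h6 : z ^ (k + 1) / (1 - z) ≤ 2 * z ^ (k + 1) := by
    rw [div_le_iff₀ (by linarith)]
    have : 0 ≤ z ^ (k + 1) := by positivity
    nlinarith
  calc t * |(∑ i ∈ Finset.range k, (-z) ^ (i + 1) / ((i : ℝ) + 1)) + Real.log (1 + z)|
      ≤ t * (2 * z ^ (k + 1)) := mul_le_mul_of_nonneg_left (h4.trans h6) ht
    _ = 2 * t * z ^ (k + 1) := by ring

/-! ## The main bound -/

theorem exp_neg8 : Real.exp (-8) ≤ 36 / 100000 := by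
  have h1 : Real.exp (-8) = (Real.exp 1)⁻¹ ^ 8 := by
    rw [← Real.exp_neg, ← Real.exp_nat_mul]; norm_num
  rw [h1]
  have h2 : (Real.exp 1)⁻¹ ≤ 1 / 2.7182818283 := by
    rw [one_div]
    exact inv_anti₀ (by norm_num) Real.exp_one_gt_d9.le
  have h3 : 0 ≤ (Real.exp 1)⁻¹ := by positivity
  calc (Real.exp 1)⁻¹ ^ 8 ≤ (1 / 2.7182818283 : ℝ) ^ 8 := pow_le_pow_left₀ h3 h2 8
    _ ≤ 36 / 100000 := by norm_num

theorem eta_le (k : ℕ) (hk : 1 ≤ k) : (1 - 1 / (k : ℝ)) ^ (8 * k) ≤ 36 / 100000 := by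
  have hk0 : (1 : ℝ) ≤ k := by exact_mod_cast hk
  have h0 : 0 ≤ 1 - 1 / (k : ℝ) := by
    rw [sub_nonneg, div_le_one (by linarith)]; exact hk0
  have h1 : 1 - 1 / (k : ℝ) ≤ Real.exp (-(1 / (k : ℝ))) := by
    have := Real.add_one_le_exp (-(1 / (k : ℝ)))
    linarith
  calc (1 - 1 / (k : ℝ)) ^ (8 * k) ≤ (Real.exp (-(1 / (k : ℝ)))) ^ (8 * k) :=
        pow_le_pow_left₀ h0 h1 _
    _ = Real.exp (-8) := by
        rw [← Real.exp_nat_mul]
        congr 1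
        push_cast
        field_simp
    _ ≤ 36 / 100000 := exp_neg8

/-- the bound for the bilinear sums. -/
theorem bil_bound (h4 : VMVT) (h5 : Bilinear) (h6 : WProd) : ∃ C : ℝ, 1 ≤ C ∧
    ∀ (N n Y k : ℕ) (κ t : ℝ), 1 ≤ κ → t = (N : ℝ) ^ κ → N ≤ n → n ≤ 2 * N →
      (Y : ℝ) ≤ (N : ℝ) ^ (1 / 3 : ℝ) → (N : ℝ) ^ (1 / 3 : ℝ) ≤ 2 * Y → 1 ≤ Y → 3 * κ + 2 ≤ k →
      k ≤ 3 * κ + 4 → C * κ ^ 4 ≤ Real.log N →
      ‖∑ x ∈ Finset.Icc 1 Y, ∑ y ∈ Finset.Icc 1 Y,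
        e (∑ j ∈ Finset.Icc 1 k, al t n j * ((x : ℝ) ^ j * (y : ℝ) ^ j))‖ ≤
      (Y : ℝ) ^ 2 * Real.exp (-(Real.log N / (40000000 * κ ^ 2))) := by
  obtain ⟨C0, hC0, hV⟩ := h4
  obtain ⟨C6, hC6, hW⟩ := h6
  refine ⟨C6 + 50 * (144 * C0 + 48) * 117649, by nlinarith, ?_⟩
  intro N n Y k κ t hκ ht hNn hn2 hY1 hY2 hY0 hk1 hk2 hL
  set L := Real.log (N : ℝ) with hLd
  have hκ4 : 1 ≤ κ ^ 4 := one_le_pow₀ hκ
  have hκ0 : 0 < κ := by linarith
  have hL1 : C6 * κ ^ 4 ≤ L := by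
    refine le_trans (mul_le_mul_of_nonneg_right ?_ (by positivity)) hL
    nlinarith
  have hL2 : 50 * (144 * C0 + 48) * 117649 * κ ^ 4 ≤ L := by
    refine le_trans (mul_le_mul_of_nonneg_right ?_ (by positivity)) hL
    linarith
  have hLpos : 0 < L := by nlinarith
  have hN1 : (1 : ℝ) < N := by
    by_contra hcon
    push Not at hcon
    have : L ≤ 0 := Real.log_nonpos (by positivity) hcon
    linarith
  have hN0 : (0 : ℝ) < N := by linarith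
  have hk7 : (k : ℝ) ≤ 7 * κ := by linarith
  have hkR : (5 : ℝ) ≤ k := by linarith
  have hk5 : 5 ≤ k := by exact_mod_cast hkR
  have hYr : (1 : ℝ) ≤ Y := by exact_mod_cast hY0
  have hYpos : (0 : ℝ) < Y := by linarith
  set s : ℕ := k * (8 * k) with hs
  have hs1 : 1 ≤ s := by rw [hs]; nlinarith
  have hsR : (s : ℝ) = 8 * (k : ℝ) ^ 2 := by rw [hs]; push_cast; ring
  -- inputs
  have hb := h5 k s Y (al t n) hs1 hY0
  have hv := hV k (8 * k) Y (by omega) hY0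
  rw [← hs] at hv
  have hw := hW N n Y k s κ t (al t n) hκ ht hNn hn2 hY1 hY2 hk1 hk2 hs1
    (by rw [hsR]) (fun j _ => abs_al t (by rw [ht]; positivity) n j) hL1
  set T := ‖∑ x ∈ Finset.Icc 1 Y, ∑ y ∈ Finset.Icc 1 Y,
        e (∑ j ∈ Finset.Icc 1 k, al t n j * ((x : ℝ) ^ j * (y : ℝ) ^ j))‖ with hT
  have hT0 : 0 ≤ T := norm_nonneg _
  set K : ℝ := (k : ℝ) * (k + 1) / 2 with hK
  set η : ℝ := K * (1 - 1 / (k : ℝ)) ^ (8 * k) with hη
  have hK0 : 0 ≤ K := by positivity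
  have h1k : 0 ≤ 1 - 1 / (k : ℝ) := by
    rw [sub_nonneg, div_le_one (by linarith)]; linarith
  have hη0 : 0 ≤ η := by positivity
  have hKle : K ≤ 28 * κ ^ 2 := by
    rw [hK]; nlinarith
  have hηle : 2 * η ≤ 3 / 100 * κ ^ 2 := by
    have h1 := eta_le k (by omega)
    have h2 : η ≤ K * (36 / 100000) := mul_le_mul_of_nonneg_left h1 hK0
    nlinarith [sq_nonneg κ]
  have hv' : (J k s Y : ℝ) ≤ Real.exp (72 * C0 * (k : ℝ) ^ 6) *
      (Y : ℝ) ^ (2 * (s : ℝ) - K + η) := by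
    refine hv.trans (le_of_eq ?_)
    congr 1
    · congr 1
      push_cast
      ring
    · congr 1
      rw [hsR, hη, hK]
      push_cast
      ring
  have hJ2 : (J k s Y : ℝ) ^ 2 ≤ Real.exp (144 * C0 * (k : ℝ) ^ 6) *
      (Y : ℝ) ^ (4 * (s : ℝ) - 2 * K + 2 * η) := by
    calc (J k s Y : ℝ) ^ 2 ≤ (Real.exp (72 * C0 * (k : ℝ) ^ 6) *
      (Y : ℝ) ^ (2 * (s : ℝ) - K + η)) ^ 2 := pow_le_pow_left₀ (by positivity) hv' 2
      _ = _ := by
        rw [mul_pow, ← Real.exp_nat_mul, ← Real.rpow_natCast ((Y : ℝ) ^ _), ← Real.rpow_mul hYpos.le]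
        congr 1
        · congr 1; push_cast; ring
        · congr 1; push_cast; ring
  -- the constants
  have hc9 : (9 * (s : ℝ) ^ 2) ^ k ≤ Real.exp (48 * (k : ℝ) ^ 6) := by
    have h1 : 9 * (s : ℝ) ^ 2 = (24 * (k : ℝ) ^ 2) ^ 2 := by rw [hsR]; ring
    have h2 : 24 * (k : ℝ) ^ 2 ≤ Real.exp (24 * (k : ℝ) ^ 2) := by
      have := Real.add_one_le_exp (24 * (k : ℝ) ^ 2); linarith
    rw [h1, ← pow_mul]
    calc (24 * (k : ℝ) ^ 2) ^ (2 * k) ≤ (Real.exp (24 * (k : ℝ) ^ 2)) ^ (2 * k) :=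
          pow_le_pow_left₀ (by positivity) h2 _
      _ = Real.exp (48 * (k : ℝ) ^ 3) := by
          rw [← Real.exp_nat_mul]; congr 1; push_cast; ring
      _ ≤ Real.exp (48 * (k : ℝ) ^ 6) := by
          apply Real.exp_le_exp.2
          have : (k : ℝ) ^ 3 ≤ (k : ℝ) ^ 6 := pow_le_pow_right₀ (by linarith) (by norm_num)
          linarith
  have hYη : (Y : ℝ) ^ (2 * η) ≤ (N : ℝ) ^ (κ ^ 2 / 100) := by
    calc (Y : ℝ) ^ (2 * η) ≤ ((N : ℝ) ^ (1 / 3 : ℝ)) ^ (2 * η) :=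
          Real.rpow_le_rpow hYpos.le hY1 (by positivity)
      _ = (N : ℝ) ^ (1 / 3 * (2 * η)) := by rw [← Real.rpow_mul hN0.le]
      _ ≤ (N : ℝ) ^ (κ ^ 2 / 100) :=
          Real.rpow_le_rpow_of_exponent_le hN1.le (by nlinarith)
  -- assembling
  have hY8 : (Y : ℝ) ^ (8 * s ^ 2 - 4 * s) * (Y : ℝ) ^ (4 * (s : ℝ) - 2 * K + 2 * η) *
      (Y : ℝ) ^ (k * (k + 1)) = (Y : ℝ) ^ (8 * s ^ 2) * (Y : ℝ) ^ (2 * η) := by
    rw [← Real.rpow_natCast, ← Real.rpow_natCast (Y : ℝ) (k * (k + 1)),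
      ← Real.rpow_natCast (Y : ℝ) (8 * s ^ 2), ← Real.rpow_add hYpos, ← Real.rpow_add hYpos,
      ← Real.rpow_add hYpos]
    congr 1
    have h4s : 4 * s ≤ 8 * s ^ 2 := by nlinarith
    rw [Nat.cast_sub h4s]
    push_cast
    rw [hK]
    ring
  have hmain : T ^ (4 * s ^ 2) ≤ (Y : ℝ) ^ (8 * s ^ 2) *
      (Real.exp ((144 * C0 + 48) * (k : ℝ) ^ 6) * (N : ℝ) ^ (-(κ ^ 2 / 25))) := by
    have hP0 : 0 ≤ ∏ j ∈ Finset.Icc 1 k, (∑ m ∈ Finset.Icc (-(s * Y ^ j : ℤ)) (s * Y ^ j),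
        ‖∑ n' ∈ Finset.Icc (-(s * Y ^ j : ℤ)) (s * Y ^ j), e (al t n j * ((m : ℝ) * n'))‖) :=
      Finset.prod_nonneg fun j _ => Finset.sum_nonneg fun m _ => norm_nonneg _
    calc T ^ (4 * s ^ 2) ≤ _ := hb
      _ ≤ (Y : ℝ) ^ (8 * s ^ 2 - 4 * s) * (Real.exp (144 * C0 * (k : ℝ) ^ 6) *
          (Y : ℝ) ^ (4 * (s : ℝ) - 2 * K + 2 * η)) *
          ((9 * (s : ℝ) ^ 2) ^ k * (Y : ℝ) ^ (k * (k + 1)) * (N : ℝ) ^ (-(κ ^ 2 / 20))) := by
          gcongr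
      _ = ((Y : ℝ) ^ (8 * s ^ 2 - 4 * s) * (Y : ℝ) ^ (4 * (s : ℝ) - 2 * K + 2 * η) *
            (Y : ℝ) ^ (k * (k + 1))) * (Real.exp (144 * C0 * (k : ℝ) ^ 6) *
            (9 * (s : ℝ) ^ 2) ^ k * (N : ℝ) ^ (-(κ ^ 2 / 20))) := by ring
      _ = ((Y : ℝ) ^ (8 * s ^ 2) * (Y : ℝ) ^ (2 * η)) * (Real.exp (144 * C0 * (k : ℝ) ^ 6) *
            (9 * (s : ℝ) ^ 2) ^ k * (N : ℝ) ^ (-(κ ^ 2 / 20))) := by rw [hY8]
      _ ≤ ((Y : ℝ) ^ (8 * s ^ 2) * (N : ℝ) ^ (κ ^ 2 / 100)) *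
            (Real.exp (144 * C0 * (k : ℝ) ^ 6) *
            Real.exp (48 * (k : ℝ) ^ 6) * (N : ℝ) ^ (-(κ ^ 2 / 20))) := by
          gcongr
      _ = (Y : ℝ) ^ (8 * s ^ 2) * ((Real.exp (144 * C0 * (k : ℝ) ^ 6) *
            Real.exp (48 * (k : ℝ) ^ 6)) * ((N : ℝ) ^ (κ ^ 2 / 100) *
              (N : ℝ) ^ (-(κ ^ 2 / 20)))) := by ring
      _ = _ := by
          rw [← Real.exp_add, ← Real.rpow_add hN0]
          congr 3
          · ring
          · ring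
  have hk6 : (k : ℝ) ^ 6 ≤ 117649 * κ ^ 6 := by
    calc (k : ℝ) ^ 6 ≤ (7 * κ) ^ 6 := pow_le_pow_left₀ (by linarith) hk7 6
      _ = 117649 * κ ^ 6 := by ring
  have hexp : Real.exp ((144 * C0 + 48) * (k : ℝ) ^ 6) * (N : ℝ) ^ (-(κ ^ 2 / 25)) ≤
      Real.exp (-(κ ^ 2 * L / 50)) := by
    rw [Real.rpow_def_of_pos hN0, ← Real.exp_add]
    apply Real.exp_le_exp.2
    rw [← hLd]
    have h1 : (144 * C0 + 48) * (k : ℝ) ^ 6 ≤ (144 * C0 + 48) * (117649 * κ ^ 6) :=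
      mul_le_mul_of_nonneg_left hk6 (by linarith)
    have h2 : (144 * C0 + 48) * (117649 * κ ^ 6) ≤ κ ^ 2 * L / 50 := by
      have h3 := mul_le_mul_of_nonneg_left hL2 (sq_nonneg κ)
      nlinarith
    nlinarith
  have hs2 : (s : ℝ) ^ 2 ≤ 153664 * κ ^ 4 := by
    rw [hsR]
    have : (k : ℝ) ^ 4 ≤ (7 * κ) ^ 4 := pow_le_pow_left₀ (by linarith) hk7 4
    calc (8 * (k : ℝ) ^ 2) ^ 2 = 64 * (k : ℝ) ^ 4 := by ring
      _ ≤ 64 * (7 * κ) ^ 4 := by linarith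
      _ = 153664 * κ ^ 4 := by ring
  have hfin : T ^ (4 * s ^ 2) ≤ ((Y : ℝ) ^ 2 * Real.exp (-(L / (40000000 * κ ^ 2)))) ^ (4 * s ^ 2) := by
    refine hmain.trans ?_
    have hpw : ((Y : ℝ) ^ 2 * Real.exp (-(L / (40000000 * κ ^ 2)))) ^ (4 * s ^ 2) =
        (Y : ℝ) ^ (8 * s ^ 2) *
          Real.exp (((4 * s ^ 2 : ℕ) : ℝ) * -(L / (40000000 * κ ^ 2))) := by
      clear_value s
      rw [mul_pow ((Y : ℝ) ^ 2) _ (4 * s ^ 2), ← pow_mul (Y : ℝ) 2 (4 * s ^ 2),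
        ← Real.exp_nat_mul]
      congr 2
      ring
    rw [hpw]
    refine mul_le_mul_of_nonneg_left (hexp.trans (Real.exp_le_exp.2 ?_)) (by positivity)
    have h1 : ((4 * s ^ 2 : ℕ) : ℝ) * -(L / (40000000 * κ ^ 2)) =
        -((4 * (s : ℝ) ^ 2) * (L / (40000000 * κ ^ 2))) := by push_cast; ring
    rw [h1]
    apply neg_le_neg
    have h2 : (4 * (s : ℝ) ^ 2) * (L / (40000000 * κ ^ 2)) ≤
        (4 * (153664 * κ ^ 4)) * (L / (40000000 * κ ^ 2)) := by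
      gcongr
    refine h2.trans ?_
    rw [show (4 * (153664 * κ ^ 4)) * (L / (40000000 * κ ^ 2)) =
      (614656 / 40000000) * (κ ^ 2 * L) by field_simp; norm_num]
    have h3 : 0 ≤ κ ^ 2 * L := by positivity
    linarith
  exact le_of_pow_le_pow_left₀ (by positivity) (by positivity) hfin

theorem zsum (h4 : VMVT) (h5 : Bilinear) (h6 : WProd) : Zsum := by
  obtain ⟨C1, hC1, hB⟩ := bil_bound h4 h5 h6
  refine ⟨1 / 40000000, C1 + 10, by norm_num, by linarith, ?_⟩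
  intro N M t ht hNM hM2 hNt hL
  set L := Real.log (N : ℝ) with hLd
  set τ := Real.log t with hτd
  have hτ0 : 0 < τ := Real.log_pos (by linarith)
  have hτ45 : 0 < τ ^ (4 / 5 : ℝ) := Real.rpow_pos_of_pos hτ0 _
  have hL0 : 0 < L := by nlinarith
  have hN1 : (1 : ℝ) < N := by
    by_contra hcon
    push Not at hcon
    have : L ≤ 0 := Real.log_nonpos (by positivity) hcon
    linarith
  have hN0 : (0 : ℝ) < N := by linarith
  have ht0 : (0 : ℝ) < t := by linarith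
  set κ := τ / L with hκd
  have hLτ : L ≤ τ := Real.log_le_log hN0 hNt
  have hκ : 1 ≤ κ := by rw [hκd, one_le_div hL0]; exact hLτ
  have hκ0 : 0 < κ := by linarith
  have hτ : τ = κ * L := by rw [hκd]; field_simp
  have htN : t = (N : ℝ) ^ κ := by
    rw [Real.rpow_def_of_pos hN0, ← hLd, mul_comm, ← hτ, hτd, Real.exp_log ht0]
  have hCκ : (C1 + 10) * κ ^ 4 ≤ L := by
    have h1 : (C1 + 10) * (κ ^ (4 / 5 : ℝ) * L ^ (4 / 5 : ℝ)) ≤ L ^ (1 / 5 : ℝ) * L ^ (4 / 5 : ℝ) := by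
      rw [← Real.mul_rpow hκ0.le hL0.le, ← hτ, ← Real.rpow_add hL0]
      norm_num
      exact hL
    have hL45 : 0 < L ^ (4 / 5 : ℝ) := Real.rpow_pos_of_pos hL0 _
    have h2 : (C1 + 10) * κ ^ (4 / 5 : ℝ) ≤ L ^ (1 / 5 : ℝ) := by
      rw [← mul_assoc] at h1
      exact le_of_mul_le_mul_right h1 hL45
    have h3 : ((C1 + 10) * κ ^ (4 / 5 : ℝ)) ^ 5 ≤ (L ^ (1 / 5 : ℝ)) ^ 5 :=
      pow_le_pow_left₀ (by positivity) h2 5
    rw [mul_pow, ← Real.rpow_natCast (κ ^ (4 / 5 : ℝ)), ← Real.rpow_mul hκ0.le,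
      ← Real.rpow_natCast (L ^ (1 / 5 : ℝ)), ← Real.rpow_mul hL0.le] at h3
    norm_num at h3
    have h4 : C1 + 10 ≤ (C1 + 10) ^ 5 := by
      have h5 : (1 : ℝ) ≤ (C1 + 10) ^ 4 := one_le_pow₀ (by linarith)
      nlinarith
    calc (C1 + 10) * κ ^ 4 ≤ (C1 + 10) ^ 5 * κ ^ 4 := by gcongr
      _ ≤ L := by
        exact h3
  have hκ4 : 1 ≤ κ ^ 4 := one_le_pow₀ hκ
  have hL10 : 10 ≤ L := by nlinarith
  -- parameters
  set A : ℝ := (N : ℝ) ^ (1 / 3 : ℝ) with hA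
  have hA1 : 10 ≤ A := by
    rw [hA, Real.rpow_def_of_pos hN0, ← hLd]
    have h1 : Real.exp 3 ≤ Real.exp (L * (1 / 3)) := Real.exp_le_exp.2 (by linarith)
    have h2 : (10 : ℝ) ≤ Real.exp 3 := by
      have h3 : Real.exp 3 = Real.exp 1 ^ 3 := by rw [← Real.exp_nat_mul]; norm_num
      rw [h3]
      have := Real.exp_one_gt_d9
      calc (10 : ℝ) ≤ 2.7182818283 ^ 3 := by norm_num
        _ ≤ Real.exp 1 ^ 3 := pow_le_pow_left₀ (by norm_num) this.le 3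
    linarith
  have hA3 : A ^ 3 = N := by
    rw [hA, ← Real.rpow_natCast, ← Real.rpow_mul hN0.le]; norm_num
  set Y : ℕ := ⌊A⌋₊ with hYd
  have hY1 : (Y : ℝ) ≤ A := Nat.floor_le (by linarith)
  have hY2 : A ≤ 2 * Y := by
    have := Nat.lt_floor_add_one A
    linarith
  have hY0 : 1 ≤ Y := by
    rw [hYd, Nat.one_le_floor_iff]; linarith
  have hYr : (1 : ℝ) ≤ Y := by exact_mod_cast hY0
  set k : ℕ := ⌈3 * κ⌉₊ + 3 with hkd
  have hk1 : 3 * κ + 3 ≤ k := by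
    have := Nat.le_ceil (3 * κ)
    rw [hkd]; push_cast; linarith
  have hk2 : (k : ℝ) ≤ 3 * κ + 4 := by
    have := Nat.ceil_lt_add_one (a := 3 * κ) (by positivity)
    rw [hkd]; push_cast; linarith
  set f : ℕ → ℂ := fun n => Complex.exp (((t * Real.log n : ℝ)) * Complex.I) with hf
  have hf1 : ∀ n, ‖f n‖ ≤ 1 := fun n => by
    rw [hf]; simp only; rw [Complex.norm_exp_ofReal_mul_I]
  have havg := avg_le f hf1 N M Y hNM
  set δ : ℝ := Real.exp (-(L / (40000000 * κ ^ 2))) with hδ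
  have hδ0 : 0 < δ := Real.exp_pos _
  -- the pointwise bound
  have hpt : ∀ n ∈ Finset.Ioc N M,
      ‖∑ x ∈ Finset.Icc 1 Y, ∑ y ∈ Finset.Icc 1 Y, f (n + x * y)‖ ≤
        (Y : ℝ) ^ 2 * δ + (Y : ℝ) ^ 2 * (2 / A) := by
    intro n hn
    obtain ⟨hn1, hn2⟩ := Finset.mem_Ioc.1 hn
    have hnN : N ≤ n := hn1.le
    have hn2N : n ≤ 2 * N := by omega
    have hnr : (N : ℝ) ≤ n := by exact_mod_cast hnN
    have hn0 : (0 : ℝ) < n := by linarith
    have hb := hB N n Y k κ t hκ htN hnN hn2N hY1 hY2 hY0 (by linarith) hk2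
      (le_trans (mul_le_mul_of_nonneg_right (by linarith) (by positivity)) hCκ)
    have hzA : ∀ x ∈ Finset.Icc 1 Y, ∀ y ∈ Finset.Icc 1 Y, (x * y : ℝ) / n ≤ 1 / A := by
      intro x hx y hy
      have hx' : (x : ℝ) ≤ A := le_trans (by exact_mod_cast (Finset.mem_Icc.1 hx).2) hY1
      have hy' : (y : ℝ) ≤ A := le_trans (by exact_mod_cast (Finset.mem_Icc.1 hy).2) hY1
      rw [div_le_div_iff₀ hn0 (by linarith)]
      calc (x * y : ℝ) * A ≤ (A * A) * A := by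
            gcongr
        _ = N := by rw [← hA3]; ring
        _ ≤ 1 * n := by linarith
    have hsplit : ∑ x ∈ Finset.Icc 1 Y, ∑ y ∈ Finset.Icc 1 Y, f (n + x * y) =
        f n * ∑ x ∈ Finset.Icc 1 Y, ∑ y ∈ Finset.Icc 1 Y,
          e (∑ j ∈ Finset.Icc 1 k, al t n j * ((x : ℝ) ^ j * (y : ℝ) ^ j)) +
        ∑ x ∈ Finset.Icc 1 Y, ∑ y ∈ Finset.Icc 1 Y, (f (n + x * y) - f n *
          e (∑ j ∈ Finset.Icc 1 k, al t n j * ((x : ℝ) ^ j * (y : ℝ) ^ j))) := by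
      simp only [Finset.sum_sub_distrib, Finset.mul_sum]
      ring
    rw [hsplit]
    refine (norm_add_le _ _).trans (add_le_add ?_ ?_)
    · rw [norm_mul]
      calc ‖f n‖ * _ ≤ 1 * _ := mul_le_mul_of_nonneg_right (hf1 n) (norm_nonneg _)
        _ ≤ (Y : ℝ) ^ 2 * δ := by rw [one_mul]; exact hb
    · refine (norm_sum_le _ _).trans ?_
      calc ∑ x ∈ Finset.Icc 1 Y, ‖∑ y ∈ Finset.Icc 1 Y, (f (n + x * y) - f n *
            e (∑ j ∈ Finset.Icc 1 k, al t n j * ((x : ℝ) ^ j * (y : ℝ) ^ j)))‖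
          ≤ ∑ x ∈ Finset.Icc 1 Y, ∑ y ∈ Finset.Icc 1 Y, (2 / A) := by
            refine Finset.sum_le_sum fun x hx => (norm_sum_le _ _).trans
              (Finset.sum_le_sum fun y hy => ?_)
            have hz := hzA x hx y hy
            have hz0 : (0 : ℝ) ≤ (x * y : ℝ) / n := by positivity
            have hA10 : 1 / A ≤ 1 / 2 := by
              rw [div_le_div_iff₀ (by linarith) (by norm_num)]; linarith
            refine (taylor t ht0.le n x y k (by omega) (hz.trans hA10)).trans ?_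
            have h1 : ((x * y : ℝ) / n) ^ (k + 1) ≤ (1 / A) ^ (k + 1) :=
              pow_le_pow_left₀ hz0 hz _
            have h2 : t * (1 / A) ^ (k + 1) ≤ 1 / A := by
              have h3 : t ≤ A ^ k := by
                rw [htN, hA, ← Real.rpow_natCast, ← Real.rpow_mul hN0.le]
                exact Real.rpow_le_rpow_of_exponent_le hN1.le (by linarith)
              have hA0 : 0 < A := by linarith
              rw [pow_succ, one_div, inv_pow]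
              calc t * ((A ^ k)⁻¹ * A⁻¹) ≤ A ^ k * ((A ^ k)⁻¹ * A⁻¹) :=
                    mul_le_mul_of_nonneg_right h3 (by positivity)
                _ = A⁻¹ := by field_simp
            calc 2 * t * ((x * y : ℝ) / n) ^ (k + 1) ≤ 2 * t * (1 / A) ^ (k + 1) := by gcongr
              _ = 2 * (t * (1 / A) ^ (k + 1)) := by ring
              _ ≤ 2 * (1 / A) := by linarith
              _ = 2 / A := by ring
        _ = (Y : ℝ) ^ 2 * (2 / A) := by simp; ring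
  have hcard : ((Finset.Ioc N M).card : ℝ) ≤ N := by
    rw [Nat.card_Ioc]
    have : M - N ≤ N := by omega
    exact_mod_cast this
  have hsum : ∑ n ∈ Finset.Ioc N M, ‖∑ x ∈ Finset.Icc 1 Y, ∑ y ∈ Finset.Icc 1 Y, f (n + x * y)‖ ≤
      (N : ℝ) * ((Y : ℝ) ^ 2 * δ + (Y : ℝ) ^ 2 * (2 / A)) := by
    have hA0 : 0 < A := by linarith
    calc _ ≤ ∑ n ∈ Finset.Ioc N M, ((Y : ℝ) ^ 2 * δ + (Y : ℝ) ^ 2 * (2 / A)) :=
          Finset.sum_le_sum hpt
      _ = ((Finset.Ioc N M).card : ℝ) * ((Y : ℝ) ^ 2 * δ + (Y : ℝ) ^ 2 * (2 / A)) := by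
          rw [Finset.sum_const, nsmul_eq_mul]
      _ ≤ _ := by gcongr
  have hS : ‖∑ n ∈ Finset.Ioc N M, f n‖ ≤ N * δ + N * (2 / A) + 2 * (Y : ℝ) ^ 2 := by
    have hY2' : 0 < (Y : ℝ) ^ 2 := by positivity
    have h1 : (Y : ℝ) ^ 2 * ‖∑ n ∈ Finset.Ioc N M, f n‖ ≤
        (Y : ℝ) ^ 2 * (N * δ + N * (2 / A) + 2 * (Y : ℝ) ^ 2) := by
      refine havg.trans ?_
      nlinarith
    exact le_of_mul_le_mul_left h1 hY2'
  have hδA : 1 / A ≤ δ := by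
    rw [hδ, hA, one_div, ← Real.rpow_neg hN0.le, Real.rpow_def_of_pos hN0, ← hLd]
    apply Real.exp_le_exp.2
    have h1 : L / (40000000 * κ ^ 2) ≤ L / 3 := by
      apply div_le_div_of_nonneg_left hL0.le (by norm_num)
      nlinarith
    linarith
  have hNA : (N : ℝ) / A = A ^ 2 := by
    rw [← hA3]; field_simp
  have hfinal : ‖∑ n ∈ Finset.Ioc N M, f n‖ ≤ 5 * (N * δ) := by
    have h1 : N * (2 / A) = 2 * (N * (1 / A)) := by ring
    have h2 : N * (1 / A) ≤ N * δ := by gcongr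
    have h3 : (Y : ℝ) ^ 2 ≤ N * (1 / A) := by
      rw [mul_one_div, hNA]; exact pow_le_pow_left₀ (by linarith) hY1 2
    linarith
  have hgoal : Real.exp (-(1 / 40000000 * L ^ 3 / τ ^ 2)) = δ := by
    rw [hδ]
    congr 2
    rw [hτ]
    field_simp
  rw [hgoal]
  calc ‖∑ n ∈ Finset.Ioc N M, f n‖ ≤ 5 * (N * δ) := hfinal
    _ ≤ (C1 + 10) * N * δ := by
      have : 0 ≤ N * δ := by positivity
      nlinarith

end

end Pool.Agent.VMV
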