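import Mathlib
import Pool.Agent.Lib.VMV.Defs
import Pool.Agent.Lib.VMV.V6a

/-! # Row V6, the product of the sums `W_j`.  helper24. -/

set_option autoImplicit false

namespace Pool.Agent.VMV

open Finset

theorem V6p_prodY (Y : ℝ) (k : ℕ) : ∏ j ∈ Finset.Icc 1 k, Y ^ (2 * j) = Y ^ (k * (k + 1)) := by
  induction k with
  | zero => simp
  | succ k ih =>
    rw [Finset.prod_Icc_succ_top (by omega), ih, ← pow_add]
    congr 1
    ring

theorem V6p_exp {x : ℝ} (hx : 28800 ≤ x) : 2 * x ≤ 9 / 2 * Real.exp (x / 180) := by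
  have h := Real.quadratic_le_exp_of_nonneg (x := x / 180) (by positivity)
  nlinarith

theorem V6p_card {κ : ℝ} (hκ : 1 ≤ κ) {k : ℕ} (hk : 3 * κ + 2 ≤ k) :
    κ / 2 ≤ (((Finset.Icc 1 k).filter fun j : ℕ => 5 * κ / 3 ≤ j ∧ (j : ℝ) ≤ 8 * κ / 3).card : ℝ) := by
  have hsub : Finset.Icc ⌈5 * κ / 3⌉₊ ⌊8 * κ / 3⌋₊ ⊆
      (Finset.Icc 1 k).filter fun j : ℕ => 5 * κ / 3 ≤ j ∧ (j : ℝ) ≤ 8 * κ / 3 := by
    intro j hj
    rw [Finset.mem_Icc] at hj
    have h1 : 5 * κ / 3 ≤ j := (Nat.le_ceil _).trans (by exact_mod_cast hj.1)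
    have h2 : (j : ℝ) ≤ 8 * κ / 3 :=
      le_trans (by exact_mod_cast hj.2) (Nat.floor_le (by positivity))
    rw [Finset.mem_filter, Finset.mem_Icc]
    refine ⟨⟨?_, ?_⟩, h1, h2⟩
    · have : (0 : ℝ) < j := by linarith
      exact_mod_cast this
    · have : (j : ℝ) ≤ k := by linarith
      exact_mod_cast this
  have hc := Finset.card_le_card hsub
  rw [Nat.card_Icc] at hc
  have hA : (⌈5 * κ / 3⌉₊ : ℝ) < 5 * κ / 3 + 1 := Nat.ceil_lt_add_one (by positivity)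
  have hB : 8 * κ / 3 < (⌊8 * κ / 3⌋₊ : ℝ) + 1 := Nat.lt_floor_add_one _
  set A := ⌈5 * κ / 3⌉₊
  set B := ⌊8 * κ / 3⌋₊
  set c := ((Finset.Icc 1 k).filter fun j : ℕ => 5 * κ / 3 ≤ j ∧ (j : ℝ) ≤ 8 * κ / 3).card
  have hAB : A < B + 1 + 1 := by
    have : (A : ℝ) < B + 1 + 1 := by linarith
    exact_mod_cast this
  have h3 : (B : ℝ) + 1 - A ≤ c := by
    have : B + 1 ≤ c + A := by omega
    have : (B : ℝ) + 1 ≤ c + A := by exact_mod_cast this
    linarith
  have h4 : κ - 1 < c := by linarith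
  have h5 : 0 < c := by
    have : (0 : ℝ) < c := by linarith
    exact_mod_cast this
  have h6 : (1 : ℝ) ≤ c := by exact_mod_cast h5
  rcases le_total κ 2 with h | h <;> linarith

/-- the data of one factor -/
structure V6pData (s Y n : ℝ) (j : ℕ) (κ L : ℝ) : Prop where
  hκ : 1 ≤ κ
  hL : 30000 ≤ L
  hs2 : s ≤ κ * L / 54
  hs : 1 ≤ s
  hY1 : Y ^ j ≤ Real.exp (j * L / 3)
  hY2 : Real.exp (j * L / 3) ≤ 2 ^ j * Y ^ j
  hY0 : 1 ≤ Y ^ j
  hj : 5 * κ / 3 ≤ j
  hj2 : (j : ℝ) ≤ 8 * κ / 3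
  hn1 : Real.exp (j * L) ≤ n ^ j
  hn2 : n ^ j ≤ 2 ^ j * Real.exp (j * L)

theorem V6p_two (j : ℕ) : (2 : ℝ) ^ j = Real.exp (j * Real.log 2) := by
  rw [mul_comm, Real.exp_mul, Real.exp_log (by norm_num), Real.rpow_natCast]

theorem V6p_wrap {s Y n : ℝ} {j : ℕ} {κ L : ℝ} (h : V6pData s Y n j κ L) :
    Real.exp (κ * L) / (2 * Real.pi * j * n ^ j) * (s * Y ^ j) ≤ 1 / 2 := by
  have hpi := Real.pi_gt_three
  have hκ := h.hκ
  have hj1 : (1 : ℝ) ≤ j := by linarith [h.hj]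
  have hn0 : 0 < n ^ j := (Real.exp_pos _).trans_le h.hn1
  have hs0 : 0 < s := by linarith [h.hs]
  have hY0 : 0 < Y ^ j := by linarith [h.hY0]
  have h1 : Real.exp (κ * L) / (2 * Real.pi * j * n ^ j) ≤
      Real.exp (κ * L) / (6 * Real.exp (j * L)) := by
    apply div_le_div_of_nonneg_left (Real.exp_pos _).le (by positivity)
    have h6 : 6 ≤ 2 * Real.pi * j := by nlinarith
    exact mul_le_mul h6 h.hn1 (Real.exp_pos _).le (by positivity)
  have h2 : Real.exp (κ * L) / (2 * Real.pi * j * n ^ j) * (s * Y ^ j) ≤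
      Real.exp (κ * L) / (6 * Real.exp (j * L)) * (s * Real.exp (j * L / 3)) := by
    apply mul_le_mul h1 _ (by positivity) (by positivity)
    exact mul_le_mul_of_nonneg_left h.hY1 hs0.le
  have h3 : Real.exp (κ * L) / (6 * Real.exp (j * L)) * (s * Real.exp (j * L / 3)) =
      s / 6 * Real.exp (κ * L - 2 * j * L / 3) := by
    have : Real.exp (κ * L - 2 * j * L / 3) =
        Real.exp (κ * L) / Real.exp (j * L) * Real.exp (j * L / 3) := by
      rw [← Real.exp_sub, ← Real.exp_add]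
      congr 1
      ring
    rw [this]
    field_simp
  have h4 : Real.exp (κ * L - 2 * j * L / 3) ≤ Real.exp (-(κ * L / 9)) := by
    apply Real.exp_le_exp.mpr
    have := mul_le_mul_of_nonneg_right h.hj (by linarith [h.hL] : (0 : ℝ) ≤ L)
    linarith
  have h5 : s ≤ 3 * Real.exp (κ * L / 9) := by
    have := Real.add_one_le_exp (κ * L / 9)
    linarith [h.hs2]
  have h6 : Real.exp (-(κ * L / 9)) * Real.exp (κ * L / 9) = 1 := by
    rw [← Real.exp_add, neg_add_cancel, Real.exp_zero]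
  have h7 : s / 6 * Real.exp (-(κ * L / 9)) ≤ 1 / 2 := by
    have := mul_le_mul_of_nonneg_right h5 (Real.exp_pos (-(κ * L / 9))).le
    have e : 3 * Real.exp (κ * L / 9) * Real.exp (-(κ * L / 9)) = 3 := by
      rw [mul_assoc, mul_comm (Real.exp (κ * L / 9)), h6, mul_one]
    rw [e] at this
    linarith
  calc _ ≤ _ := h2
    _ = _ := h3
    _ ≤ s / 6 * Real.exp (-(κ * L / 9)) := mul_le_mul_of_nonneg_left h4 (by positivity)
    _ ≤ _ := h7

theorem V6p_A {s Y n : ℝ} {j : ℕ} {κ L : ℝ} (h : V6pData s Y n j κ L) :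
    2 * (s * Y ^ j) + 1 ≤ 9 / 2 * s ^ 2 * Y ^ (2 * j) * Real.exp (-(κ * L / 10)) := by
  have hκ := h.hκ
  have hL := h.hL
  have hs := h.hs
  have hlog2 : Real.log 2 ≤ L / 12 := by
    have := Real.log_two_lt_d9
    linarith
  have hj0 : (0 : ℝ) ≤ j := by positivity
  set E := Real.exp (-(κ * L / 10)) with hE
  have hE0 : 0 < E := Real.exp_pos _
  have h1 : 1 ≤ Y ^ j * E := by
    have h2 : Real.exp (κ * L / 10) ≤ Y ^ j := by
      have h3 : Real.exp (κ * L / 10) * 2 ^ j ≤ Real.exp (j * L / 3) := by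
        rw [V6p_two, ← Real.exp_add]
        apply Real.exp_le_exp.mpr
        have h5 : j * Real.log 2 ≤ j * (L / 12) := mul_le_mul_of_nonneg_left hlog2 hj0
        have h6 := mul_le_mul_of_nonneg_right h.hj (by linarith : (0 : ℝ) ≤ L)
        have h7 : 0 ≤ κ * L := by positivity
        linarith
      have h4 := h3.trans h.hY2
      have h5 : (0 : ℝ) < 2 ^ j := by positivity
      rw [mul_comm ((2 : ℝ) ^ j)] at h4
      exact le_of_mul_le_mul_right h4 h5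
    have h6 : Real.exp (κ * L / 10) * E = 1 := by
      rw [hE, ← Real.exp_add, add_neg_cancel, Real.exp_zero]
    rw [← h6]
    exact mul_le_mul_of_nonneg_right h2 hE0.le
  have hY := h.hY0
  have h2 : 1 ≤ s * Y ^ j := one_le_mul_of_one_le_of_one_le hs hY
  have h3 : 1 ≤ s * (Y ^ j * E) := one_le_mul_of_one_le_of_one_le hs h1
  calc 2 * (s * Y ^ j) + 1 ≤ 3 * (s * Y ^ j) := by linarith
    _ ≤ 9 / 2 * (s * Y ^ j) * 1 := by linarith
    _ ≤ 9 / 2 * (s * Y ^ j) * (s * (Y ^ j * E)) := by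
      apply mul_le_mul_of_nonneg_left h3
      linarith
    _ = _ := by rw [two_mul j, pow_add]; ring

theorem V6p_B {s Y n : ℝ} {j : ℕ} {κ L : ℝ} (h : V6pData s Y n j κ L) :
    2 * Real.pi * j * n ^ j / Real.exp (κ * L) * (1 + Real.log (s * Y ^ j)) ≤
      9 / 2 * s ^ 2 * Y ^ (2 * j) * Real.exp (-(κ * L / 10)) := by
  have hpi := Real.pi_gt_three
  have hpi2 := Real.pi_lt_d2
  have hκ := h.hκ
  have hL := h.hL
  have hs := h.hs
  have hY := h.hY0
  have hj0 : (0 : ℝ) ≤ j := by positivity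
  have hY0 : 0 < Y ^ j := by linarith
  have hs0 : 0 < s := by linarith
  have hκL : 30000 * κ ≤ κ * L := by nlinarith
  have hjL : (j : ℝ) * L / 3 ≤ 8 * (κ * L) / 9 := by
    have := mul_le_mul_of_nonneg_right h.hj2 (by linarith : (0 : ℝ) ≤ L)
    linarith
  have hlogY : Real.log (s * Y ^ j) ≤ s + j * L / 3 := by
    rw [Real.log_mul hs0.ne' hY0.ne']
    have h2 : Real.log (Y ^ j) ≤ j * L / 3 := by
      rw [← Real.log_exp (j * L / 3)]
      exact Real.log_le_log hY0 h.hY1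
    have h3 : Real.log s ≤ s := (Real.log_le_sub_one_of_pos hs0).trans (by linarith)
    linarith
  have hlog : 1 + Real.log (s * Y ^ j) ≤ 2 * (κ * L) := by
    linarith [h.hs2]
  have hlog0 : 0 ≤ 1 + Real.log (s * Y ^ j) := by
    have : 0 ≤ Real.log (s * Y ^ j) :=
      Real.log_nonneg (one_le_mul_of_one_le_of_one_le hs hY)
    linarith
  have h3 : Real.exp (2 * j * L / 3) ≤ 4 ^ j * Y ^ (2 * j) := by
    have h4 := mul_le_mul h.hY2 h.hY2 (Real.exp_pos _).le (by positivity)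
    rw [← Real.exp_add] at h4
    calc Real.exp (2 * j * L / 3) = Real.exp (j * L / 3 + j * L / 3) := by congr 1; ring
      _ ≤ _ := h4
      _ = 4 ^ j * Y ^ (2 * j) := by
        rw [two_mul j, pow_add, show (4 : ℝ) = 2 * 2 by norm_num, mul_pow]
        ring
  have h8 : (2 : ℝ) ^ j * 4 ^ j = Real.exp (j * (3 * Real.log 2)) := by
    rw [← mul_pow, show (2 : ℝ) * 4 = 2 ^ 3 by norm_num, ← pow_mul, mul_comm 3 j, pow_mul,
      V6p_two, ← Real.exp_nat_mul]
    congr 1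
    push_cast
    ring
  have hexp : Real.exp (j * (3 * Real.log 2) + j * L / 3 - κ * L) ≤
      Real.exp (κ * L / 540 - κ * L / 9) := by
    apply Real.exp_le_exp.mpr
    have hl := Real.log_two_lt_d9
    have h6 : (j : ℝ) * (3 * Real.log 2) ≤ 6 * κ := by
      have := mul_le_mul h.hj2 (by linarith : 3 * Real.log 2 ≤ 2.1) (by positivity)
        (by positivity : (0 : ℝ) ≤ 8 * κ / 3)
      linarith
    linarith
  have h17 : 2 * Real.pi * j ≤ Real.exp (κ * L / 540) := by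
    have h7 : 2 * Real.pi * j ≤ 2 * 3.15 * (8 * κ / 3) :=
      mul_le_mul (by linarith) h.hj2 hj0 (by norm_num)
    have := Real.add_one_le_exp (κ * L / 540)
    linarith
  have hYj : 0 < Y ^ (2 * j) := by rw [two_mul, pow_add]; positivity
  have h2 : 2 * Real.pi * j * n ^ j / Real.exp (κ * L) ≤
      Real.exp (κ * L / 540) * Real.exp (κ * L / 540 - κ * L / 9) * Y ^ (2 * j) := by
    rw [div_eq_mul_inv, ← Real.exp_neg]
    have h5 : Real.exp (j * L) = Real.exp (j * L / 3) * Real.exp (2 * j * L / 3) := by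
      rw [← Real.exp_add]
      congr 1
      ring
    have h6 : Real.exp (j * (3 * Real.log 2) + j * L / 3 - κ * L) =
        (2 : ℝ) ^ j * 4 ^ j * Real.exp (j * L / 3) * Real.exp (-(κ * L)) := by
      rw [h8, ← Real.exp_add, ← Real.exp_add]
      congr 1
    calc 2 * Real.pi * j * n ^ j * Real.exp (-(κ * L))
        ≤ 2 * Real.pi * j * (2 ^ j * (Real.exp (j * L / 3) * (4 ^ j * Y ^ (2 * j)))) *
            Real.exp (-(κ * L)) := by
          apply mul_le_mul_of_nonneg_right _ (Real.exp_pos _).le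
          apply mul_le_mul_of_nonneg_left _ (by positivity)
          refine h.hn2.trans ?_
          apply mul_le_mul_of_nonneg_left _ (by positivity)
          rw [h5]
          exact mul_le_mul_of_nonneg_left h3 (Real.exp_pos _).le
      _ = 2 * Real.pi * j * Real.exp (j * (3 * Real.log 2) + j * L / 3 - κ * L) *
            Y ^ (2 * j) := by rw [h6]; ring
      _ ≤ _ := by
          apply mul_le_mul_of_nonneg_right _ hYj.le
          exact mul_le_mul h17 hexp (Real.exp_pos _).le (Real.exp_pos _).le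
  have hq := V6p_exp (x := κ * L) (by linarith)
  have h12 := mul_le_mul h2 (hlog.trans hq) hlog0 (by positivity)
  refine h12.trans ?_
  have h13 : Real.exp (κ * L / 540) * Real.exp (κ * L / 540 - κ * L / 9) * Y ^ (2 * j) *
      (9 / 2 * Real.exp (κ * L / 180)) =
      9 / 2 * Y ^ (2 * j) * Real.exp (κ * L / 540 + (κ * L / 540 - κ * L / 9) + κ * L / 180) := by
    rw [Real.exp_add, Real.exp_add]
    ring
  rw [h13]
  have h14 : Real.exp (κ * L / 540 + (κ * L / 540 - κ * L / 9) + κ * L / 180) ≤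
      Real.exp (-(κ * L / 10)) := by
    apply Real.exp_le_exp.mpr
    linarith
  calc _ ≤ 9 / 2 * Y ^ (2 * j) * Real.exp (-(κ * L / 10)) :=
        mul_le_mul_of_nonneg_left h14 (by positivity)
    _ = 9 / 2 * 1 ^ 2 * Y ^ (2 * j) * Real.exp (-(κ * L / 10)) := by ring
    _ ≤ _ := by gcongr

/-- one factor with a saving -/
theorem V6p_one {Y j s : ℕ} {n κ L a : ℝ} (h : V6pData s Y n j κ L)
    (ha : |a| = Real.exp (κ * L) / (2 * Real.pi * j * n ^ j)) :
    ∑ m ∈ Finset.Icc (-(s * Y ^ j : ℤ)) (s * Y ^ j),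
      ‖∑ n ∈ Finset.Icc (-(s * Y ^ j : ℤ)) (s * Y ^ j), e (a * ((m : ℝ) * n))‖ ≤
      9 * (s : ℝ) ^ 2 * (Y : ℝ) ^ (2 * j) * Real.exp (-(κ * L / 10)) := by
  have hj1 : (0 : ℝ) < j := by linarith [h.hj, h.hκ]
  have hn0 : 0 < n ^ j := (Real.exp_pos _).trans_le h.hn1
  have hpi := Real.pi_pos
  have ha0 : a ≠ 0 := by
    intro hh
    rw [hh, abs_zero] at ha
    have : 0 < Real.exp (κ * L) / (2 * Real.pi * j * n ^ j) := by positivity
    linarith
  have hwrap : |a| * ((s * Y ^ j : ℕ) : ℝ) ≤ 1 / 2 := by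
    push_cast
    rw [ha]
    exact V6p_wrap h
  have hw := w_le ha0 (s * Y ^ j) hwrap
  have hcast : (((s * Y ^ j : ℕ)) : ℤ) = (s * Y ^ j : ℤ) := by push_cast; ring
  rw [hcast] at hw
  refine hw.trans ?_
  push_cast
  rw [ha, one_div_div]
  have hA := V6p_A h
  have hB := V6p_B h
  linarith

/-- one factor, trivial bound -/
theorem V6p_triv {Y j s : ℕ} (hs : 1 ≤ s) (hY : 1 ≤ Y) (a : ℝ) :
    ∑ m ∈ Finset.Icc (-(s * Y ^ j : ℤ)) (s * Y ^ j),
      ‖∑ n ∈ Finset.Icc (-(s * Y ^ j : ℤ)) (s * Y ^ j), e (a * ((m : ℝ) * n))‖ ≤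
      9 * (s : ℝ) ^ 2 * (Y : ℝ) ^ (2 * j) := by
  have hw := w_triv a (s * Y ^ j)
  have hcast : (((s * Y ^ j : ℕ)) : ℤ) = (s * Y ^ j : ℤ) := by push_cast; ring
  rw [hcast] at hw
  refine hw.trans ?_
  push_cast
  have hs0 : (1 : ℝ) ≤ s := by exact_mod_cast hs
  have hY0 : (1 : ℝ) ≤ (Y : ℝ) ^ j := one_le_pow₀ (by exact_mod_cast hY)
  have h2 : (1 : ℝ) ≤ (s : ℝ) * (Y : ℝ) ^ j := one_le_mul_of_one_le_of_one_le hs0 hY0
  calc (2 * ((s : ℝ) * (Y : ℝ) ^ j) + 1) ^ 2 ≤ (3 * ((s : ℝ) * (Y : ℝ) ^ j)) ^ 2 := by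
        apply pow_le_pow_left₀ (by positivity)
        linarith
    _ = _ := by rw [two_mul j, pow_add]; ring

theorem W_prod : ∃ C : ℝ, 1 ≤ C ∧ ∀ (N n Y k s : ℕ) (κ t : ℝ) (a : ℕ → ℝ), 1 ≤ κ →
    t = (N : ℝ) ^ κ → N ≤ n → n ≤ 2 * N → (Y : ℝ) ≤ (N : ℝ) ^ (1 / 3 : ℝ) →
    (N : ℝ) ^ (1 / 3 : ℝ) ≤ 2 * Y → 3 * κ + 2 ≤ k → (k : ℝ) ≤ 3 * κ + 4 → 1 ≤ s →
    (s : ℝ) ≤ 8 * (k : ℝ) ^ 2 →
    (∀ j : ℕ, 1 ≤ j → |a j| = t / (2 * Real.pi * j * (n : ℝ) ^ j)) →
    C * κ ^ 4 ≤ Real.log N →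
    ∏ j ∈ Finset.Icc 1 k, (∑ m ∈ Finset.Icc (-(s * Y ^ j : ℤ)) (s * Y ^ j),
      ‖∑ n ∈ Finset.Icc (-(s * Y ^ j : ℤ)) (s * Y ^ j), e (a j * ((m : ℝ) * n))‖) ≤
      (9 * (s : ℝ) ^ 2) ^ k * (Y : ℝ) ^ (k * (k + 1)) * (N : ℝ) ^ (-(κ ^ 2 / 20)) := by
  refine ⟨30000, by norm_num, ?_⟩
  intro N n Y k s κ t a hκ ht hn1 hn2 hY1 hY2 hk1 hk2 hs hs2 ha hC
  set L := Real.log N with hLdef
  have hκ4 : 1 ≤ κ ^ 4 := one_le_pow₀ hκ
  have hκ2 : κ ≤ κ ^ 4 := by
    calc κ = κ ^ 1 := (pow_one κ).symm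
      _ ≤ κ ^ 4 := pow_le_pow_right₀ hκ (by norm_num)
  have hL0 : 30000 ≤ L := by linarith
  have hN : 0 < N := by
    rcases Nat.eq_zero_or_pos N with h | h
    · rw [hLdef, h] at hL0
      simp at hL0
      linarith
    · exact h
  have hNr : (0 : ℝ) < N := by exact_mod_cast hN
  have hNe : (N : ℝ) = Real.exp L := by rw [hLdef, Real.exp_log hNr]
  have hrp : ∀ x : ℝ, (N : ℝ) ^ x = Real.exp (x * L) := by
    intro x
    rw [Real.rpow_def_of_pos hNr, mul_comm]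
  rw [hrp] at ht hY1 hY2
  rw [hrp]
  have e13 : 1 / 3 * L = L / 3 := by ring
  rw [e13] at hY1 hY2
  have hY0 : 1 ≤ Y := by
    have h1 : (0 : ℝ) < Y := by
      have := Real.exp_pos (L / 3)
      linarith
    exact_mod_cast h1
  have hY0' : (1 : ℝ) ≤ Y := by exact_mod_cast hY0
  have hsκ : (s : ℝ) ≤ κ * L / 54 := by
    have h1 : (k : ℝ) ≤ 7 * κ := by linarith
    have h2 : (k : ℝ) ^ 2 ≤ (7 * κ) ^ 2 := pow_le_pow_left₀ (by positivity) h1 2
    have h3 : κ ^ 2 ≤ κ * κ ^ 4 := by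
      calc κ ^ 2 ≤ κ ^ 5 := pow_le_pow_right₀ hκ (by norm_num)
        _ = κ * κ ^ 4 := by ring
    have h4 : κ * (30000 * κ ^ 4) ≤ κ * L := mul_le_mul_of_nonneg_left hC (by linarith)
    nlinarith
  have hcard := V6p_card hκ hk1
  set P : ℕ → Prop := fun j : ℕ => 5 * κ / 3 ≤ j ∧ (j : ℝ) ≤ 8 * κ / 3 with hP
  classical
  have hone : ∀ j ∈ Finset.Icc 1 k, (∑ m ∈ Finset.Icc (-(s * Y ^ j : ℤ)) (s * Y ^ j),
      ‖∑ n ∈ Finset.Icc (-(s * Y ^ j : ℤ)) (s * Y ^ j), e (a j * ((m : ℝ) * n))‖) ≤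
      9 * (s : ℝ) ^ 2 * (Y : ℝ) ^ (2 * j) * (if P j then Real.exp (-(κ * L / 10)) else 1) := by
    intro j hj
    rw [Finset.mem_Icc] at hj
    by_cases hPj : P j
    · rw [if_pos hPj]
      apply V6p_one (n := n)
      · refine ⟨hκ, hL0, hsκ, by exact_mod_cast hs, ?_, ?_, one_le_pow₀ hY0', hPj.1, hPj.2, ?_, ?_⟩
        · calc (Y : ℝ) ^ j ≤ (Real.exp (L / 3)) ^ j := pow_le_pow_left₀ (by positivity) hY1 _
            _ = Real.exp (j * L / 3) := by
              rw [← Real.exp_nat_mul]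
              congr 1
              ring
        · calc Real.exp (j * L / 3) = (Real.exp (L / 3)) ^ j := by
                rw [← Real.exp_nat_mul]
                congr 1
                ring
            _ ≤ (2 * (Y : ℝ)) ^ j := pow_le_pow_left₀ (Real.exp_pos _).le hY2 _
            _ = 2 ^ j * (Y : ℝ) ^ j := mul_pow _ _ _
        · have h1 : Real.exp (j * L) = (N : ℝ) ^ j := by rw [hNe, ← Real.exp_nat_mul]
          rw [h1]
          exact pow_le_pow_left₀ (by positivity) (by exact_mod_cast hn1) _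
        · have h1 : Real.exp (j * L) = (N : ℝ) ^ j := by rw [hNe, ← Real.exp_nat_mul]
          rw [h1, ← mul_pow]
          exact pow_le_pow_left₀ (by positivity) (by exact_mod_cast hn2) _
      · rw [ha j hj.1, ht]
    · rw [if_neg hPj, mul_one]
      exact V6p_triv hs hY0 _
  refine (Finset.prod_le_prod (fun j _ => Finset.sum_nonneg fun _ _ => norm_nonneg _)
    hone).trans ?_
  rw [Finset.prod_mul_distrib, Finset.prod_mul_distrib, Finset.prod_const, V6p_prodY,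
    Nat.card_Icc, Nat.add_sub_cancel, Finset.prod_ite, Finset.prod_const, Finset.prod_const_one,
    mul_one, ← Real.exp_nat_mul]
  apply mul_le_mul_of_nonneg_left _ (by positivity)
  apply Real.exp_le_exp.mpr
  have h1 : κ / 2 * (κ * L / 10) ≤ (((Finset.Icc 1 k).filter P).card : ℝ) * (κ * L / 10) := by
    apply mul_le_mul_of_nonneg_right hcard (by positivity)
  have h2 : κ ^ 2 / 20 * L = κ / 2 * (κ * L / 10) := by ring
  linarith

end Pool.Agent.VMV
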