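import Mathlib
import Pool.Agent.Lib.VMV.V6Defs
import Pool.Agent.Lib.VMV.V6p

/-! # Row V6: `WProd` in the form of V6Defs.  helper24. -/

set_option autoImplicit false

namespace Pool.Agent.VMV

theorem wProd : WProd := W_prod

end Pool.Agent.VMV
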