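import Mathlib
import Pool.Agent.Lib.VMV.Defs
import Pool.Agent.Lib.VMV.ZSDefs
import Pool.Agent.Lib.VMV.V6b

/-! # Row ZS: the shifted sum `∑ (n + β)^{it}` from the mean value theorem.  helper4. -/

set_option autoImplicit false

namespace Pool.Agent.VMV

open Finset

noncomputable section

/-- the coefficients of the Taylor polynomial. -/
def alx (t w : ℝ) (j : ℕ) : ℝ := (-1) ^ (j + 1) * (t / (2 * Real.pi * j * w ^ j))

theorem abs_alx (t : ℝ) (ht : 0 ≤ t) (w : ℝ) (hw : 0 < w) (j : ℕ) :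
    |alx t w j| = t / (2 * Real.pi * j * w ^ j) := by
  unfold alx
  rw [abs_mul, abs_pow, abs_neg, abs_one, one_pow, one_mul, abs_of_nonneg]
  have := Real.pi_pos
  positivity

theorem taylorx (t : ℝ) (ht : 0 ≤ t) (w : ℝ) (x y k : ℕ) (hn0 : 0 < w)
    (hz : (x * y : ℝ) / w ≤ 1 / 2) :
    ‖Complex.exp (((t * Real.log (w + x * y) : ℝ)) * Complex.I) -
      Complex.exp (((t * Real.log w : ℝ)) * Complex.I) *
        e (∑ j ∈ Finset.Icc 1 k, alx t w j * ((x : ℝ) ^ j * (y : ℝ) ^ j))‖ ≤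
      2 * t * ((x * y : ℝ) / w) ^ (k + 1) := by
  set z : ℝ := (x * y : ℝ) / w with hzd
  have hz0 : 0 ≤ z := by positivity
  have h1 : Real.log (w + x * y) = Real.log w + Real.log (1 + z) := by
    rw [← Real.log_mul hn0.ne' (by positivity)]
    congr 1
    rw [hzd]
    push_cast
    field_simp
  have h2 : 2 * Real.pi * ∑ j ∈ Finset.Icc 1 k, alx t w j * ((x : ℝ) ^ j * (y : ℝ) ^ j) =
      - t * ∑ i ∈ Finset.range k, (-z) ^ (i + 1) / ((i : ℝ) + 1) := by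
    rw [Finset.mul_sum, Finset.mul_sum]
    rw [show Finset.Icc 1 k = Finset.image (fun i => i + 1) (Finset.range k) by
      ext j
      simp only [Finset.mem_Icc, Finset.mem_image, Finset.mem_range]
      constructor
      · rintro ⟨h1, h2⟩; exact ⟨j - 1, by omega, by omega⟩
      · rintro ⟨i, hi, rfl⟩; omega]
    rw [Finset.sum_image (by intro a _ b _ h; simpa using h)]
    refine Finset.sum_congr rfl fun i _ => ?_
    unfold alx
    rw [hzd]
    have hpi := Real.pi_pos.ne'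
    have hi : ((i : ℝ) + 1) ≠ 0 := by positivity
    push_cast
    have hneg : (-((x : ℝ) * y / w)) ^ (i + 1) = (-1) ^ (i + 1) * ((x : ℝ) ^ (i + 1) *
        (y : ℝ) ^ (i + 1) / w ^ (i + 1)) := by
      rw [show (-((x : ℝ) * y / w)) = (-1) * ((x : ℝ) * y / w) by ring, mul_pow, div_pow, mul_pow]
    rw [hneg, pow_succ (-1 : ℝ) (i + 1)]
    field_simp
  have h3 : Complex.exp (((t * Real.log w : ℝ)) * Complex.I) *
        e (∑ j ∈ Finset.Icc 1 k, alx t w j * ((x : ℝ) ^ j * (y : ℝ) ^ j)) =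
      Complex.exp (((t * Real.log w -
        t * ∑ i ∈ Finset.range k, (-z) ^ (i + 1) / ((i : ℝ) + 1) : ℝ)) * Complex.I) := by
    unfold e
    rw [h2, ← Complex.exp_add]
    congr 1
    push_cast
    ring
  rw [h3]
  refine (norm_exp_sub _ _).trans ?_
  rw [h1]
  have h4 := Real.abs_log_sub_add_sum_range_le (x := -z) (by rw [abs_neg, abs_of_nonneg hz0]; linarith) k
  rw [abs_neg, abs_of_nonneg hz0, sub_neg_eq_add] at h4
  have h5 : t * (Real.log w + Real.log (1 + z)) - (t * Real.log w -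
      t * ∑ i ∈ Finset.range k, (-z) ^ (i + 1) / ((i : ℝ) + 1)) =
      t * ((∑ i ∈ Finset.range k, (-z) ^ (i + 1) / ((i : ℝ) + 1)) + Real.log (1 + z)) := by ring
  rw [h5, abs_mul, abs_of_nonneg ht]
  have h6 : z ^ (k + 1) / (1 - z) ≤ 2 * z ^ (k + 1) := by
    rw [div_le_iff₀ (by linarith)]
    have : 0 ≤ z ^ (k + 1) := by positivity
    nlinarith
  calc t * |(∑ i ∈ Finset.range k, (-z) ^ (i + 1) / ((i : ℝ) + 1)) + Real.log (1 + z)|
      ≤ t * (2 * z ^ (k + 1)) := mul_le_mul_of_nonneg_left (h4.trans h6) ht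
    _ = 2 * t * z ^ (k + 1) := by ring

/-- the bound for the bilinear sums. -/
theorem bil_boundx (h4 : VMVT) (h5 : Bilinear) (h6 : WProdX) : ∃ C : ℝ, 1 ≤ C ∧
    ∀ (N Y k : ℕ) (w κ t : ℝ), 1 ≤ κ → t = (N : ℝ) ^ κ → (N : ℝ) ≤ w → w ≤ 2 * N →
      (Y : ℝ) ≤ (N : ℝ) ^ (1 / 3 : ℝ) → (N : ℝ) ^ (1 / 3 : ℝ) ≤ 2 * Y → 1 ≤ Y → 3 * κ + 2 ≤ k →
      k ≤ 3 * κ + 4 → C * κ ^ 4 ≤ Real.log N →
      ‖∑ x ∈ Finset.Icc 1 Y, ∑ y ∈ Finset.Icc 1 Y,
        e (∑ j ∈ Finset.Icc 1 k, alx t w j * ((x : ℝ) ^ j * (y : ℝ) ^ j))‖ ≤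
      (Y : ℝ) ^ 2 * Real.exp (-(Real.log N / (40000000 * κ ^ 2))) := by
  obtain ⟨C0, hC0, hV⟩ := h4
  obtain ⟨C6, hC6, hW⟩ := h6
  refine ⟨C6 + 50 * (144 * C0 + 48) * 117649, by nlinarith, ?_⟩
  intro N Y k w κ t hκ ht hNn hn2 hY1 hY2 hY0 hk1 hk2 hL
  set L := Real.log (N : ℝ) with hLd
  have hκ4 : 1 ≤ κ ^ 4 := one_le_pow₀ hκ
  have hκ0 : 0 < κ := by linarith
  have hL1 : C6 * κ ^ 4 ≤ L := by
    refine le_trans (mul_le_mul_of_nonneg_right ?_ (by positivity)) hL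
    nlinarith
  have hL2 : 50 * (144 * C0 + 48) * 117649 * κ ^ 4 ≤ L := by
    refine le_trans (mul_le_mul_of_nonneg_right ?_ (by positivity)) hL
    linarith
  have hLpos : 0 < L := by nlinarith
  have hN1 : (1 : ℝ) < N := by
    by_contra hcon
    push Not at hcon
    have : L ≤ 0 := Real.log_nonpos (by positivity) hcon
    linarith
  have hN0 : (0 : ℝ) < N := by linarith
  have hk7 : (k : ℝ) ≤ 7 * κ := by linarith
  have hkR : (5 : ℝ) ≤ k := by linarith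
  have hk5 : 5 ≤ k := by exact_mod_cast hkR
  have hYr : (1 : ℝ) ≤ Y := by exact_mod_cast hY0
  have hYpos : (0 : ℝ) < Y := by linarith
  set s : ℕ := k * (8 * k) with hs
  have hs1 : 1 ≤ s := by rw [hs]; nlinarith
  have hsR : (s : ℝ) = 8 * (k : ℝ) ^ 2 := by rw [hs]; push_cast; ring
  -- inputs
  have hb := h5 k s Y (alx t w) hs1 hY0
  have hv := hV k (8 * k) Y (by omega) hY0
  rw [← hs] at hv
  have hw := hW N Y k s w κ t (alx t w) hκ ht hNn hn2 hY1 hY2 hk1 hk2 hs1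
    (by rw [hsR]) (fun j _ => abs_alx t (by rw [ht]; positivity) w (lt_of_lt_of_le hN0 hNn) j) hL1
  set T := ‖∑ x ∈ Finset.Icc 1 Y, ∑ y ∈ Finset.Icc 1 Y,
        e (∑ j ∈ Finset.Icc 1 k, alx t w j * ((x : ℝ) ^ j * (y : ℝ) ^ j))‖ with hT
  have hT0 : 0 ≤ T := norm_nonneg _
  set K : ℝ := (k : ℝ) * (k + 1) / 2 with hK
  set η : ℝ := K * (1 - 1 / (k : ℝ)) ^ (8 * k) with hη
  have hK0 : 0 ≤ K := by positivity
  have h1k : 0 ≤ 1 - 1 / (k : ℝ) := by
    rw [sub_nonneg, div_le_one (by linarith)]; linarith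
  have hη0 : 0 ≤ η := by positivity
  have hKle : K ≤ 28 * κ ^ 2 := by
    rw [hK]; nlinarith
  have hηle : 2 * η ≤ 3 / 100 * κ ^ 2 := by
    have h1 := eta_le k (by omega)
    have h2 : η ≤ K * (36 / 100000) := mul_le_mul_of_nonneg_left h1 hK0
    nlinarith [sq_nonneg κ]
  have hv' : (J k s Y : ℝ) ≤ Real.exp (72 * C0 * (k : ℝ) ^ 6) *
      (Y : ℝ) ^ (2 * (s : ℝ) - K + η) := by
    refine hv.trans (le_of_eq ?_)
    congr 1
    · congr 1
      push_cast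
      ring
    · congr 1
      rw [hsR, hη, hK]
      push_cast
      ring
  have hJ2 : (J k s Y : ℝ) ^ 2 ≤ Real.exp (144 * C0 * (k : ℝ) ^ 6) *
      (Y : ℝ) ^ (4 * (s : ℝ) - 2 * K + 2 * η) := by
    calc (J k s Y : ℝ) ^ 2 ≤ (Real.exp (72 * C0 * (k : ℝ) ^ 6) *
      (Y : ℝ) ^ (2 * (s : ℝ) - K + η)) ^ 2 := pow_le_pow_left₀ (by positivity) hv' 2
      _ = _ := by
        rw [mul_pow, ← Real.exp_nat_mul, ← Real.rpow_natCast ((Y : ℝ) ^ _), ← Real.rpow_mul hYpos.le]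
        congr 1
        · congr 1; push_cast; ring
        · congr 1; push_cast; ring
  -- the constants
  have hc9 : (9 * (s : ℝ) ^ 2) ^ k ≤ Real.exp (48 * (k : ℝ) ^ 6) := by
    have h1 : 9 * (s : ℝ) ^ 2 = (24 * (k : ℝ) ^ 2) ^ 2 := by rw [hsR]; ring
    have h2 : 24 * (k : ℝ) ^ 2 ≤ Real.exp (24 * (k : ℝ) ^ 2) := by
      have := Real.add_one_le_exp (24 * (k : ℝ) ^ 2); linarith
    rw [h1, ← pow_mul]
    calc (24 * (k : ℝ) ^ 2) ^ (2 * k) ≤ (Real.exp (24 * (k : ℝ) ^ 2)) ^ (2 * k) :=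
          pow_le_pow_left₀ (by positivity) h2 _
      _ = Real.exp (48 * (k : ℝ) ^ 3) := by
          rw [← Real.exp_nat_mul]; congr 1; push_cast; ring
      _ ≤ Real.exp (48 * (k : ℝ) ^ 6) := by
          apply Real.exp_le_exp.2
          have : (k : ℝ) ^ 3 ≤ (k : ℝ) ^ 6 := pow_le_pow_right₀ (by linarith) (by norm_num)
          linarith
  have hYη : (Y : ℝ) ^ (2 * η) ≤ (N : ℝ) ^ (κ ^ 2 / 100) := by
    calc (Y : ℝ) ^ (2 * η) ≤ ((N : ℝ) ^ (1 / 3 : ℝ)) ^ (2 * η) :=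
          Real.rpow_le_rpow hYpos.le hY1 (by positivity)
      _ = (N : ℝ) ^ (1 / 3 * (2 * η)) := by rw [← Real.rpow_mul hN0.le]
      _ ≤ (N : ℝ) ^ (κ ^ 2 / 100) :=
          Real.rpow_le_rpow_of_exponent_le hN1.le (by nlinarith)
  -- assembling
  have hY8 : (Y : ℝ) ^ (8 * s ^ 2 - 4 * s) * (Y : ℝ) ^ (4 * (s : ℝ) - 2 * K + 2 * η) *
      (Y : ℝ) ^ (k * (k + 1)) = (Y : ℝ) ^ (8 * s ^ 2) * (Y : ℝ) ^ (2 * η) := by
    rw [← Real.rpow_natCast, ← Real.rpow_natCast (Y : ℝ) (k * (k + 1)),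
      ← Real.rpow_natCast (Y : ℝ) (8 * s ^ 2), ← Real.rpow_add hYpos, ← Real.rpow_add hYpos,
      ← Real.rpow_add hYpos]
    congr 1
    have h4s : 4 * s ≤ 8 * s ^ 2 := by nlinarith
    rw [Nat.cast_sub h4s]
    push_cast
    rw [hK]
    ring
  have hmain : T ^ (4 * s ^ 2) ≤ (Y : ℝ) ^ (8 * s ^ 2) *
      (Real.exp ((144 * C0 + 48) * (k : ℝ) ^ 6) * (N : ℝ) ^ (-(κ ^ 2 / 25))) := by
    have hP0 : 0 ≤ ∏ j ∈ Finset.Icc 1 k, (∑ m ∈ Finset.Icc (-(s * Y ^ j : ℤ)) (s * Y ^ j),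
        ‖∑ n' ∈ Finset.Icc (-(s * Y ^ j : ℤ)) (s * Y ^ j), e (alx t w j * ((m : ℝ) * n'))‖) :=
      Finset.prod_nonneg fun j _ => Finset.sum_nonneg fun m _ => norm_nonneg _
    calc T ^ (4 * s ^ 2) ≤ _ := hb
      _ ≤ (Y : ℝ) ^ (8 * s ^ 2 - 4 * s) * (Real.exp (144 * C0 * (k : ℝ) ^ 6) *
          (Y : ℝ) ^ (4 * (s : ℝ) - 2 * K + 2 * η)) *
          ((9 * (s : ℝ) ^ 2) ^ k * (Y : ℝ) ^ (k * (k + 1)) * (N : ℝ) ^ (-(κ ^ 2 / 20))) := by
          gcongr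
      _ = ((Y : ℝ) ^ (8 * s ^ 2 - 4 * s) * (Y : ℝ) ^ (4 * (s : ℝ) - 2 * K + 2 * η) *
            (Y : ℝ) ^ (k * (k + 1))) * (Real.exp (144 * C0 * (k : ℝ) ^ 6) *
            (9 * (s : ℝ) ^ 2) ^ k * (N : ℝ) ^ (-(κ ^ 2 / 20))) := by ring
      _ = ((Y : ℝ) ^ (8 * s ^ 2) * (Y : ℝ) ^ (2 * η)) * (Real.exp (144 * C0 * (k : ℝ) ^ 6) *
            (9 * (s : ℝ) ^ 2) ^ k * (N : ℝ) ^ (-(κ ^ 2 / 20))) := by rw [hY8]
      _ ≤ ((Y : ℝ) ^ (8 * s ^ 2) * (N : ℝ) ^ (κ ^ 2 / 100)) *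
            (Real.exp (144 * C0 * (k : ℝ) ^ 6) *
            Real.exp (48 * (k : ℝ) ^ 6) * (N : ℝ) ^ (-(κ ^ 2 / 20))) := by
          gcongr
      _ = (Y : ℝ) ^ (8 * s ^ 2) * ((Real.exp (144 * C0 * (k : ℝ) ^ 6) *
            Real.exp (48 * (k : ℝ) ^ 6)) * ((N : ℝ) ^ (κ ^ 2 / 100) *
              (N : ℝ) ^ (-(κ ^ 2 / 20)))) := by ring
      _ = _ := by
          rw [← Real.exp_add, ← Real.rpow_add hN0]
          congr 3
          · ring
          · ring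
  have hk6 : (k : ℝ) ^ 6 ≤ 117649 * κ ^ 6 := by
    calc (k : ℝ) ^ 6 ≤ (7 * κ) ^ 6 := pow_le_pow_left₀ (by linarith) hk7 6
      _ = 117649 * κ ^ 6 := by ring
  have hexp : Real.exp ((144 * C0 + 48) * (k : ℝ) ^ 6) * (N : ℝ) ^ (-(κ ^ 2 / 25)) ≤
      Real.exp (-(κ ^ 2 * L / 50)) := by
    rw [Real.rpow_def_of_pos hN0, ← Real.exp_add]
    apply Real.exp_le_exp.2
    rw [← hLd]
    have h1 : (144 * C0 + 48) * (k : ℝ) ^ 6 ≤ (144 * C0 + 48) * (117649 * κ ^ 6) :=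
      mul_le_mul_of_nonneg_left hk6 (by linarith)
    have h2 : (144 * C0 + 48) * (117649 * κ ^ 6) ≤ κ ^ 2 * L / 50 := by
      have h3 := mul_le_mul_of_nonneg_left hL2 (sq_nonneg κ)
      nlinarith
    nlinarith
  have hs2 : (s : ℝ) ^ 2 ≤ 153664 * κ ^ 4 := by
    rw [hsR]
    have : (k : ℝ) ^ 4 ≤ (7 * κ) ^ 4 := pow_le_pow_left₀ (by linarith) hk7 4
    calc (8 * (k : ℝ) ^ 2) ^ 2 = 64 * (k : ℝ) ^ 4 := by ring
      _ ≤ 64 * (7 * κ) ^ 4 := by linarith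
      _ = 153664 * κ ^ 4 := by ring
  have hfin : T ^ (4 * s ^ 2) ≤ ((Y : ℝ) ^ 2 * Real.exp (-(L / (40000000 * κ ^ 2)))) ^ (4 * s ^ 2) := by
    refine hmain.trans ?_
    have hpw : ((Y : ℝ) ^ 2 * Real.exp (-(L / (40000000 * κ ^ 2)))) ^ (4 * s ^ 2) =
        (Y : ℝ) ^ (8 * s ^ 2) *
          Real.exp (((4 * s ^ 2 : ℕ) : ℝ) * -(L / (40000000 * κ ^ 2))) := by
      clear_value s
      rw [mul_pow ((Y : ℝ) ^ 2) _ (4 * s ^ 2), ← pow_mul (Y : ℝ) 2 (4 * s ^ 2),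
        ← Real.exp_nat_mul]
      congr 2
      ring
    rw [hpw]
    refine mul_le_mul_of_nonneg_left (hexp.trans (Real.exp_le_exp.2 ?_)) (by positivity)
    have h1 : ((4 * s ^ 2 : ℕ) : ℝ) * -(L / (40000000 * κ ^ 2)) =
        -((4 * (s : ℝ) ^ 2) * (L / (40000000 * κ ^ 2))) := by push_cast; ring
    rw [h1]
    apply neg_le_neg
    have h2 : (4 * (s : ℝ) ^ 2) * (L / (40000000 * κ ^ 2)) ≤
        (4 * (153664 * κ ^ 4)) * (L / (40000000 * κ ^ 2)) := by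
      gcongr
    refine h2.trans ?_
    rw [show (4 * (153664 * κ ^ 4)) * (L / (40000000 * κ ^ 2)) =
      (614656 / 40000000) * (κ ^ 2 * L) by field_simp; norm_num]
    have h3 : 0 ≤ κ ^ 2 * L := by positivity
    linarith
  exact le_of_pow_le_pow_left₀ (by positivity) (by positivity) hfin

theorem zsumS (h4 : VMVT) (h5 : Bilinear) (h6 : WProdX) : ZsumS := by
  obtain ⟨C1, hC1, hB⟩ := bil_boundx h4 h5 h6
  refine ⟨1 / 40000000, C1 + 10, by norm_num, by linarith, ?_⟩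
  intro N M0 t β hβ0 hβ1 ht hNM0 hM20 hNt hL
  set L := Real.log (N : ℝ) with hLd
  set τ := Real.log t with hτd
  have hτ0 : 0 < τ := Real.log_pos (by linarith)
  have hτ45 : 0 < τ ^ (4 / 5 : ℝ) := Real.rpow_pos_of_pos hτ0 _
  have hL0 : 0 < L := by nlinarith
  have hN1 : (1 : ℝ) < N := by
    by_contra hcon
    push Not at hcon
    have : L ≤ 0 := Real.log_nonpos (by positivity) hcon
    linarith
  have hN0 : (0 : ℝ) < N := by linarith
  have ht0 : (0 : ℝ) < t := by linarith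
  set κ := τ / L with hκd
  have hLτ : L ≤ τ := Real.log_le_log hN0 hNt
  have hκ : 1 ≤ κ := by rw [hκd, one_le_div hL0]; exact hLτ
  have hκ0 : 0 < κ := by linarith
  have hτ : τ = κ * L := by rw [hκd]; field_simp
  have htN : t = (N : ℝ) ^ κ := by
    rw [Real.rpow_def_of_pos hN0, ← hLd, mul_comm, ← hτ, hτd, Real.exp_log ht0]
  have hCκ : (C1 + 10) * κ ^ 4 ≤ L := by
    have h1 : (C1 + 10) * (κ ^ (4 / 5 : ℝ) * L ^ (4 / 5 : ℝ)) ≤ L ^ (1 / 5 : ℝ) * L ^ (4 / 5 : ℝ) := by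
      rw [← Real.mul_rpow hκ0.le hL0.le, ← hτ, ← Real.rpow_add hL0]
      norm_num
      exact hL
    have hL45 : 0 < L ^ (4 / 5 : ℝ) := Real.rpow_pos_of_pos hL0 _
    have h2 : (C1 + 10) * κ ^ (4 / 5 : ℝ) ≤ L ^ (1 / 5 : ℝ) := by
      rw [← mul_assoc] at h1
      exact le_of_mul_le_mul_right h1 hL45
    have h3 : ((C1 + 10) * κ ^ (4 / 5 : ℝ)) ^ 5 ≤ (L ^ (1 / 5 : ℝ)) ^ 5 :=
      pow_le_pow_left₀ (by positivity) h2 5
    rw [mul_pow, ← Real.rpow_natCast (κ ^ (4 / 5 : ℝ)), ← Real.rpow_mul hκ0.le,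
      ← Real.rpow_natCast (L ^ (1 / 5 : ℝ)), ← Real.rpow_mul hL0.le] at h3
    norm_num at h3
    have h4 : C1 + 10 ≤ (C1 + 10) ^ 5 := by
      have h5 : (1 : ℝ) ≤ (C1 + 10) ^ 4 := one_le_pow₀ (by linarith)
      nlinarith
    calc (C1 + 10) * κ ^ 4 ≤ (C1 + 10) ^ 5 * κ ^ 4 := by gcongr
      _ ≤ L := by
        exact h3
  have hκ4 : 1 ≤ κ ^ 4 := one_le_pow₀ hκ
  have hL10 : 10 ≤ L := by nlinarith
  -- parameters
  set A : ℝ := (N : ℝ) ^ (1 / 3 : ℝ) with hA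
  have hA1 : 10 ≤ A := by
    rw [hA, Real.rpow_def_of_pos hN0, ← hLd]
    have h1 : Real.exp 3 ≤ Real.exp (L * (1 / 3)) := Real.exp_le_exp.2 (by linarith)
    have h2 : (10 : ℝ) ≤ Real.exp 3 := by
      have h3 : Real.exp 3 = Real.exp 1 ^ 3 := by rw [← Real.exp_nat_mul]; norm_num
      rw [h3]
      have := Real.exp_one_gt_d9
      calc (10 : ℝ) ≤ 2.7182818283 ^ 3 := by norm_num
        _ ≤ Real.exp 1 ^ 3 := pow_le_pow_left₀ (by norm_num) this.le 3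
    linarith
  have hA3 : A ^ 3 = N := by
    rw [hA, ← Real.rpow_natCast, ← Real.rpow_mul hN0.le]; norm_num
  set Y : ℕ := ⌊A⌋₊ with hYd
  have hY1 : (Y : ℝ) ≤ A := Nat.floor_le (by linarith)
  have hY2 : A ≤ 2 * Y := by
    have := Nat.lt_floor_add_one A
    linarith
  have hY0 : 1 ≤ Y := by
    rw [hYd, Nat.one_le_floor_iff]; linarith
  have hYr : (1 : ℝ) ≤ Y := by exact_mod_cast hY0
  set k : ℕ := ⌈3 * κ⌉₊ + 3 with hkd
  have hk1 : 3 * κ + 3 ≤ k := by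
    have := Nat.le_ceil (3 * κ)
    rw [hkd]; push_cast; linarith
  have hk2 : (k : ℝ) ≤ 3 * κ + 4 := by
    have := Nat.ceil_lt_add_one (a := 3 * κ) (by positivity)
    rw [hkd]; push_cast; linarith
  set f : ℕ → ℂ := fun n => Complex.exp (((t * Real.log (n + β) : ℝ)) * Complex.I) with hf
  have hf1 : ∀ n, ‖f n‖ ≤ 1 := fun n => by
    rw [hf]; simp only; rw [Complex.norm_exp_ofReal_mul_I]
  set δ : ℝ := Real.exp (-(L / (40000000 * κ ^ 2))) with hδ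
  have hδ0 : 0 < δ := Real.exp_pos _
  have hδA : 1 / A ≤ δ := by
    rw [hδ, hA, one_div, ← Real.rpow_neg hN0.le, Real.rpow_def_of_pos hN0, ← hLd]
    apply Real.exp_le_exp.2
    have h1 : L / (40000000 * κ ^ 2) ≤ L / 3 := by
      apply div_le_div_of_nonneg_left hL0.le (by norm_num)
      nlinarith
    linarith
  have hNA : (N : ℝ) / A = A ^ 2 := by
    rw [← hA3]; field_simp
  have hcore : ∀ M : ℕ, N ≤ M → M ≤ 2 * N - 1 → ‖∑ n ∈ Finset.Ioc N M, f n‖ ≤ 5 * (N * δ) := by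
    intro M hNM hM2
    have havg := avg_le f hf1 N M Y hNM
    -- the pointwise bound
    have hpt : ∀ n ∈ Finset.Ioc N M,
        ‖∑ x ∈ Finset.Icc 1 Y, ∑ y ∈ Finset.Icc 1 Y, f (n + x * y)‖ ≤
          (Y : ℝ) ^ 2 * δ + (Y : ℝ) ^ 2 * (2 / A) := by
      intro n hn
      obtain ⟨hn1, hn2⟩ := Finset.mem_Ioc.1 hn
      set w : ℝ := (n : ℝ) + β with hw
      have hnr : (N : ℝ) ≤ w := by
        have : (N : ℝ) ≤ n := by exact_mod_cast hn1.le
        linarith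
      have hn2N : w ≤ 2 * N := by
        have h1 : n + 1 ≤ 2 * N := by omega
        have h2 : ((n : ℝ) + 1) ≤ 2 * N := by exact_mod_cast h1
        linarith
      have hn0 : (0 : ℝ) < w := by linarith
      have hb := hB N Y k w κ t hκ htN hnr hn2N hY1 hY2 hY0 (by linarith) hk2
        (le_trans (mul_le_mul_of_nonneg_right (by linarith) (by positivity)) hCκ)
      have hzA : ∀ x ∈ Finset.Icc 1 Y, ∀ y ∈ Finset.Icc 1 Y, (x * y : ℝ) / w ≤ 1 / A := by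
        intro x hx y hy
        have hx' : (x : ℝ) ≤ A := le_trans (by exact_mod_cast (Finset.mem_Icc.1 hx).2) hY1
        have hy' : (y : ℝ) ≤ A := le_trans (by exact_mod_cast (Finset.mem_Icc.1 hy).2) hY1
        rw [div_le_div_iff₀ hn0 (by linarith)]
        calc (x * y : ℝ) * A ≤ (A * A) * A := by
              gcongr
          _ = N := by rw [← hA3]; ring
          _ ≤ 1 * w := by linarith
      have hsplit : ∑ x ∈ Finset.Icc 1 Y, ∑ y ∈ Finset.Icc 1 Y, f (n + x * y) =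
          f n * ∑ x ∈ Finset.Icc 1 Y, ∑ y ∈ Finset.Icc 1 Y,
            e (∑ j ∈ Finset.Icc 1 k, alx t w j * ((x : ℝ) ^ j * (y : ℝ) ^ j)) +
          ∑ x ∈ Finset.Icc 1 Y, ∑ y ∈ Finset.Icc 1 Y, (f (n + x * y) - f n *
            e (∑ j ∈ Finset.Icc 1 k, alx t w j * ((x : ℝ) ^ j * (y : ℝ) ^ j))) := by
        simp only [Finset.sum_sub_distrib, Finset.mul_sum]
        ring
      rw [hsplit]
      refine (norm_add_le _ _).trans (add_le_add ?_ ?_)
      · rw [norm_mul]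
        calc ‖f n‖ * _ ≤ 1 * _ := mul_le_mul_of_nonneg_right (hf1 n) (norm_nonneg _)
          _ ≤ (Y : ℝ) ^ 2 * δ := by rw [one_mul]; exact hb
      · refine (norm_sum_le _ _).trans ?_
        calc ∑ x ∈ Finset.Icc 1 Y, ‖∑ y ∈ Finset.Icc 1 Y, (f (n + x * y) - f n *
              e (∑ j ∈ Finset.Icc 1 k, alx t w j * ((x : ℝ) ^ j * (y : ℝ) ^ j)))‖
            ≤ ∑ x ∈ Finset.Icc 1 Y, ∑ y ∈ Finset.Icc 1 Y, (2 / A) := by
              refine Finset.sum_le_sum fun x hx => (norm_sum_le _ _).trans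
                (Finset.sum_le_sum fun y hy => ?_)
              have hz := hzA x hx y hy
              have hz0 : (0 : ℝ) ≤ (x * y : ℝ) / w := by positivity
              have hA10 : 1 / A ≤ 1 / 2 := by
                rw [div_le_div_iff₀ (by linarith) (by norm_num)]; linarith
              have hfw : f (n + x * y) = Complex.exp (((t * Real.log (w + x * y) : ℝ)) * Complex.I) := by
                rw [hf, hw]; simp only; congr 4; push_cast; ring_nf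
              rw [hfw]
              refine (taylorx t ht0.le w x y k hn0 (hz.trans hA10)).trans ?_
              have h1 : ((x * y : ℝ) / w) ^ (k + 1) ≤ (1 / A) ^ (k + 1) :=
                pow_le_pow_left₀ hz0 hz _
              have h2 : t * (1 / A) ^ (k + 1) ≤ 1 / A := by
                have h3 : t ≤ A ^ k := by
                  rw [htN, hA, ← Real.rpow_natCast, ← Real.rpow_mul hN0.le]
                  exact Real.rpow_le_rpow_of_exponent_le hN1.le (by linarith)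
                have hA0 : 0 < A := by linarith
                rw [pow_succ, one_div, inv_pow]
                calc t * ((A ^ k)⁻¹ * A⁻¹) ≤ A ^ k * ((A ^ k)⁻¹ * A⁻¹) :=
                      mul_le_mul_of_nonneg_right h3 (by positivity)
                  _ = A⁻¹ := by field_simp
              calc 2 * t * ((x * y : ℝ) / w) ^ (k + 1) ≤ 2 * t * (1 / A) ^ (k + 1) := by gcongr
                _ = 2 * (t * (1 / A) ^ (k + 1)) := by ring
                _ ≤ 2 * (1 / A) := by linarith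
                _ = 2 / A := by ring
          _ = (Y : ℝ) ^ 2 * (2 / A) := by simp; ring
    have hcard : ((Finset.Ioc N M).card : ℝ) ≤ N := by
      rw [Nat.card_Ioc]
      have : M - N ≤ N := by omega
      exact_mod_cast this
    have hsum : ∑ n ∈ Finset.Ioc N M, ‖∑ x ∈ Finset.Icc 1 Y, ∑ y ∈ Finset.Icc 1 Y, f (n + x * y)‖ ≤
        (N : ℝ) * ((Y : ℝ) ^ 2 * δ + (Y : ℝ) ^ 2 * (2 / A)) := by
      have hA0 : 0 < A := by linarith
      calc _ ≤ ∑ n ∈ Finset.Ioc N M, ((Y : ℝ) ^ 2 * δ + (Y : ℝ) ^ 2 * (2 / A)) :=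
            Finset.sum_le_sum hpt
        _ = ((Finset.Ioc N M).card : ℝ) * ((Y : ℝ) ^ 2 * δ + (Y : ℝ) ^ 2 * (2 / A)) := by
            rw [Finset.sum_const, nsmul_eq_mul]
        _ ≤ _ := by gcongr
    have hS : ‖∑ n ∈ Finset.Ioc N M, f n‖ ≤ N * δ + N * (2 / A) + 2 * (Y : ℝ) ^ 2 := by
      have hY2' : 0 < (Y : ℝ) ^ 2 := by positivity
      have h1 : (Y : ℝ) ^ 2 * ‖∑ n ∈ Finset.Ioc N M, f n‖ ≤
          (Y : ℝ) ^ 2 * (N * δ + N * (2 / A) + 2 * (Y : ℝ) ^ 2) := by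
        refine havg.trans ?_
        nlinarith
      exact le_of_mul_le_mul_left h1 hY2'
    have hfinal : ‖∑ n ∈ Finset.Ioc N M, f n‖ ≤ 5 * (N * δ) := by
      have h1 : N * (2 / A) = 2 * (N * (1 / A)) := by ring
      have h2 : N * (1 / A) ≤ N * δ := by gcongr
      have h3 : (Y : ℝ) ^ 2 ≤ N * (1 / A) := by
        rw [mul_one_div, hNA]; exact pow_le_pow_left₀ (by linarith) hY1 2
      linarith
    exact hfinal
  have hNn1 : 1 ≤ N := by
    have : (0 : ℝ) < N := hN0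
    exact_mod_cast this
  have hNδ : 1 ≤ N * δ := by
    have h1 : N * (1 / A) ≤ N * δ := by gcongr
    have h2 : (1 : ℝ) ≤ N * (1 / A) := by
      rw [mul_one_div, hNA]; nlinarith
    linarith
  have hfin6 : ‖∑ n ∈ Finset.Ioc N M0, f n‖ ≤ 6 * (N * δ) := by
    by_cases hM : M0 ≤ 2 * N - 1
    · have := hcore M0 hNM0 hM
      linarith
    · have hM' : M0 = (2 * N - 1) + 1 := by omega
      rw [hM', Finset.sum_Ioc_succ_top (by omega)]
      refine (norm_add_le _ _).trans ?_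
      have h1 := hcore (2 * N - 1) (by omega) le_rfl
      have h2 := hf1 (2 * N - 1 + 1)
      linarith
  have hgoal : Real.exp (-(1 / 40000000 * L ^ 3 / τ ^ 2)) = δ := by
    rw [hδ]
    congr 2
    rw [hτ]
    field_simp
  rw [hgoal]
  calc ‖∑ n ∈ Finset.Ioc N M0, f n‖ ≤ 6 * (N * δ) := hfin6
    _ ≤ (C1 + 10) * N * δ := by
      have : 0 ≤ N * δ := by positivity
      nlinarith

end

end Pool.Agent.VMV
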