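import Mathlib
import Pool.Agent.Lib.VMV.ZSDefs
import Pool.Agent.Lib.VMV.V6p

/-! # Row ZS, the product for a real base point.  helper24. -/

set_option autoImplicit false

namespace Pool.Agent.VMV

open Finset

theorem wProdX : WProdX := by
  refine ⟨30000, by norm_num, ?_⟩
  intro N Y k s n κ t a hκ ht hn1 hn2 hY1 hY2 hk1 hk2 hs hs2 ha hC
  set L := Real.log N with hLdef
  have hκ4 : 1 ≤ κ ^ 4 := one_le_pow₀ hκ
  have hκ2 : κ ≤ κ ^ 4 := by
    calc κ = κ ^ 1 := (pow_one κ).symm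
      _ ≤ κ ^ 4 := pow_le_pow_right₀ hκ (by norm_num)
  have hL0 : 30000 ≤ L := by linarith
  have hN : 0 < N := by
    rcases Nat.eq_zero_or_pos N with h | h
    · rw [hLdef, h] at hL0
      simp at hL0
      linarith
    · exact h
  have hNr : (0 : ℝ) < N := by exact_mod_cast hN
  have hNe : (N : ℝ) = Real.exp L := by rw [hLdef, Real.exp_log hNr]
  have hrp : ∀ x : ℝ, (N : ℝ) ^ x = Real.exp (x * L) := by
    intro x
    rw [Real.rpow_def_of_pos hNr, mul_comm]
  rw [hrp] at ht hY1 hY2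
  rw [hrp]
  have e13 : 1 / 3 * L = L / 3 := by ring
  rw [e13] at hY1 hY2
  have hY0 : 1 ≤ Y := by
    have h1 : (0 : ℝ) < Y := by
      have := Real.exp_pos (L / 3)
      linarith
    exact_mod_cast h1
  have hY0' : (1 : ℝ) ≤ Y := by exact_mod_cast hY0
  have hsκ : (s : ℝ) ≤ κ * L / 54 := by
    have h1 : (k : ℝ) ≤ 7 * κ := by linarith
    have h2 : (k : ℝ) ^ 2 ≤ (7 * κ) ^ 2 := pow_le_pow_left₀ (by positivity) h1 2
    have h3 : κ ^ 2 ≤ κ * κ ^ 4 := by
      calc κ ^ 2 ≤ κ ^ 5 := pow_le_pow_right₀ hκ (by norm_num)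
        _ = κ * κ ^ 4 := by ring
    have h4 : κ * (30000 * κ ^ 4) ≤ κ * L := mul_le_mul_of_nonneg_left hC (by linarith)
    nlinarith
  have hcard := V6p_card hκ hk1
  set P : ℕ → Prop := fun j : ℕ => 5 * κ / 3 ≤ j ∧ (j : ℝ) ≤ 8 * κ / 3 with hP
  classical
  have hone : ∀ j ∈ Finset.Icc 1 k, (∑ m ∈ Finset.Icc (-(s * Y ^ j : ℤ)) (s * Y ^ j),
      ‖∑ n ∈ Finset.Icc (-(s * Y ^ j : ℤ)) (s * Y ^ j), e (a j * ((m : ℝ) * n))‖) ≤
      9 * (s : ℝ) ^ 2 * (Y : ℝ) ^ (2 * j) * (if P j then Real.exp (-(κ * L / 10)) else 1) := by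
    intro j hj
    rw [Finset.mem_Icc] at hj
    by_cases hPj : P j
    · rw [if_pos hPj]
      apply V6p_one (n := n)
      · refine ⟨hκ, hL0, hsκ, by exact_mod_cast hs, ?_, ?_, one_le_pow₀ hY0', hPj.1, hPj.2, ?_, ?_⟩
        · calc (Y : ℝ) ^ j ≤ (Real.exp (L / 3)) ^ j := pow_le_pow_left₀ (by positivity) hY1 _
            _ = Real.exp (j * L / 3) := by
              rw [← Real.exp_nat_mul]
              congr 1
              ring
        · calc Real.exp (j * L / 3) = (Real.exp (L / 3)) ^ j := by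
                rw [← Real.exp_nat_mul]
                congr 1
                ring
            _ ≤ (2 * (Y : ℝ)) ^ j := pow_le_pow_left₀ (Real.exp_pos _).le hY2 _
            _ = 2 ^ j * (Y : ℝ) ^ j := mul_pow _ _ _
        · have h1 : Real.exp (j * L) = (N : ℝ) ^ j := by rw [hNe, ← Real.exp_nat_mul]
          rw [h1]
          exact pow_le_pow_left₀ (by positivity) hn1 _
        · have h1 : Real.exp (j * L) = (N : ℝ) ^ j := by rw [hNe, ← Real.exp_nat_mul]
          rw [h1, ← mul_pow]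
          exact pow_le_pow_left₀ (by linarith) hn2 _
      · rw [ha j hj.1, ht]
    · rw [if_neg hPj, mul_one]
      exact V6p_triv hs hY0 _
  refine (Finset.prod_le_prod (fun j _ => Finset.sum_nonneg fun _ _ => norm_nonneg _)
    hone).trans ?_
  rw [Finset.prod_mul_distrib, Finset.prod_mul_distrib, Finset.prod_const, V6p_prodY,
    Nat.card_Icc, Nat.add_sub_cancel, Finset.prod_ite, Finset.prod_const, Finset.prod_const_one,
    mul_one, ← Real.exp_nat_mul]
  apply mul_le_mul_of_nonneg_left _ (by positivity)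
  apply Real.exp_le_exp.mpr
  have h1 : κ / 2 * (κ * L / 10) ≤ (((Finset.Icc 1 k).filter P).card : ℝ) * (κ * L / 10) := by
    apply mul_le_mul_of_nonneg_right hcard (by positivity)
  have h2 : κ ^ 2 / 20 * L = κ / 2 * (κ * L / 10) := by ring
  linarith

end Pool.Agent.VMV
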