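import Mathlib
import Pool.Agent.Lib.VMV.V1
import Pool.Agent.Lib.VMV.V2
import Pool.Agent.Lib.VMV.V3
import Pool.Agent.Lib.VMV.V4
import Pool.Agent.Lib.VMV.V5
import Pool.Agent.Lib.VMV.V6b
import Pool.Agent.Lib.VMV.V6w
import Pool.Agent.Lib.VMV.ZS
import Pool.Agent.Lib.VMV.ZSp

/-! # VMV: everything together (no hypothesis). -/

set_option autoImplicit false

namespace Pool.Agent.VMV

theorem vmvt_all : VMVT := vmvt (recur (wellCond linnik))

theorem zsum_all : Zsum := zsum vmvt_all bilinear wProd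

theorem zsumS_all : ZsumS := zsumS vmvt_all bilinear wProdX

end Pool.Agent.VMV
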