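import Pool.Agent.Lib.VMV.V1
import Mathlib.Analysis.SpecialFunctions.Complex.CircleAddChar

/-! # Discrete Fourier analysis on `(ZMod M)^ι` for counting solutions.  helper71, Dec 4. -/

set_option autoImplicit false

namespace Pool.Agent.VMV

open Finset ComplexConjugate

noncomputable section

variable {ι : Type} [Fintype ι] {M : ℕ} [NeZero M]

/-- the additive character at frequency `α` evaluated at an integer vector. -/
def ch (α : ι → ZMod M) (c : ι → ℤ) : ℂ := ZMod.stdAddChar (∑ j, α j * (c j : ZMod M))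

theorem addChar_sum {G τ : Type} [AddCommMonoid G] (ψ : AddChar G ℂ) (s : Finset τ) (f : τ → G) :
    ψ (∑ t ∈ s, f t) = ∏ t ∈ s, ψ (f t) := by
  classical
  induction s using Finset.induction_on with
  | empty => simp
  | insert a s ha ih => rw [Finset.sum_insert ha, Finset.prod_insert ha, AddChar.map_add_eq_mul, ih]

theorem ch_add (α : ι → ZMod M) (c d : ι → ℤ) : ch α (c + d) = ch α c * ch α d := by
  unfold ch
  rw [← AddChar.map_add_eq_mul, ← Finset.sum_add_distrib]
  congr 1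
  apply Finset.sum_congr rfl
  intro j _
  rw [Pi.add_apply]
  push_cast
  ring

theorem ch_zero (α : ι → ZMod M) : ch α 0 = 1 := by
  unfold ch
  simp

theorem ch_sum {τ : Type} (s : Finset τ) (α : ι → ZMod M) (c : τ → ι → ℤ) :
    ch α (∑ t ∈ s, c t) = ∏ t ∈ s, ch α (c t) := by
  classical
  induction s using Finset.induction_on with
  | empty => simp [ch_zero]
  | insert a s ha ih => rw [Finset.sum_insert ha, Finset.prod_insert ha, ch_add, ih]

theorem conj_ch (α : ι → ZMod M) (c : ι → ℤ) : conj (ch α c) = ch α (-c) := by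
  unfold ch
  rw [← AddChar.map_neg_eq_conj, ← Finset.sum_neg_distrib]
  congr 1
  apply Finset.sum_congr rfl
  intro j _
  rw [Pi.neg_apply]
  push_cast
  ring

theorem norm_ch (α : ι → ZMod M) (c : ι → ℤ) : ‖ch α c‖ = 1 := by
  unfold ch
  rw [ZMod.stdAddChar_apply]
  exact Circle.norm_coe _

variable [DecidableEq ι]

theorem sum_ch (c : ι → ℤ) : ∑ α : ι → ZMod M, ch α c =
    if ∀ j, (c j : ZMod M) = 0 then (M : ℂ) ^ (Fintype.card ι) else 0 := by
  classical
  unfold ch
  have h1 : ∀ α : ι → ZMod M, (ZMod.stdAddChar (∑ j, α j * (c j : ZMod M)) : ℂ) =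
      ∏ j, (ZMod.stdAddChar (α j * (c j : ZMod M)) : ℂ) := by
    intro α
    rw [addChar_sum]
  simp_rw [h1]
  have h2 : ∑ α : ι → ZMod M, ∏ j, (ZMod.stdAddChar (α j * (c j : ZMod M)) : ℂ) =
      ∏ j : ι, ∑ a : ZMod M, (ZMod.stdAddChar (a * (c j : ZMod M)) : ℂ) := by
    rw [Finset.prod_univ_sum, Fintype.piFinset_univ]
  rw [h2]
  have h3 : ∀ j : ι, ∑ a : ZMod M, (ZMod.stdAddChar (a * (c j : ZMod M)) : ℂ) =
      if (c j : ZMod M) = 0 then (M : ℂ) else 0 := by
    intro j
    rw [AddChar.sum_mulShift _ (ZMod.isPrimitive_stdAddChar M), ZMod.card]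
    push_cast
    rfl
  simp_rw [h3]
  by_cases h : ∀ j, (c j : ZMod M) = 0
  · rw [if_pos h]
    rw [Finset.prod_congr rfl (fun j _ => if_pos (h j)), Finset.prod_const, Finset.card_univ]
  · rw [if_neg h]
    push Not at h
    obtain ⟨j, hj⟩ := h
    exact Finset.prod_eq_zero (Finset.mem_univ j) (if_neg hj)

/-- Parseval: the number of pairs with equal images. -/
theorem sum_ch_mul {A B : Type} (Z : Finset A) (W : Finset B) (φ : A → ι → ℤ) (φ' : B → ι → ℤ)
    (hM : ∀ z ∈ Z, ∀ w ∈ W, ∀ j, |φ z j - φ' w j| < M) :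
    ∑ α : ι → ZMod M, (∑ z ∈ Z, ch α (φ z)) * conj (∑ w ∈ W, ch α (φ' w)) =
      (M : ℂ) ^ (Fintype.card ι) * (((Z ×ˢ W).filter fun q => φ q.1 = φ' q.2).card : ℂ) := by
  classical
  have h1 : ∀ α : ι → ZMod M, (∑ z ∈ Z, ch α (φ z)) * conj (∑ w ∈ W, ch α (φ' w)) =
      ∑ q ∈ Z ×ˢ W, ch α (φ q.1 - φ' q.2) := by
    intro α
    rw [map_sum, Finset.sum_mul_sum, Finset.sum_product]
    apply Finset.sum_congr rfl
    intro z _
    apply Finset.sum_congr rfl
    intro w _
    rw [conj_ch, ← ch_add, sub_eq_add_neg]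
  simp_rw [h1]
  rw [Finset.sum_comm]
  have h2 : ∀ q ∈ Z ×ˢ W, ∑ α : ι → ZMod M, ch α (φ q.1 - φ' q.2) =
      if φ q.1 = φ' q.2 then (M : ℂ) ^ (Fintype.card ι) else 0 := by
    intro q hq
    rw [Finset.mem_product] at hq
    rw [sum_ch]
    congr 1
    apply propext
    constructor
    · intro h
      funext j
      have h3 := h j
      rw [Pi.sub_apply, ZMod.intCast_zmod_eq_zero_iff_dvd] at h3
      have h4 := Int.eq_zero_of_abs_lt_dvd h3 (hM _ hq.1 _ hq.2 j)
      linarith
    · intro h j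
      rw [Pi.sub_apply, h, sub_self]
      simp
  rw [Finset.sum_congr rfl h2, ← Finset.sum_filter, Finset.sum_const, nsmul_eq_mul, mul_comm]

/-- Parseval for one set: `∑_α |F|² = M^{|ι|} #{φ z = φ w}` (real form). -/
theorem sum_normSq {A : Type} (Z : Finset A) (φ : A → ι → ℤ)
    (hM : ∀ z ∈ Z, ∀ w ∈ Z, ∀ j, |φ z j - φ w j| < M) :
    ∑ α : ι → ZMod M, ‖∑ z ∈ Z, ch α (φ z)‖ ^ 2 =
      (M : ℝ) ^ (Fintype.card ι) * (((Z ×ˢ Z).filter fun q => φ q.1 = φ q.2).card : ℝ) := by
  have h := sum_ch_mul (M := M) Z Z φ φ hM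
  have h1 : ∀ α : ι → ZMod M, (∑ z ∈ Z, ch α (φ z)) * conj (∑ w ∈ Z, ch α (φ w)) =
      ((‖∑ z ∈ Z, ch α (φ z)‖ ^ 2 : ℝ) : ℂ) := by
    intro α
    rw [Complex.mul_conj, Complex.normSq_eq_norm_sq]
  simp_rw [h1] at h
  exact_mod_cast h

/-- the shifted equation has at most as many solutions. -/
theorem card_shift_le {A G : Type} [AddCommGroup G] [DecidableEq G] (Z : Finset A) (φ : A → G)
    (c : G) :
    ((Z ×ˢ Z).filter fun q => φ q.1 = φ q.2 + c).card ≤
      ((Z ×ˢ Z).filter fun q => φ q.1 = φ q.2).card := by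
  let r : G → ℕ := fun n => (Z.filter fun z => φ z = n).card
  have hcount : ∀ d : G, ((Z ×ˢ Z).filter fun q => φ q.1 = φ q.2 + d).card =
      ∑ n ∈ Z.image φ, r n * r (n + d) := by
    intro d
    rw [Finset.card_eq_sum_card_fiberwise (f := fun q => φ q.2) (t := Z.image φ)]
    · apply Finset.sum_congr rfl
      intro n _
      have h1 : (((Z ×ˢ Z).filter fun q => φ q.1 = φ q.2 + d).filter fun q => φ q.2 = n) =
          (Z.filter fun z => φ z = n + d) ×ˢ (Z.filter fun z => φ z = n) := by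
        ext q
        simp only [Finset.mem_filter, Finset.mem_product]
        constructor
        · rintro ⟨⟨⟨h1, h2⟩, h3⟩, h4⟩
          exact ⟨⟨h1, by rw [h3, h4]⟩, ⟨h2, h4⟩⟩
        · rintro ⟨⟨h1, h2⟩, ⟨h3, h4⟩⟩
          exact ⟨⟨⟨h1, h3⟩, by rw [h2, h4]⟩, h4⟩
      rw [h1, Finset.card_product, mul_comm]
    · intro q hq
      simp only [Finset.coe_filter, Finset.mem_product, Set.mem_ofPred_eq] at hq
      exact Finset.mem_coe.mpr (Finset.mem_image_of_mem _ hq.1.2)
  have h0 := hcount 0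
  simp only [add_zero] at h0
  rw [h0, hcount c]
  have h2 : 2 * ∑ n ∈ Z.image φ, r n * r (n + c) ≤ 2 * ∑ n ∈ Z.image φ, r n * r n := by
    have h3 : ∀ n ∈ Z.image φ, 2 * (r n * r (n + c)) ≤ r n * r n + r (n + c) * r (n + c) := by
      intro n _
      nlinarith [Nat.zero_le (r n), two_mul_le_add_sq (r n) (r (n + c))]
    have h4 : ∑ n ∈ Z.image φ, r (n + c) * r (n + c) ≤ ∑ n ∈ Z.image φ, r n * r n := by
      have h5 : ∑ n ∈ Z.image φ, r (n + c) * r (n + c) =
          ∑ n ∈ (Z.image φ).image (fun n => n + c), r n * r n := by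
        rw [Finset.sum_image (s := Z.image φ) (g := fun n => n + c) (f := fun n => r n * r n)
          (fun a _ b _ hab => add_right_cancel hab)]
      rw [h5]
      have h6 : ∑ n ∈ (Z.image φ).image (fun n => n + c), r n * r n ≤
          ∑ n ∈ (Z.image φ).image (fun n => n + c) ∪ Z.image φ, r n * r n :=
        Finset.sum_le_sum_of_subset Finset.subset_union_left
      refine le_trans h6 (le_of_eq ?_)
      symm
      apply Finset.sum_subset Finset.subset_union_right
      intro n _ hn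
      have : r n = 0 := by
        simp only [r, Finset.card_eq_zero, Finset.filter_eq_empty_iff]
        intro z hz hzn
        exact hn (hzn ▸ Finset.mem_image_of_mem φ hz)
      rw [this, Nat.zero_mul]
    rw [Finset.mul_sum]
    calc ∑ n ∈ Z.image φ, 2 * (r n * r (n + c))
        ≤ ∑ n ∈ Z.image φ, (r n * r n + r (n + c) * r (n + c)) := Finset.sum_le_sum h3
      _ = ∑ n ∈ Z.image φ, r n * r n + ∑ n ∈ Z.image φ, r (n + c) * r (n + c) :=
          Finset.sum_add_distrib
      _ ≤ _ := by omega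
  omega

end

end Pool.Agent.VMV
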